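import Pool.Agent.R475.AL
import Pool.Agent.H739K.All2

/-!
# Mean area and mean width of self-avoiding polygons: almost all perimeters
-/

set_option autoImplicit false

namespace Pool.Agent.R475.AL

open Filter Topology Finset

/-- near convexity from a convolution type inequality and a ratio limit -/
lemma nc_gen {b : ℕ → ℝ} {μ D : ℝ} (hμ : 1 < μ) (hD : 0 ≤ D) (hb : ∀ᶠ k : ℕ in atTop, 0 < b k)
    (hk : ∀ᶠ k : ℕ in atTop, b (k + 1) ^ 2 ≤ b k * b (k + 2) + D / k * b k ^ 2)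
    (hr : Tendsto (fun k => b (k + 1) / (μ ^ 2 * b k)) atTop (𝓝 1)) :
    Nc (fun k => Real.log (b k) - k * Real.log (μ ^ 2)) D := by
  have hμ2 : 1 < μ ^ 2 := one_lt_pow₀ hμ (by norm_num)
  have hb1 : ∀ᶠ k : ℕ in atTop, 0 < b (k + 1) := (tendsto_add_atTop_nat 1).eventually hb
  have hb2 : ∀ᶠ k : ℕ in atTop, 0 < b (k + 2) := (tendsto_add_atTop_nat 2).eventually hb
  have hinc : ∀ᶠ k : ℕ in atTop, b k ≤ b (k + 1) := by
    have h1 : 1 / μ ^ 2 < 1 := by rw [div_lt_one (by linarith)]; exact hμ2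
    filter_upwards [hr.eventually_const_lt h1, hb] with k h2 h3
    rw [div_lt_div_iff₀ (by positivity) (by positivity)] at h2
    have h4 : μ ^ 2 * b k < μ ^ 2 * b (k + 1) := by linarith
    exact (lt_of_mul_lt_mul_left h4 (by positivity)).le
  have hinc1 : ∀ᶠ k : ℕ in atTop, b (k + 1) ≤ b (k + 2) := (tendsto_add_atTop_nat 1).eventually hinc
  refine ⟨hD, ?_, ?_⟩
  · filter_upwards [hk, hb, hb1, hb2, hinc, hinc1, eventually_ge_atTop 1]
      with k h1 p0 p1 p2 i0 i1 hk1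
    have hk0 : (0 : ℝ) < k := by exact_mod_cast hk1
    have h2 : b (k + 1) ^ 2 ≤ b k * b (k + 2) * (1 + D / k) := by
      have h3 : D / k * b k ^ 2 ≤ D / k * (b k * b (k + 2)) := by
        refine mul_le_mul_of_nonneg_left ?_ (by positivity)
        rw [pow_two]
        exact mul_le_mul_of_nonneg_left (i0.trans i1) p0.le
      linarith
    have h3 := Real.log_le_log (by positivity) h2
    rw [Real.log_pow, Real.log_mul (by positivity) (by positivity),
      Real.log_mul (by positivity) (by positivity)] at h3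
    have h4 := Real.log_le_sub_one_of_pos (show (0 : ℝ) < 1 + D / k by positivity)
    push_cast at h3 ⊢
    linarith
  · have h := (Real.continuousAt_log one_ne_zero).tendsto.comp hr
    rw [Real.log_one] at h
    refine h.congr' ?_
    filter_upwards [hb, hb1] with k h1 h2
    simp only [Function.comp_apply]
    rw [Real.log_div h2.ne' (by positivity), Real.log_mul (by positivity) h1.ne']
    push_cast
    ring

/-- quotients -/
lemma qt_gen {b b' : ℕ → ℝ} {μ D D' : ℝ} (h : Nc (fun k => Real.log (b k) - k * Real.log (μ ^ 2)) D)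
    (h' : Nc (fun k => Real.log (b' k) - k * Real.log (μ ^ 2)) D')
    (hb : ∀ᶠ k : ℕ in atTop, 0 < b k) (hb' : ∀ᶠ k : ℕ in atTop, 0 < b' k) :
    Qt (fun k => b k / b' k) := by
  refine ⟨_, _, D, D', h, h', ?_⟩
  filter_upwards [hb, hb'] with k h1 h2
  refine ⟨div_pos h1 h2, ?_⟩
  rw [Real.log_div h1.ne' h2.ne']
  ring

lemma nc_const (c : ℝ) : Nc (fun _ => c) 0 := by
  refine ⟨le_rfl, Eventually.of_forall fun k => ?_, ?_⟩
  · simp only [zero_div]
    linarith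
  · simp

lemma Qt.scale {X : ℕ → ℝ} (h : Qt X) {c : ℝ} (hc : 0 < c) : Qt (fun k => c * X k) := by
  obtain ⟨f, g, D, D', hf, hg, he⟩ := h
  refine ⟨_, g, _, D', hf.add (nc_const (Real.log c)), hg, ?_⟩
  filter_upwards [he] with k hk
  refine ⟨mul_pos hc hk.1, ?_⟩
  rw [Real.log_mul hc.ne' hk.1.ne', hk.2]
  ring

lemma Qt.congr {X Y : ℕ → ℝ} (h : Qt X) (he : ∀ᶠ k : ℕ in atTop, X k = Y k) : Qt Y := by
  obtain ⟨f, g, D, D', hf, hg, h1⟩ := h
  refine ⟨f, g, D, D', hf, hg, ?_⟩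
  filter_upwards [h1, he] with k h2 h3
  rw [← h3]
  exact h2

open Pool.Agent.H739K in
/-- weighted sums over polygons -/
theorem nc_poly {Λ : ℝ} (hΛ : 0 ≤ Λ) (φ : List Pool.Agent.H976R2.Dir → ℝ)
    (hφ : ∀ m : ℕ, 3 ≤ m → Nice Λ m φ) : ∃ D : ℝ,
    Nc (fun k => Real.log (mm φ (2 * k - 1)) - k * Real.log (H981.mu ^ 2)) D ∧
    ∀ᶠ k : ℕ in atTop, 0 < mm φ (2 * k - 1) := by
  obtain ⟨D, hD, h⟩ := RATIO_proof bnd Λ hΛ
  obtain ⟨C, hC⟩ := main' Λ hΛ
  have hmu : 1 < H981.mu := by linarith [mu_ge]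
  have hpos : ∀ᶠ k : ℕ in atTop, 0 < mm φ (2 * k - 1) := by
    filter_upwards [eventually_ge_atTop 2] with k hk
    have h1 := F0_mm_pos (hφ (2 * k - 1) (by omega)) le_rfl (by omega)
      (F0_card_pos bnd (2 * k - 1) (by omega) (by omega))
    exact h1
  refine ⟨D, ?_, hpos⟩
  refine nc_gen hmu hD hpos ?_ ?_
  · filter_upwards [eventually_ge_atTop 2, hpos] with k hk hp
    have h1 := h (2 * k - 1) φ (by omega) (by omega) (hφ _ (by omega))
    rw [show 2 * k - 1 + 2 = 2 * (k + 1) - 1 by omega,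
      show 2 * k - 1 + 4 = 2 * (k + 2) - 1 by omega] at h1
    refine h1.trans (add_le_add le_rfl ?_)
    refine mul_le_mul_of_nonneg_right ?_ (sq_nonneg _)
    have hk0 : (0 : ℝ) < k := by exact_mod_cast (show 0 < k by omega)
    apply div_le_div_of_nonneg_left hD hk0
    exact_mod_cast (show k ≤ 2 * k - 1 by omega)
  · have h0 : Tendsto (fun k : ℕ => C * rt (2 * k - 1)) atTop (𝓝 0) := by
      have h1 : Tendsto (fun k : ℕ => 2 * k - 1) atTop atTop :=
        tendsto_atTop_mono' _ (by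
          filter_upwards [eventually_ge_atTop 1] with k hk
          show k ≤ 2 * k - 1
          omega) tendsto_id
      have h2 := (F0_rt_tendsto.comp h1).const_mul C
      rw [mul_zero] at h2
      exact h2
    rw [tendsto_iff_norm_sub_tendsto_zero]
    refine squeeze_zero' (Eventually.of_forall fun _ => norm_nonneg _) ?_ h0
    filter_upwards [eventually_ge_atTop 2] with k hk
    have h1 := hC (2 * k - 1) φ (by omega) (by omega) (fun m hm _ _ => hφ m hm)
    rw [show 2 * k - 1 + 2 = 2 * (k + 1) - 1 by omega] at h1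
    rw [Real.norm_eq_abs]
    exact h1

open Pool.Agent.H739K in
theorem nc_card : ∃ D : ℝ,
    Nc (fun k => Real.log ((KP (2 * k - 1)).card : ℝ) - k * Real.log (H981.mu ^ 2)) D ∧
    ∀ᶠ k : ℕ in atTop, (0 : ℝ) < ((KP (2 * k - 1)).card : ℝ) := by
  have h := nc_poly le_rfl (fun _ => 1) (fun m _ => F0_nice_one m)
  simp only [F0_mm_one] at h
  exact h

open Pool.Agent.H739K in
theorem qt_area : Qt (fun k => MA k + (2 * k - 1)) := by
  obtain ⟨D, h1, h2⟩ := nc_poly (show (0 : ℝ) ≤ 6 by norm_num) F2aux.ph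
    (fun m hm => F2aux.nice CONV_proof AREA_proof m hm)
  obtain ⟨D', h3, h4⟩ := nc_card
  refine (qt_gen h1 h3 h2 h4).congr ?_
  filter_upwards [eventually_ge_atTop 2] with k hk
  exact F2aux.mean_eq CONV_proof f2a k hk

open Pool.Agent.H739K in
theorem qt_width : Qt MW := by
  obtain ⟨D, h1, h2⟩ := nc_poly (show (0 : ℝ) ≤ 6 by norm_num) (fun w => (bx w : ℝ))
    (fun m hm => F3x.nice BOX_proof m hm)
  obtain ⟨D', h3, h4⟩ := nc_card
  refine ((qt_gen h1 h3 h2 h4).scale (show (0 : ℝ) < 1 / 2 by norm_num)).congr ?_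
  filter_upwards [eventually_ge_atTop 2] with k hk
  rw [F3x.mean_eq CONV_proof SWAP_proof hk]
  ring

lemma log_bd_aux {x : ℝ} {k : ℕ} (hk : 27 ≤ k) (h1 : 1 ≤ x)
    (h2 : x ≤ 100 * (((2 * k - 1 : ℕ) : ℝ) + 5) ^ 3) : |Real.log x| ≤ 8 * Real.log k := by
  have hk' : (27 : ℝ) ≤ k := by exact_mod_cast hk
  have hk0 : (0 : ℝ) < k := by linarith
  rw [abs_of_nonneg (Real.log_nonneg h1)]
  have h3 : x ≤ (k : ℝ) ^ 8 := by
    refine h2.trans ?_
    rw [Nat.cast_sub (by omega)]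
    push_cast
    have h4 : 2 * (k : ℝ) - 1 + 5 ≤ 3 * k := by linarith
    calc 100 * (2 * (k : ℝ) - 1 + 5) ^ 3 ≤ 100 * (3 * (k : ℝ)) ^ 3 := by
          gcongr
          linarith
      _ = 2700 * (k : ℝ) ^ 3 := by ring
      _ ≤ (k : ℝ) ^ 5 * (k : ℝ) ^ 3 := by
          refine mul_le_mul_of_nonneg_right ?_ (by positivity)
          calc (2700 : ℝ) ≤ 27 ^ 5 := by norm_num
            _ ≤ (k : ℝ) ^ 5 := pow_le_pow_left₀ (by norm_num) hk' 5
      _ = (k : ℝ) ^ 8 := by ring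
  have h5 := Real.log_le_log (by linarith) h3
  rw [Real.log_pow] at h5
  exact_mod_cast h5

open Pool.Agent.H739K Pool.Agent.H976R2 in
theorem log_bd {Λ : ℝ} (φ : List Dir → ℝ) (hφ : ∀ m : ℕ, 3 ≤ m → Nice Λ m φ) :
    ∀ᶠ k : ℕ in atTop,
      |Real.log (mm φ (2 * k - 1) / ((KP (2 * k - 1)).card : ℝ))| ≤ 8 * Real.log k := by
  filter_upwards [eventually_ge_atTop 27] with k hk
  have hN := hφ (2 * k - 1) (by omega)
  have hc := F0_card_pos bnd (2 * k - 1) (by omega) (by omega)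
  have hmem : ∀ w ∈ KP (2 * k - 1), w.length = 2 * k - 1 ∧ Saw w ∧ sq w = 1 := by
    intro w hw
    unfold KP at hw
    rw [mem_filter, mem_SW] at hw
    exact ⟨hw.1.1, hw.1.2, hw.2⟩
  refine log_bd_aux hk ?_ ?_
  · rw [le_div_iff₀ hc, one_mul]
    unfold mm
    have : ((KP (2 * k - 1)).card : ℝ) = ∑ w ∈ KP (2 * k - 1), (1 : ℝ) := by simp
    rw [this]
    refine Finset.sum_le_sum fun w hw => ?_
    obtain ⟨hl, hs, hq⟩ := hmem w hw
    exact hN.one_le w (by omega) (by omega) hs hq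
  · rw [div_le_iff₀ hc]
    unfold mm
    have : 100 * (((2 * k - 1 : ℕ) : ℝ) + 5) ^ 3 * ((KP (2 * k - 1)).card : ℝ) =
        ∑ w ∈ KP (2 * k - 1), 100 * (((2 * k - 1 : ℕ) : ℝ) + 5) ^ 3 := by
      rw [Finset.sum_const, nsmul_eq_mul]; ring
    rw [this]
    refine Finset.sum_le_sum fun w hw => ?_
    obtain ⟨hl, hs, hq⟩ := hmem w hw
    exact hN.le w (by omega) (by omega) hs hq

open Pool.Agent.H739K in
/-- **width: most ratios** -/
theorem width_rate : ∃ B : ℝ, ∀ᶠ N : ℕ in atTop, ∀ M : ℝ, 1 ≤ M →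
    (((Finset.Ico N (2 * N)).filter
      fun n => M * √(Real.log N / N) < |MW (n + 1) / MW n - 1|).card : ℝ) ≤ B * N / M ^ 2 := by
  have h := log_bd (fun w => (bx w : ℝ)) (fun m hm => F3x.nice BOX_proof m hm)
  obtain ⟨B, hB⟩ := (qt_width.scale (show (0 : ℝ) < 2 by norm_num)).rate
    (show (0 : ℝ) < 8 by norm_num) (by
    filter_upwards [h, eventually_ge_atTop 2] with k h1 h2
    rwa [F3x.mean_eq CONV_proof SWAP_proof h2] at h1) one_pos
  refine ⟨B, ?_⟩
  simp only [mul_div_mul_left _ _ (show (2 : ℝ) ≠ 0 by norm_num)] at hB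
  exact hB

open Pool.Agent.H739K in
/-- **area: most ratios** -/
theorem area_rate : ∃ B : ℝ, ∀ᶠ N : ℕ in atTop, ∀ M : ℝ, 1 ≤ M →
    (((Finset.Ico N (2 * N)).filter
      fun n => M * √(Real.log N / N) < |MA (n + 1) / MA n - 1|).card : ℝ) ≤ B * N / M ^ 2 := by
  have h := log_bd F2aux.ph (fun m hm => F2aux.nice CONV_proof AREA_proof m hm)
  obtain ⟨B, hB⟩ := qt_area.rate (show (0 : ℝ) < 8 by norm_num) (by
    filter_upwards [h, eventually_ge_atTop 2] with k h1 h2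
    rwa [F2aux.mean_eq CONV_proof f2a k h2] at h1) (show (0 : ℝ) < 1 / 10 by norm_num)
  refine ⟨100 * B, ?_⟩
  filter_upwards [hB, eventually_ge_atTop 100] with N hN hN2 M hM
  have h2 := hN (M / 10) (by linarith)
  have hM0 : 0 < M := by linarith
  have e : B * N / (M / 10) ^ 2 = 100 * B * N / M ^ 2 := by
    field_simp
    ring
  rw [e] at h2
  refine le_trans ?_ h2
  refine Nat.cast_le.2 (Finset.card_le_card ?_)
  intro n hn
  rw [Finset.mem_filter] at hn ⊢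
  refine ⟨hn.1, ?_⟩
  have hn1 := Finset.mem_Ico.1 hn.1
  have hn3 := hn.2
  have hnN : (N : ℝ) ≤ n := by exact_mod_cast hn1.1
  have hN100 : (100 : ℝ) ≤ N := by exact_mod_cast hN2
  have hn0 : (0 : ℝ) < n := by linarith
  have hA := f2a n (by omega)
  obtain ⟨A, hAdef⟩ : ∃ A : ℝ, A = MA n := ⟨_, rfl⟩
  obtain ⟨A', hA'def⟩ : ∃ A' : ℝ, A' = MA (n + 1) := ⟨_, rfl⟩
  rw [← hAdef] at hA hn3
  rw [← hA'def] at hn3
  rw [← hAdef, ← hA'def]
  have hA0 : 0 < A := by linarith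
  have hB0 : 0 < A + (2 * (n : ℝ) - 1) := by linarith
  obtain ⟨d, hd⟩ : ∃ d : ℝ, d = (A' + (2 * ((n + 1 : ℕ) : ℝ) - 1)) / (A + (2 * n - 1)) - 1 :=
    ⟨_, rfl⟩
  rw [← hd]
  obtain ⟨q, hq⟩ : ∃ q : ℝ, q = √(Real.log N / N) := ⟨_, rfl⟩
  rw [← hq] at hn3 ⊢
  have h3 : A' / A - 1 = (A + (2 * n - 1)) / A * d - 2 / A := by
    rw [hd]
    push_cast
    field_simp
    ring
  have h5 : (A + (2 * n - 1)) / A ≤ 5 := by
    rw [div_le_iff₀ hA0]
    linarith
  have h5' : 0 ≤ (A + (2 * n - 1)) / A := by positivity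
  have h6 : 2 / A ≤ 4 / n := by
    rw [div_le_div_iff₀ hA0 hn0]
    linarith
  have h7 : 4 / (n : ℝ) ≤ 4 / N := by
    apply div_le_div_of_nonneg_left (by norm_num) (by linarith) hnN
  have h8 : 8 / (N : ℝ) ≤ q := by
    rw [hq]
    apply Real.le_sqrt_of_sq_le
    have hl : 1 ≤ Real.log (N : ℝ) := Pool.Agent.R956.K1.log_scale (by omega)
    rw [div_pow, div_le_div_iff₀ (by positivity) (by positivity)]
    have : (8 : ℝ) ^ 2 * N ≤ 1 * N ^ 2 := by nlinarith
    nlinarith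
  have h9 : |A' / A - 1| ≤ 5 * |d| + 4 / N := by
    rw [h3]
    refine (abs_sub _ _).trans ?_
    rw [abs_mul, abs_of_nonneg h5', abs_of_pos (show 0 < 2 / A by positivity)]
    have := mul_le_mul_of_nonneg_right h5 (abs_nonneg d)
    linarith
  have h10 : q ≤ M * q := by
    have : 0 ≤ q := by rw [hq]; exact Real.sqrt_nonneg _
    nlinarith
  have h11 : 4 / (N : ℝ) ≤ M * q / 2 := by
    have : 4 / (N : ℝ) = 8 / N / 2 := by ring
    rw [this]
    linarith
  have e3 : M / 10 * q = M * q / 10 := by ring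
  rw [e3]
  linarith

open Pool.Agent.H739K in
/-- **area: almost all perimeters** -/
theorem area_form {θ c : ℝ} (hθ : 1 < θ) (hc : 0 < c)
    (hX : ∀ ε δ : ℝ, 0 < ε → 0 < δ → ∀ᶠ n : ℕ in atTop, ∃ k : ℕ, |MA k / (k : ℝ) ^ θ - c| ≤ ε ∧
      n ≤ k ∧ (k : ℝ) ≤ n + δ * √(n : ℝ)) (ε : ℝ) (hε : 0 < ε) :
    Tendsto (fun N : ℕ => (((Finset.Ico N (2 * N)).filter
      fun n : ℕ => ε < |MA n / (n : ℝ) ^ θ - c|).card : ℝ) / N) atTop (𝓝 0) := by
  have h0 : Tendsto (fun n : ℕ => (2 * (n : ℝ) - 1) / (n : ℝ) ^ θ) atTop (𝓝 0) := by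
    have h1 : Tendsto (fun n : ℕ => 2 * ((n : ℝ) ^ (-(θ - 1)))) atTop (𝓝 0) := by
      have h2 := (tendsto_rpow_neg_atTop (show 0 < θ - 1 by linarith)).comp
        (tendsto_natCast_atTop_atTop (R := ℝ))
      have h3 := h2.const_mul 2
      rw [mul_zero] at h3
      exact h3
    refine squeeze_zero' ?_ ?_ h1
    · filter_upwards [eventually_ge_atTop 1] with n hn
      have : (1 : ℝ) ≤ n := by exact_mod_cast hn
      have : 0 ≤ 2 * (n : ℝ) - 1 := by linarith
      positivity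
    · filter_upwards [eventually_ge_atTop 1] with n hn
      have hn0 : (0 : ℝ) < n := by exact_mod_cast hn
      have e : 2 * ((n : ℝ) ^ (-(θ - 1))) = 2 * n / (n : ℝ) ^ θ := by
        rw [neg_sub, Real.rpow_sub hn0, Real.rpow_one]
        ring
      rw [e]
      apply div_le_div_of_nonneg_right (by linarith) (by positivity)
  have hd : ∀ ρ : ℝ, 0 < ρ → ∀ᶠ n : ℕ in atTop,
      |(MA n + (2 * n - 1)) / (n : ℝ) ^ θ - MA n / (n : ℝ) ^ θ| < ρ := by
    intro ρ hρ
    have h1 := h0.abs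
    rw [abs_zero] at h1
    filter_upwards [h1.eventually_lt_const hρ] with n hn
    rw [add_div, add_sub_cancel_left]
    exact hn
  have h1 := qt_area.form hc (θ := θ) (fun ε' δ hε' hδ => by
    obtain ⟨N, hN⟩ := eventually_atTop.1 (hd (ε' / 2) (by positivity))
    filter_upwards [hX (ε' / 2) δ (by positivity) hδ, eventually_ge_atTop N] with n hn hnN
    obtain ⟨k, h2, h3, h4⟩ := hn
    refine ⟨k, ?_, h3, h4⟩
    have h5 := hN k (by omega)
    have e : (MA k + (2 * k - 1)) / (k : ℝ) ^ θ - c =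
      ((MA k + (2 * k - 1)) / (k : ℝ) ^ θ - MA k / (k : ℝ) ^ θ) + (MA k / (k : ℝ) ^ θ - c) := by
        ring
    rw [e]
    refine (abs_add_le _ _).trans ?_
    linarith) (ε / 2) (by positivity)
  obtain ⟨N0, hN0⟩ := eventually_atTop.1 (hd (ε / 2) (by positivity))
  refine squeeze_zero' (Eventually.of_forall fun N => by positivity) ?_ h1
  filter_upwards [eventually_ge_atTop N0] with N hN
  apply div_le_div_of_nonneg_right _ (Nat.cast_nonneg _)
  refine Nat.cast_le.2 (Finset.card_le_card ?_)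
  intro n hn
  rw [Finset.mem_filter] at hn ⊢
  refine ⟨hn.1, ?_⟩
  have hn1 := Finset.mem_Ico.1 hn.1
  have h5 := hN0 n (by omega)
  have h6 := hn.2
  have e : MA n / (n : ℝ) ^ θ - c = ((MA n + (2 * n - 1)) / (n : ℝ) ^ θ - c) -
      ((MA n + (2 * n - 1)) / (n : ℝ) ^ θ - MA n / (n : ℝ) ^ θ) := by ring
  rw [e] at h6
  have h7 := abs_sub ((MA n + (2 * n - 1)) / (n : ℝ) ^ θ - c)
    ((MA n + (2 * n - 1)) / (n : ℝ) ^ θ - MA n / (n : ℝ) ^ θ)
  linarith

end Pool.Agent.R475.AL
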