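import Pool.Agent.R475.AM
import Pool.Agent.R475.AW
import Pool.Agent.R475.MM

/-!
# Moments and law of the area of polygons along almost all perimeters
-/

set_option autoImplicit false
set_option linter.unusedVariables false

namespace Pool.Agent.R475.AA

open Finset Pool.Agent.H976R2 Pool.Agent.H924P Pool.Agent.H739K Filter Topology
open Pool.Agent.R475.AL
open scoped Classical

lemma Nc.smul {f : ℕ → ℝ} {D c : ℝ} (hc : 0 ≤ c) (h : Nc f D) : Nc (fun k => c * f k) (c * D) := by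
  refine ⟨mul_nonneg hc h.D0, ?_, ?_⟩
  · filter_upwards [h.conv] with k hk
    have := mul_le_mul_of_nonneg_left hk hc
    have e : c * (f k + f (k + 2) + D / k) = c * f k + c * f (k + 2) + c * D / k := by ring
    linarith
  · have h1 := h.inc.const_mul c
    rw [mul_zero] at h1
    refine h1.congr fun k => ?_
    ring

/-- weighted sums over polygons, weights of polynomial growth -/
theorem nc_polyP {Λ q : ℝ} {p : ℕ} (hq : 0 ≤ q) (hΛ : 0 ≤ Λ) (φ : List Dir → ℝ)
    (hφ : ∀ m : ℕ, 3 ≤ m → NiceP Λ q p m φ) : ∃ D : ℝ,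
    Nc (fun k => Real.log (mm φ (2 * k - 1)) - k * Real.log (H981.mu ^ 2)) D ∧
    ∀ᶠ k : ℕ in atTop, 0 < mm φ (2 * k - 1) := by
  obtain ⟨D, hD, h⟩ := PR.ratio (p := p) bnd hq Λ hΛ
  obtain ⟨C, hC⟩ := MOM.pmain q hq p Λ hΛ
  have hmu : 1 < H981.mu := by linarith [mu_ge]
  have hpos : ∀ᶠ k : ℕ in atTop, 0 < mm φ (2 * k - 1) := by
    filter_upwards [eventually_ge_atTop 2] with k hk
    have h1 := MOM.mm_pos (hφ (2 * k - 1) (by omega)) le_rfl (by omega)
      (F0_card_pos bnd (2 * k - 1) (by omega) (by omega))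
    exact h1
  refine ⟨D, ?_, hpos⟩
  refine nc_gen hmu hD hpos ?_ ?_
  · filter_upwards [eventually_ge_atTop 2, hpos] with k hk hp
    have h1 := h (2 * k - 1) φ (by omega) (by omega) (hφ _ (by omega))
    rw [show 2 * k - 1 + 2 = 2 * (k + 1) - 1 by omega,
      show 2 * k - 1 + 4 = 2 * (k + 2) - 1 by omega] at h1
    refine h1.trans (add_le_add le_rfl ?_)
    refine mul_le_mul_of_nonneg_right ?_ (sq_nonneg _)
    have hk0 : (0 : ℝ) < k := by exact_mod_cast (show 0 < k by omega)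
    apply div_le_div_of_nonneg_left hD hk0
    exact_mod_cast (show k ≤ 2 * k - 1 by omega)
  · have h0 : Tendsto (fun k : ℕ => C * rt (2 * k - 1)) atTop (𝓝 0) := by
      have h1 : Tendsto (fun k : ℕ => 2 * k - 1) atTop atTop :=
        tendsto_atTop_mono' _ (by
          filter_upwards [eventually_ge_atTop 1] with k hk
          show k ≤ 2 * k - 1
          omega) tendsto_id
      have h2 := (F0_rt_tendsto.comp h1).const_mul C
      rw [mul_zero] at h2
      exact h2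
    rw [tendsto_iff_norm_sub_tendsto_zero]
    refine squeeze_zero' (Eventually.of_forall fun _ => norm_nonneg _) ?_ h0
    filter_upwards [eventually_ge_atTop 2] with k hk
    have h1 := hC (2 * k - 1) φ (by omega) (by omega) (fun m hm _ _ => hφ m hm)
    rw [show 2 * k - 1 + 2 = 2 * (k + 1) - 1 by omega] at h1
    rw [Real.norm_eq_abs]
    exact h1

/-- the weight -/
noncomputable def pa (a : ℝ) (k : ℕ) (w : List Dir) : ℝ :=
  a ^ k * (ar w : ℝ) ^ k + (w.length : ℝ) ^ k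

lemma pa_nice {a : ℝ} (ha : 1 ≤ a) (k : ℕ) (hk : 1 ≤ k) (m : ℕ) (hm : 3 ≤ m) :
    NiceP (a ^ k * (3 * k * 2 ^ k * 2 ^ (k - 1) + 8 * k * 2 ^ k)) (a ^ k * (4 ^ k + 1)) (2 * k) m
      (pa a k) := by
  have hN := MOM.nice k hk m hm
  have hak : 1 ≤ a ^ k := one_le_pow₀ ha
  have hpp : ∀ w, MOM.ph k w ≤ pa a k w := by
    intro w
    unfold MOM.ph pa
    have : (0 : ℝ) ≤ (ar w : ℝ) ^ k := by positivity
    nlinarith
  refine ⟨?_, ?_, ?_⟩
  · intro w h1 h2 hs hq
    exact (hN.one_le w h1 h2 hs hq).trans (hpp w)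
  · intro w h1 h2 hs hq
    have h3 := hN.le w h1 h2 hs hq
    calc pa a k w ≤ a ^ k * MOM.ph k w := by
          unfold MOM.ph pa
          have : (0 : ℝ) ≤ (w.length : ℝ) ^ k := by positivity
          nlinarith
      _ ≤ a ^ k * ((4 ^ k + 1) * ((m : ℝ) + 5) ^ (2 * k)) := by gcongr
      _ = _ := by ring
  · intro w h1 h2 hs hq
    have h3 := hN.lip w h1 h2 hs hq
    have hl3 : (3 : ℝ) ≤ w.length := by exact_mod_cast hm.trans h1
    have hterm : ∀ p ∈ adm w, |pa a k (ins w p.1 p.2) - pa a k w| ≤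
        a ^ k * |MOM.ph k (ins w p.1 p.2) - MOM.ph k w| +
          2 * a ^ k * (2 * k * (2 * (w.length : ℝ)) ^ (k - 1)) := by
      rintro ⟨i, e⟩ hp
      have hi : i < w.length := (mem_adm.1 hp).1
      have c2 := abs_pow_sub_pow_le ((w.length : ℝ) + 2) (w.length : ℝ) k
      have c6 : |(w.length : ℝ) + 2 - w.length| = 2 := by
        rw [add_sub_cancel_left]; norm_num
      have c5 : max |(w.length : ℝ) + 2| |(w.length : ℝ)| ≤ 2 * (w.length : ℝ) := by
        rw [abs_of_nonneg (by positivity), abs_of_nonneg (by positivity)]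
        apply max_le <;> linarith
      have d2 : |((w.length : ℝ) + 2) ^ k - (w.length : ℝ) ^ k| ≤
          2 * k * (2 * (w.length : ℝ)) ^ (k - 1) := by
        refine c2.trans ?_
        rw [c6]
        gcongr
      unfold pa MOM.ph
      simp only
      rw [length_ins e hi]
      push_cast
      obtain ⟨x, hx⟩ : ∃ x : ℝ, x = (ar (ins w i e) : ℝ) ^ k - (ar w : ℝ) ^ k := ⟨_, rfl⟩
      obtain ⟨y, hy⟩ : ∃ y : ℝ, y = ((w.length : ℝ) + 2) ^ k - (w.length : ℝ) ^ k := ⟨_, rfl⟩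
      have e1 : a ^ k * (ar (ins w i e) : ℝ) ^ k + ((w.length : ℝ) + 2) ^ k -
          (a ^ k * (ar w : ℝ) ^ k + (w.length : ℝ) ^ k) = a ^ k * (x + y) + (1 - a ^ k) * y := by
        rw [hx, hy]; ring
      have e2 : (ar (ins w i e) : ℝ) ^ k + ((w.length : ℝ) + 2) ^ k -
          ((ar w : ℝ) ^ k + (w.length : ℝ) ^ k) = x + y := by
        rw [hx, hy]; ring
      rw [e1, e2]
      rw [← hy] at d2
      have hy0 := abs_nonneg y
      calc |a ^ k * (x + y) + (1 - a ^ k) * y| ≤ |a ^ k * (x + y)| + |(1 - a ^ k) * y| :=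
            abs_add_le _ _
        _ = a ^ k * |x + y| + (a ^ k - 1) * |y| := by
            rw [abs_mul, abs_mul, abs_of_nonneg (by positivity),
              abs_of_nonpos (show 1 - a ^ k ≤ 0 by linarith)]
            ring
        _ ≤ a ^ k * |x + y| + 2 * a ^ k * |y| := by
            have : (a ^ k - 1) * |y| ≤ 2 * a ^ k * |y| :=
              mul_le_mul_of_nonneg_right (by linarith) hy0
            linarith
        _ ≤ _ := by gcongr
    refine (Finset.sum_le_sum hterm).trans ?_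
    rw [Finset.sum_add_distrib, ← Finset.mul_sum, Finset.sum_const, nsmul_eq_mul]
    have h4 : ((adm w).card : ℝ) ≤ 2 * w.length := by exact_mod_cast AA_le w
    have h7 : (2 * (w.length : ℝ)) ^ k = (2 * (w.length : ℝ)) * (2 * (w.length : ℝ)) ^ (k - 1) := by
      obtain ⟨j, rfl⟩ : ∃ j, k = j + 1 := ⟨k - 1, by omega⟩
      rw [Nat.add_sub_cancel, pow_succ, mul_comm]
    have h8 : ((adm w).card : ℝ) * (2 * a ^ k * (2 * k * (2 * (w.length : ℝ)) ^ (k - 1))) ≤
        a ^ k * (8 * k * 2 ^ k) * (w.length : ℝ) ^ k := by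
      calc ((adm w).card : ℝ) * (2 * a ^ k * (2 * k * (2 * (w.length : ℝ)) ^ (k - 1)))
          ≤ (2 * w.length) * (2 * a ^ k * (2 * k * (2 * (w.length : ℝ)) ^ (k - 1))) := by gcongr
        _ = 4 * a ^ k * k * (2 * (w.length : ℝ)) ^ k := by rw [h7]; ring
        _ = a ^ k * (4 * k * 2 ^ k) * (w.length : ℝ) ^ k := by rw [mul_pow]; ring
        _ ≤ a ^ k * (8 * k * 2 ^ k) * (w.length : ℝ) ^ k := by gcongr; norm_num
    have h9 : (w.length : ℝ) ^ k ≤ pa a k w := by
      unfold pa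
      have : (0 : ℝ) ≤ a ^ k * (ar w : ℝ) ^ k := by positivity
      linarith
    calc _ ≤ a ^ k * (3 * k * 2 ^ k * 2 ^ (k - 1) * MOM.ph k w) +
          a ^ k * (8 * k * 2 ^ k) * (w.length : ℝ) ^ k := by gcongr
      _ ≤ a ^ k * (3 * k * 2 ^ k * 2 ^ (k - 1) * pa a k w) + a ^ k * (8 * k * 2 ^ k) * pa a k w := by
          gcongr
          exact hpp w
      _ = _ := by ring

lemma pa_mean (a : ℝ) (k N : ℕ) (hN : 2 ≤ N) :
    mm (pa a k) (2 * N - 1) = ((KP (2 * N - 1)).card : ℝ) *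
      (a ^ k * MOM.MK k N + (2 * N - 1) ^ k) := by
  have hcard : ((KP (2 * N - 1)).card : ℝ) ≠ 0 := (card_KP_pos hN).ne'
  have hmm : mm (pa a k) (2 * N - 1) = a ^ k * (∑ w ∈ KP (2 * N - 1), (ar w : ℝ) ^ k) +
      ((KP (2 * N - 1)).card : ℝ) * (2 * N - 1) ^ k := by
    unfold mm
    have : ∀ w ∈ KP (2 * N - 1), pa a k w = a ^ k * (ar w : ℝ) ^ k + (2 * N - 1) ^ k := by
      intro w hw
      have hl : w.length = 2 * N - 1 := (mem_SW.1 (Finset.mem_filter.1 hw).1).1
      have hl2 : w.length + 1 = 2 * N := by omega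
      unfold pa
      have h3 : (w.length : ℝ) = 2 * N - 1 := by
        have : (w.length : ℝ) + 1 = 2 * N := by exact_mod_cast hl2
        linarith
      rw [h3]
    rw [Finset.sum_congr rfl this, Finset.sum_add_distrib, Finset.sum_const, nsmul_eq_mul,
      Finset.mul_sum]
  rw [hmm, MOM.MK_eq k N hN]
  field_simp

/-- the modified normalised moment -/
noncomputable def X (a : ℝ) (k : ℕ) (n : ℕ) : ℝ :=
  (a ^ k * MOM.MK k n + (2 * n - 1) ^ k) / (a * MA n + (2 * n - 1)) ^ k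

theorem qt_X {a : ℝ} (ha : 1 ≤ a) {k : ℕ} (hk : 1 ≤ k) : Qt (X a k) := by
  obtain ⟨D, h1, h2⟩ := nc_polyP (by positivity) (by positivity) (pa a k)
    (fun m hm => pa_nice ha k hk m hm)
  obtain ⟨D', h3, h4⟩ := nc_polyP (by positivity) (by positivity) (pa a 1)
    (fun m hm => pa_nice ha 1 le_rfl m hm)
  obtain ⟨D'', h5, h6⟩ := nc_card
  refine ⟨_, _, _, _, h1.add (Nc.smul (show (0 : ℝ) ≤ (k : ℝ) - 1 by
    have : (1 : ℝ) ≤ k := by exact_mod_cast hk
    linarith) h5), Nc.smul (show (0 : ℝ) ≤ (k : ℝ) by positivity) h3, ?_⟩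
  filter_upwards [h2, h4, h6, eventually_ge_atTop 2] with n p1 p2 p3 hn
  rw [pa_mean a k n hn] at p1 ⊢
  rw [pa_mean a 1 n hn] at p2 ⊢
  rw [pow_one, pow_one] at p2 ⊢
  rw [← MOM.MA_eq n hn] at p2 ⊢
  have q1 : 0 < a ^ k * MOM.MK k n + (2 * (n : ℝ) - 1) ^ k := pos_of_mul_pos_right p1 p3.le
  have q2 : 0 < a * MA n + (2 * (n : ℝ) - 1) := pos_of_mul_pos_right p2 p3.le
  refine ⟨div_pos q1 (pow_pos q2 k), ?_⟩
  unfold X
  rw [Real.log_div q1.ne' (pow_pos q2 k).ne', Real.log_pow, Real.log_mul p3.ne' q1.ne',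
    Real.log_mul p3.ne' q2.ne']
  ring

lemma X_close {k : ℕ} (hk : 1 ≤ k) {s : ℝ} (hs : 1 < s) : ∃ a : ℝ, 1 ≤ a ∧ ∀ n : ℕ, 2 ≤ n →
    MOM.NK k n / s ≤ X a k n ∧ X a k n ≤ s * MOM.NK k n := by
  have h1 : Tendsto (fun a : ℝ => (1 + 4 / a) ^ k) atTop (𝓝 ((1 + 0) ^ k)) :=
    ((tendsto_const_nhds (x := (4 : ℝ))).div_atTop tendsto_id |>.const_add 1).pow k
  have h2 : Tendsto (fun a : ℝ => 1 + (4 / a) ^ k) atTop (𝓝 (1 + 0 ^ k)) :=
    (((tendsto_const_nhds (x := (4 : ℝ))).div_atTop tendsto_id).pow k).const_add 1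
  rw [add_zero, one_pow] at h1
  rw [zero_pow (by omega), add_zero] at h2
  obtain ⟨a, ⟨g1, g2⟩, g3⟩ := (((h1.eventually_lt_const hs).and (h2.eventually_lt_const hs)).and
    (eventually_ge_atTop (1 : ℝ))).exists
  refine ⟨a, g3, fun n hn => ?_⟩
  have hn' : (2 : ℝ) ≤ n := by exact_mod_cast hn
  have ha0 : 0 < a := by linarith
  have hA := f2a n hn
  have hA0 : 0 < MA n := by linarith
  have hK := Pool.Agent.R956.A2.one_le_NK k hn
  have hNK := MOM.NK_eq k n hn
  have hc0 : (0 : ℝ) ≤ 2 * n - 1 := by linarith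
  have hc : (2 * (n : ℝ) - 1) ≤ 4 * MA n := by linarith
  have hMK : MOM.MK k n = MOM.NK k n * MA n ^ k := by
    rw [hNK]; field_simp
  unfold X
  rw [hMK]
  constructor
  · have e1 : (a * MA n + (2 * (n : ℝ) - 1)) ^ k ≤ (1 + 4 / a) ^ k * (a * MA n) ^ k := by
      rw [← mul_pow]
      apply pow_le_pow_left₀ (by positivity)
      have : (1 + 4 / a) * (a * MA n) = a * MA n + 4 * MA n := by field_simp
      linarith
    rw [div_le_div_iff₀ (by linarith) (by positivity)]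
    calc MOM.NK k n * (a * MA n + (2 * (n : ℝ) - 1)) ^ k
        ≤ MOM.NK k n * ((1 + 4 / a) ^ k * (a * MA n) ^ k) := by gcongr
      _ ≤ MOM.NK k n * (s * (a * MA n) ^ k) := by gcongr
      _ = (a ^ k * (MOM.NK k n * MA n ^ k)) * s := by rw [mul_pow]; ring
      _ ≤ (a ^ k * (MOM.NK k n * MA n ^ k) + (2 * (n : ℝ) - 1) ^ k) * s := by
          have : 0 ≤ (2 * (n : ℝ) - 1) ^ k := by positivity
          apply mul_le_mul_of_nonneg_right _ (by linarith)
          linarith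
  · rw [div_le_iff₀ (by positivity)]
    have e2 : (2 * (n : ℝ) - 1) ^ k ≤ (4 / a) ^ k * (a * MA n) ^ k := by
      rw [← mul_pow]
      apply pow_le_pow_left₀ hc0
      have : (4 / a) * (a * MA n) = 4 * MA n := by field_simp
      linarith
    calc a ^ k * (MOM.NK k n * MA n ^ k) + (2 * (n : ℝ) - 1) ^ k
        ≤ MOM.NK k n * (a * MA n) ^ k + (4 / a) ^ k * (a * MA n) ^ k := by
          rw [mul_pow a]
          have : a ^ k * (MOM.NK k n * MA n ^ k) = MOM.NK k n * (a ^ k * MA n ^ k) := by ring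
          rw [this]
          rw [mul_pow a] at e2
          linarith
      _ ≤ MOM.NK k n * (a * MA n) ^ k + (MOM.NK k n * (4 / a) ^ k) * (a * MA n) ^ k := by
          gcongr
          exact le_mul_of_one_le_left (by positivity) hK
      _ = (1 + (4 / a) ^ k) * MOM.NK k n * (a * MA n) ^ k := by ring
      _ ≤ s * MOM.NK k n * (a * MA n) ^ k := by gcongr
      _ ≤ s * MOM.NK k n * (a * MA n + (2 * (n : ℝ) - 1)) ^ k := by
          gcongr
          linarith

/-- `P` holds for almost all `n`: the proportion of the `n` in `[N, 2 N)` without `P` tends to `0` -/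
def AE (P : ℕ → Prop) : Prop :=
  Tendsto (fun N : ℕ => (((Finset.Ico N (2 * N)).filter (fun n => ¬ P n)).card : ℝ) / N) atTop (𝓝 0)

lemma AE.mono {P Q : ℕ → Prop} (h : AE P) (hPQ : ∀ᶠ n : ℕ in atTop, P n → Q n) : AE Q := by
  unfold AE at h ⊢
  obtain ⟨N0, hN0⟩ := eventually_atTop.1 hPQ
  refine squeeze_zero' (Eventually.of_forall fun N => by positivity) ?_ h
  filter_upwards [eventually_ge_atTop N0] with N hN
  apply div_le_div_of_nonneg_right _ (Nat.cast_nonneg _)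
  refine Nat.cast_le.2 (Finset.card_le_card ?_)
  intro n hn
  rw [Finset.mem_filter] at hn ⊢
  have hn1 := Finset.mem_Ico.1 hn.1
  exact ⟨hn.1, fun hP => hn.2 (hN0 n (by omega) hP)⟩

lemma AE.and {P Q : ℕ → Prop} (h : AE P) (h' : AE Q) : AE (fun n => P n ∧ Q n) := by
  unfold AE at h h' ⊢
  have h2 := h.add h'
  rw [add_zero] at h2
  refine squeeze_zero' (Eventually.of_forall fun N => by positivity) ?_ h2
  refine Eventually.of_forall fun N => ?_
  rw [← add_div]
  apply div_le_div_of_nonneg_right _ (Nat.cast_nonneg _)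
  rw [← Nat.cast_add]
  refine Nat.cast_le.2 ((Finset.card_le_card ?_).trans (Finset.card_union_le _ _))
  intro n hn
  simp only [Finset.mem_filter] at hn
  rw [Finset.mem_union, Finset.mem_filter, Finset.mem_filter]
  by_cases hP : P n
  · exact Or.inr ⟨hn.1, fun hQ => hn.2 ⟨hP, hQ⟩⟩
  · exact Or.inl ⟨hn.1, hP⟩

lemma AE.forall_le {P : ℕ → ℕ → Prop} (h : ∀ k, AE (P k)) (K : ℕ) :
    AE (fun n => ∀ k ≤ K, P k n) := by
  induction K with
  | zero =>
    refine (h 0).mono (Eventually.of_forall fun n hn k hk => ?_)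
    obtain rfl : k = 0 := by omega
    exact hn
  | succ K ih =>
    refine (ih.and (h (K + 1))).mono (Eventually.of_forall fun n hn k hk => ?_)
    rcases Nat.lt_or_ge K k with h1 | h1
    · obtain rfl : k = K + 1 := by omega
      exact hn.2
    · exact hn.1 k h1

/-- **almost all moments** -/
theorem most_NK {S : Set ℕ} (hS : ∀ δ : ℝ, 0 < δ → Pool.Agent.R945.SJ.Gp δ S) {k : ℕ} (hk : 1 ≤ k)
    {m : ℝ} (hm1 : 1 ≤ m) (hm : Tendsto (fun n => MOM.NK k n) (atTop ⊓ 𝓟 S) (𝓝 m)) {s : ℝ}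
    (hs : 1 < s) : AE (fun n => m / s ≤ MOM.NK k n ∧ MOM.NK k n ≤ s * m) := by
  obtain ⟨t, ht⟩ : ∃ t : ℝ, t = √(√s) := ⟨_, rfl⟩
  have ht1 : 1 < t := by
    rw [ht, Real.lt_sqrt (by norm_num), one_pow, Real.lt_sqrt (by norm_num), one_pow]
    exact hs
  have ht4 : t ^ 4 = s := by
    have e : t ^ 4 = (t ^ 2) ^ 2 := by ring
    rw [e, ht, Real.sq_sqrt (Real.sqrt_nonneg _), Real.sq_sqrt (by linarith)]
  have ht0 : 0 < t := by linarith
  have hm0 : 0 < m := by linarith
  obtain ⟨a, ha, hX⟩ := X_close hk ht1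
  obtain ⟨B, hB⟩ := (qt_X ha hk).bounds 0
  have hlt : 0 < Real.log t := Real.log_pos ht1
  have hev : ∀ᶠ n : ℕ in atTop, n ∈ S → m / t ^ 2 ≤ X a k n / (n : ℝ) ^ (0 : ℝ) ∧
      X a k n / (n : ℝ) ^ (0 : ℝ) ≤ t ^ 2 * m := by
    have g1 : ∀ᶠ n in atTop ⊓ 𝓟 S, MOM.NK k n < t * m :=
      hm.eventually_lt_const (by nlinarith)
    have g2 : ∀ᶠ n in atTop ⊓ 𝓟 S, m / t < MOM.NK k n :=
      hm.eventually_const_lt (by rw [div_lt_iff₀ ht0]; nlinarith)
    have g3 := eventually_inf_principal.1 (g1.and g2)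
    filter_upwards [g3, eventually_ge_atTop 2] with n h3 hn hnS
    obtain ⟨b1, b2⟩ := h3 hnS
    obtain ⟨c1, c2⟩ := hX n hn
    rw [Real.rpow_zero, div_one]
    constructor
    · refine le_trans ?_ c1
      rw [div_le_div_iff₀ (by positivity) ht0]
      rw [div_lt_iff₀ ht0] at b2
      nlinarith
    · refine c2.trans ?_
      have := mul_le_mul_of_nonneg_left b1.le ht0.le
      nlinarith
  have hfin : AE (fun n => m / t ^ 2 / t ≤ X a k n / (n : ℝ) ^ (0 : ℝ) ∧
      X a k n / (n : ℝ) ^ (0 : ℝ) ≤ t * (t ^ 2 * m)) := by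
    unfold AE
    rw [Metric.tendsto_nhds]
    intro ε hε
    obtain ⟨δ, hδ0, hδ⟩ : ∃ δ : ℝ, 0 < δ ∧ B * δ ^ 2 / Real.log t < ε := by
      have h1 : Tendsto (fun δ : ℝ => B * δ ^ 2 / Real.log t) (𝓝[>] 0)
          (𝓝 (B * 0 ^ 2 / Real.log t)) := by
        apply Tendsto.mono_left _ nhdsWithin_le_nhds
        exact (Continuous.tendsto (by fun_prop) 0)
      rw [zero_pow two_ne_zero, mul_zero, zero_div] at h1
      obtain ⟨δ, h2, h3⟩ := ((h1.eventually_lt_const hε).and self_mem_nhdsWithin).exists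
      exact ⟨δ, h3, h2⟩
    have h1 := hB S δ (m / t ^ 2) (t ^ 2 * m) t hδ0 (hS δ hδ0) (by positivity) ht1 hev
    filter_upwards [h1, eventually_ge_atTop 1] with N h2 hN
    have hN0 : (0 : ℝ) < N := by exact_mod_cast hN
    rw [Real.dist_eq, sub_zero, abs_of_nonneg (by positivity)]
    refine lt_of_le_of_lt ?_ hδ
    rw [div_le_iff₀ hN0]
    have e : B * δ ^ 2 / Real.log t * N = B * δ ^ 2 * N / Real.log t := by ring
    rw [e]
    refine le_trans (Nat.cast_le.2 (Finset.card_le_card ?_)) h2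
    intro n hn
    simp only [Finset.mem_filter] at hn ⊢
    exact hn
  refine hfin.mono ?_
  filter_upwards [eventually_ge_atTop 2] with n hn h2
  obtain ⟨c1, c2⟩ := hX n hn
  rw [Real.rpow_zero, div_one] at h2
  obtain ⟨d1, d2⟩ := h2
  rw [← ht4]
  constructor
  · have e1 : m / t ^ 4 = (m / t ^ 2 / t) / t := by field_simp
    rw [e1, div_le_iff₀ ht0]
    linarith
  · rw [div_le_iff₀ ht0] at c1
    calc MOM.NK k n ≤ X a k n * t := c1
      _ ≤ (t * (t ^ 2 * m)) * t := by gcongr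
      _ = _ := by ring

open Pool.Agent.W387.Q.AL in
/-- moments close to those of `ν` give a law close to `ν` -/
theorem law_close {m : ℕ → ℝ} (hm1 : ∀ k, 1 ≤ m k) {ν : MeasureTheory.ProbabilityMeasure ℝ}
    (hν : ∀ ρ : MeasureTheory.ProbabilityMeasure ℝ,
      (∀ k, MeasureTheory.Integrable (fun x => x ^ k) (ρ : MeasureTheory.Measure ℝ) ∧
        ∫ x, x ^ k ∂(ρ : MeasureTheory.Measure ℝ) = m k) → ρ = ν)
    (g : BoundedContinuousFunction ℝ ℝ) {η : ℝ} (hη : 0 < η) :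
    ∃ (K : ℕ) (s : ℝ) (n0 : ℕ), 1 < s ∧ ∀ n, n0 ≤ n →
      (∀ k ≤ K, m k / s ≤ MOM.NK k n ∧ MOM.NK k n ≤ s * m k) →
      |∫ x, g x ∂(plaw n : MeasureTheory.Measure ℝ) - ∫ x, g x ∂(ν : MeasureTheory.Measure ℝ)| ≤ η := by
  by_contra hcon
  push Not at hcon
  choose N hN1 hN2 hN3 using fun j : ℕ => hcon j (1 + 1 / ((j : ℝ) + 1)) (j + 2) (by
    have : (0 : ℝ) < 1 / ((j : ℝ) + 1) := by positivity
    linarith)
  have hs : Tendsto (fun j : ℕ => 1 + 1 / ((j : ℝ) + 1)) atTop (𝓝 1) := by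
    have := tendsto_one_div_add_atTop_nhds_zero_nat (𝕜 := ℝ).const_add 1
    rwa [add_zero] at this
  have hsq := Pool.Agent.R956.A2.sq
  have hQ : Tendsto (fun j => plaw (N j)) atTop (𝓝 ν) := by
    refine Pool.Agent.R475.MM.moments (P := fun j => plaw (N j))
      ⟨fun j => hsq.nonneg (N j), fun j => hsq.mean (N j)⟩
      (fun k j => Pool.Agent.R956.A2.integrable_law _ (N j)) (m := m) (fun k => ?_) hν
    have h1 : Tendsto (fun j => MOM.NK k (N j)) atTop (𝓝 (m k)) := by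
      have g1 : Tendsto (fun j : ℕ => m k / (1 + 1 / ((j : ℝ) + 1))) atTop (𝓝 (m k)) := by
        have := (tendsto_const_nhds (x := m k)).div hs one_ne_zero
        rwa [div_one] at this
      have g2 : Tendsto (fun j : ℕ => (1 + 1 / ((j : ℝ) + 1)) * m k) atTop (𝓝 (m k)) := by
        have := hs.mul_const (m k)
        rwa [one_mul] at this
      refine tendsto_of_tendsto_of_tendsto_of_le_of_le' g1 g2 ?_ ?_
      · filter_upwards [eventually_ge_atTop k] with j hj
        exact (hN2 j k hj).1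
      · filter_upwards [eventually_ge_atTop k] with j hj
        exact (hN2 j k hj).2
    refine h1.congr fun j => ?_
    exact (Pool.Agent.R956.A2.L_pow k (by have := hN1 j; omega)).symm
  have h2 := (MeasureTheory.ProbabilityMeasure.tendsto_iff_forall_integral_tendsto.mp hQ) g
  have h3 := (h2.sub_const (∫ x, g x ∂(ν : MeasureTheory.Measure ℝ))).abs
  rw [sub_self, abs_zero] at h3
  obtain ⟨j, hj⟩ := (h3.eventually_lt_const hη).exists
  exact absurd hj (not_lt.2 (hN3 j).le)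

/-- the moments are close to the limits for almost all `n` -/
theorem most_all {S : ℕ → Set ℕ} (hS : ∀ (k : ℕ) (δ : ℝ), 0 < δ → Pool.Agent.R945.SJ.Gp δ (S k))
    {m : ℕ → ℝ} (hm : ∀ k, Tendsto (fun n => MOM.NK k n) (atTop ⊓ 𝓟 (S k)) (𝓝 (m k))) :
    (∀ k, 1 ≤ m k) ∧
    ∀ (k : ℕ) (s : ℝ), 1 < s → AE (fun n => m k / s ≤ MOM.NK k n ∧ MOM.NK k n ≤ s * m k) := by
  have hm1 : ∀ k, 1 ≤ m k := by
    intro k
    have hne := Pool.Agent.R475.AM.neBot (hS k 1 one_pos)
    refine ge_of_tendsto (hm k) (Eventually.filter_mono inf_le_left ?_)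
    filter_upwards [eventually_ge_atTop 2] with n hn
    exact Pool.Agent.R956.A2.one_le_NK k hn
  refine ⟨hm1, fun k s hs => ?_⟩
  rcases Nat.eq_zero_or_pos k with rfl | hk
  · have hne := Pool.Agent.R475.AM.neBot (hS 0 1 one_pos)
    have h2 : ∀ᶠ n : ℕ in atTop, MOM.NK 0 n = 1 := by
      filter_upwards [eventually_ge_atTop 2] with n hn
      rw [← Pool.Agent.R956.A2.L_pow 0 hn]
      simp
    have h3 : m 0 = 1 := tendsto_nhds_unique (hm 0)
      (tendsto_const_nhds.congr' ((EventuallyEq.symm h2).filter_mono inf_le_left))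
    have h4 : AE (fun _ => True) := by
      unfold AE
      simp
    refine h4.mono ?_
    filter_upwards [h2] with n h5 _
    rw [h3, h5, mul_one]
    refine ⟨?_, hs.le⟩
    rw [div_le_one (by linarith)]
    exact hs.le
  · exact most_NK (hS k) hk (hm1 k) (hm k) hs

open Pool.Agent.W387.Q.AL in
/-- **the law along almost all perimeters** -/
theorem most_law {S : ℕ → Set ℕ} (hS : ∀ (k : ℕ) (δ : ℝ), 0 < δ → Pool.Agent.R945.SJ.Gp δ (S k))
    {m : ℕ → ℝ} (hm : ∀ k, Tendsto (fun n => MOM.NK k n) (atTop ⊓ 𝓟 (S k)) (𝓝 (m k)))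
    {ν : MeasureTheory.ProbabilityMeasure ℝ}
    (hν : ∀ ρ : MeasureTheory.ProbabilityMeasure ℝ,
      (∀ k, MeasureTheory.Integrable (fun x => x ^ k) (ρ : MeasureTheory.Measure ℝ) ∧
        ∫ x, x ^ k ∂(ρ : MeasureTheory.Measure ℝ) = m k) → ρ = ν) {ε : ℝ} (hε : 0 < ε) :
    (∀ k, AE (fun n => |MOM.NK k n - m k| ≤ ε)) ∧
    ∀ g : BoundedContinuousFunction ℝ ℝ, AE (fun n =>
      |∫ x, g x ∂(plaw n : MeasureTheory.Measure ℝ) -
        ∫ x, g x ∂(ν : MeasureTheory.Measure ℝ)| ≤ ε) := by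
  obtain ⟨hm1, hall⟩ := most_all hS hm
  constructor
  · intro k
    have hmk : 0 < m k := by linarith [hm1 k]
    refine (hall k (1 + ε / m k) (by
      have : 0 < ε / m k := by positivity
      linarith)).mono (Eventually.of_forall fun n hn => ?_)
    obtain ⟨h1, h2⟩ := hn
    have e1 : (1 + ε / m k) * m k = m k + ε := by field_simp
    rw [e1] at h2
    have h3 : m k - ε ≤ m k / (1 + ε / m k) := by
      rw [le_div_iff₀ (by positivity)]
      have e2 : (m k - ε) * (1 + ε / m k) = m k - ε * ε / m k := by field_simp; ring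
      rw [e2]
      have : 0 ≤ ε * ε / m k := by positivity
      linarith
    rw [abs_le]
    constructor <;> linarith
  · intro g
    obtain ⟨K, s, n0, hs, hclose⟩ := law_close hm1 hν g hε
    refine (AE.forall_le (fun k => hall k s hs) K).mono ?_
    filter_upwards [eventually_ge_atTop n0] with n hn h1
    exact hclose n hn h1

end Pool.Agent.R475.AA
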