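import Pool.Agent.R956.K2

/-!
# Quotients of sequences with Kesten's inequality: almost all lengths
-/

set_option autoImplicit false

namespace Pool.Agent.R475.AL

open Filter Topology Finset

/-- nearly convex, with small increments -/
structure Nc (f : ℕ → ℝ) (D : ℝ) : Prop where
  D0 : 0 ≤ D
  conv : ∀ᶠ k : ℕ in atTop, 2 * f (k + 1) ≤ f k + f (k + 2) + D / k
  inc : Tendsto (fun k => f (k + 1) - f k) atTop (𝓝 0)

lemma Nc.inc1 {f : ℕ → ℝ} {D : ℝ} (h : Nc f D) : ∀ᶠ k : ℕ in atTop, |f (k + 1) - f k| ≤ 1 := by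
  have h1 := h.inc.abs
  rw [abs_zero] at h1
  filter_upwards [h1.eventually_lt_const (show (0 : ℝ) < 1 by norm_num)] with k hk
  exact hk.le

/-- the modulus of the second difference -/
def V (f : ℕ → ℝ) (k : ℕ) : ℝ := |f (k + 2) - 2 * f (k + 1) + f k|

lemma V_nonneg (f : ℕ → ℝ) (k : ℕ) : 0 ≤ V f k := abs_nonneg _

lemma V_sub (f g : ℕ → ℝ) (k : ℕ) : V (fun n => f n - g n) k ≤ V f k + V g k := by
  unfold V
  have : f (k + 2) - g (k + 2) - 2 * (f (k + 1) - g (k + 1)) + (f k - g k) =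
    (f (k + 2) - 2 * f (k + 1) + f k) - (g (k + 2) - 2 * g (k + 1) + g k) := by ring
  rw [this]
  exact abs_sub _ _

lemma tv_one {F : ℕ → ℝ} {D : ℝ} (hD : 0 ≤ D) {m : ℕ} (hm : 1 ≤ m)
    (h : ∀ k, m ≤ k → 2 * F (k + 1) ≤ F k + F (k + 2) + D / k) (n : ℕ) (hn : m ≤ n) :
    ∑ k ∈ Finset.Ico m n, V F k ≤
      (F (n + 1) - F n) - (F (m + 1) - F m) + 2 * (D / m) * ((n : ℝ) - m) := by
  induction n, hn using Nat.le_induction with
  | base => simp
  | succ n hn ih =>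
    rw [Finset.sum_Ico_succ_top hn]
    have h1 := h n hn
    have hm0 : (0 : ℝ) < m := by exact_mod_cast hm
    have hmn : (m : ℝ) ≤ n := by exact_mod_cast hn
    have h2 : D / n ≤ D / m := div_le_div_of_nonneg_left hD hm0 hmn
    have h3 : V F n ≤ (F (n + 2) - 2 * F (n + 1) + F n) + 2 * (D / m) := by
      unfold V
      rw [abs_le]
      have : 0 ≤ D / m := by positivity
      constructor <;> linarith
    push_cast
    rw [show n + 1 + 1 = n + 2 by ring]
    linarith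

/-- the second differences are summable over dyadic blocks -/
lemma tv {f : ℕ → ℝ} {D : ℝ} (h : Nc f D) :
    ∀ᶠ m : ℕ in atTop, ∑ k ∈ Finset.Ico m (6 * m), V f k ≤ 2 + 10 * D := by
  obtain ⟨N1, hN1⟩ := eventually_atTop.1 h.conv
  obtain ⟨N2, hN2⟩ := eventually_atTop.1 h.inc1
  filter_upwards [eventually_ge_atTop (N1 + N2 + 1)] with m hm
  have hm0 : (0 : ℝ) < m := by exact_mod_cast (show 0 < m by omega)
  refine (tv_one h.D0 (by omega) (fun k hk => hN1 k (by omega)) (6 * m) (by omega)).trans ?_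
  have h1 := abs_le.1 (hN2 m (by omega))
  have h2 := abs_le.1 (hN2 (6 * m) (by omega))
  push_cast
  have h3 : 2 * (D / (m : ℝ)) * (6 * m - m) = 10 * D := by
    field_simp
    ring
  rw [h3]
  linarith [h1.1, h2.2]

/-- the same for a difference -/
lemma tv_sub {f g : ℕ → ℝ} {D D' : ℝ} (hf : Nc f D) (hg : Nc g D') :
    ∃ C : ℝ, 0 < C ∧ ∀ᶠ m : ℕ in atTop,
      ∑ k ∈ Finset.Ico m (6 * m), V (fun n => f n - g n) k ≤ C := by
  have h1 := hf.D0
  have h2 := hg.D0
  refine ⟨4 + 10 * D + 10 * D', by positivity, ?_⟩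
  filter_upwards [tv hf, tv hg] with m h3 h4
  calc ∑ k ∈ Finset.Ico m (6 * m), V (fun n => f n - g n) k
      ≤ ∑ k ∈ Finset.Ico m (6 * m), (V f k + V g k) := Finset.sum_le_sum fun k _ => V_sub f g k
    _ = ∑ k ∈ Finset.Ico m (6 * m), V f k + ∑ k ∈ Finset.Ico m (6 * m), V g k :=
        Finset.sum_add_distrib
    _ ≤ _ := by linarith

/-- the slopes vary at most by the sum of the second differences -/
lemma slope_var (L : ℕ → ℝ) (a b : ℕ) (hab : a ≤ b) :
    |(L (b + 1) - L b) - (L (a + 1) - L a)| ≤ ∑ k ∈ Finset.Ico a b, V L k := by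
  induction b, hab using Nat.le_induction with
  | base => simp
  | succ b hb ih =>
    rw [Finset.sum_Ico_succ_top hb]
    have e : (L (b + 1 + 1) - L (b + 1)) - (L (a + 1) - L a) =
      ((L (b + 1) - L b) - (L (a + 1) - L a)) + (L (b + 2) - 2 * L (b + 1) + L b) := by ring
    rw [e]
    refine (abs_add_le _ _).trans ?_
    unfold V at ih ⊢
    linarith

lemma sum_slopes_ge {L : ℕ → ℝ} {a : ℕ} {σ : ℝ} (T : ℕ)
    (h : ∀ k, a ≤ k → k < a + T → σ ≤ L (k + 1) - L k) : T * σ ≤ L (a + T) - L a := by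
  induction T with
  | zero => simp
  | succ T ih =>
    have h1 := ih fun k hk hk2 => h k hk (by omega)
    have h2 := h (a + T) (by omega) (by omega)
    rw [show a + (T + 1) = a + T + 1 by ring]
    push_cast
    linarith

/-- a large slope and small oscillation give second differences -/
lemma var_of_slope {L : ℕ → ℝ} {n T : ℕ} {σ H : ℝ} (hT : H < T * (σ / 2))
    (hL : |L (n + T) - L n| ≤ H) (hs : σ < |L (n + 1) - L n|) :
    σ / 2 ≤ ∑ k ∈ Finset.Ico n (n + T), V L k := by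
  by_contra hcon
  push Not at hcon
  have hvar : ∀ k, n ≤ k → k < n + T →
      |(L (k + 1) - L k) - (L (n + 1) - L n)| < σ / 2 := by
    intro k hk hk2
    refine (slope_var L n k hk).trans_lt (lt_of_le_of_lt ?_ hcon)
    exact Finset.sum_le_sum_of_subset_of_nonneg
      (Finset.Ico_subset_Ico le_rfl (by omega)) fun _ _ _ => V_nonneg _ _
  rcases lt_abs.1 hs with h1 | h1
  · have h2 := sum_slopes_ge (L := L) (a := n) (σ := σ / 2) T fun k hk hk2 => by
      have := (abs_lt.1 (hvar k hk hk2)).1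
      linarith
    have := (abs_le.1 hL).2
    linarith
  · have h2 := sum_slopes_ge (L := fun k => - L k) (a := n) (σ := σ / 2) T fun k hk hk2 => by
      have := (abs_lt.1 (hvar k hk hk2)).2
      linarith
    have := (abs_le.1 hL).1
    linarith

/-- double counting -/
lemma count {L : ℕ → ℝ} {C c : ℝ} {m N T : ℕ} (S : Finset ℕ) (hS : S ⊆ Finset.Ico N (2 * N))
    (r : ℕ) (hr : r ≤ N) (hm : m + r ≤ N) (hT : 2 * N + T ≤ 6 * m)
    (hC : ∑ k ∈ Finset.Ico m (6 * m), V L k ≤ C)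
    (h : ∀ n ∈ S, c ≤ ∑ k ∈ Finset.Ico (n - r) (n - r + T), V L k) :
    (S.card : ℝ) * c ≤ T * C := by
  have h1 : (S.card : ℝ) * c ≤ ∑ n ∈ S, ∑ k ∈ Finset.Ico (n - r) (n - r + T), V L k := by
    rw [← nsmul_eq_mul]
    exact Finset.card_nsmul_le_sum _ _ _ h
  refine h1.trans ?_
  have h2 : ∀ n ∈ S, ∑ k ∈ Finset.Ico (n - r) (n - r + T), V L k =
      ∑ j ∈ Finset.range T, V L (n - r + j) := by
    intro n _
    rw [Finset.sum_Ico_eq_sum_range]
    congr 1
    congr 1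
    omega
  rw [Finset.sum_congr rfl h2, Finset.sum_comm]
  have h3 : ∀ j ∈ Finset.range T, ∑ n ∈ S, V L (n - r + j) ≤ C := by
    intro j hj
    rw [Finset.mem_range] at hj
    refine le_trans ?_ hC
    have h4 : ∑ n ∈ S, V L (n - r + j) = ∑ k ∈ S.image (fun n => n - r + j), V L k := by
      rw [Finset.sum_image]
      intro x hx y hy hxy
      have hx2 := Finset.mem_Ico.1 (hS hx)
      have hy2 := Finset.mem_Ico.1 (hS hy)
      simp only at hxy
      omega
    rw [h4]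
    refine Finset.sum_le_sum_of_subset_of_nonneg ?_ fun _ _ _ => V_nonneg _ _
    intro k hk
    obtain ⟨n, hn, rfl⟩ := Finset.mem_image.1 hk
    have hn2 := Finset.mem_Ico.1 (hS hn)
    rw [Finset.mem_Ico]
    omega
  calc ∑ j ∈ Finset.range T, ∑ n ∈ S, V L (n - r + j) ≤ ∑ j ∈ Finset.range T, C :=
        Finset.sum_le_sum h3
    _ = T * C := by rw [Finset.sum_const, Finset.card_range, nsmul_eq_mul]

/-- **most slopes are small** -/
theorem most_slopes {L : ℕ → ℝ} {C : ℝ} (hC0 : 0 < C)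
    (hC : ∀ᶠ m : ℕ in atTop, ∑ k ∈ Finset.Ico m (6 * m), V L k ≤ C)
    (hinc : ∀ᶠ k : ℕ in atTop, |L (k + 1) - L k| ≤ 2) {K : ℝ} (hK : 0 < K)
    (hL : ∀ᶠ k : ℕ in atTop, |L k| ≤ K * Real.log k) {m0 : ℝ} (hm0 : 0 < m0) :
    ∃ B : ℝ, ∀ᶠ N : ℕ in atTop, ∀ M : ℝ, m0 ≤ M →
      (((Finset.Ico N (2 * N)).filter
        fun n => M * √(Real.log N / N) < |L (n + 1) - L n|).card : ℝ) ≤ B * N / M ^ 2 := by
  refine ⟨C * (16 * K + 4), ?_⟩
  obtain ⟨N1, hN1⟩ := eventually_atTop.1 hinc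
  obtain ⟨N2, hN2⟩ := eventually_atTop.1 hL
  have hlogN : Tendsto (fun N : ℕ => Real.log (N : ℝ) / N) atTop (𝓝 0) :=
    Pool.Agent.R956.K1.log_over
  have e1 : ∀ᶠ N : ℕ in atTop, Real.log (N : ℝ) / N < (m0 / (32 * K + 32)) ^ 2 :=
    hlogN.eventually_lt_const (by positivity)
  filter_upwards [hC, e1, eventually_ge_atTop (N1 + N2 + 100)] with N hN he hNb M hM
  have hN0 : (0 : ℝ) < N := by exact_mod_cast (show 0 < N by omega)
  have hN100 : (100 : ℝ) ≤ N := by exact_mod_cast (show 100 ≤ N by omega)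
  have hM0 : 0 < M := by linarith
  have hlog1 : 4 ≤ Real.log N := by
    rw [Real.le_log_iff_exp_le hN0]
    have h1 : Real.exp 4 = Real.exp 1 ^ 4 := by rw [← Real.exp_nat_mul]; norm_num
    have h2 : Real.exp 1 ^ 4 ≤ 2.7182818286 ^ 4 :=
      pow_le_pow_left₀ (Real.exp_pos _).le Real.exp_one_lt_d9.le 4
    rw [h1]
    refine h2.trans (le_trans ?_ hN100)
    norm_num
  obtain ⟨l, hl⟩ : ∃ l : ℝ, l = Real.log N := ⟨_, rfl⟩
  rw [← hl] at hlog1 he ⊢
  have hl0 : 0 < l := by linarith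
  obtain ⟨q, hq⟩ : ∃ q : ℝ, q = √(l / N) := ⟨_, rfl⟩
  rw [← hq]
  have hq0 : 0 < q := by rw [hq]; exact Real.sqrt_pos.2 (by positivity)
  have hqq : q ^ 2 = l / N := by rw [hq, Real.sq_sqrt (by positivity)]
  have hq1 : q < m0 / (32 * K + 32) := by
    rw [← hqq] at he
    exact lt_of_pow_lt_pow_left₀ 2 (by positivity) he
  have hNq : N * q ^ 2 = l := by rw [hqq]; field_simp
  set S := (Finset.Ico N (2 * N)).filter fun n => M * q < |L (n + 1) - L n| with hS
  rcases le_total (M * q) 2 with hMq | hMq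
  swap
  · -- no such lengths
    have : S = ∅ := by
      rw [Finset.eq_empty_iff_forall_notMem]
      intro n hn
      rw [hS, Finset.mem_filter, Finset.mem_Ico] at hn
      have h2 := hN1 n (by omega)
      linarith [hn.2]
    rw [this]
    simp only [Finset.card_empty, Nat.cast_zero]
    positivity
  obtain ⟨σ, hσ⟩ : ∃ σ : ℝ, σ = M * q := ⟨_, rfl⟩
  rw [← hσ] at hMq hS
  have hσ0 : 0 < σ := by rw [hσ]; positivity
  obtain ⟨H, hH⟩ : ∃ H : ℝ, H = 4 * K * l := ⟨_, rfl⟩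
  have hH0 : 0 < H := by rw [hH]; positivity
  obtain ⟨T, hT⟩ : ∃ T : ℕ, T = ⌊2 * H / σ⌋₊ + 1 := ⟨_, rfl⟩
  have hT1 : 2 * H / σ < T := by rw [hT]; push_cast; exact Nat.lt_floor_add_one _
  have hT2 : (T : ℝ) ≤ 2 * H / σ + 1 := by
    rw [hT]
    push_cast
    have := Nat.floor_le (show 0 ≤ 2 * H / σ by positivity)
    linarith
  -- size of `T`
  have hTN : 2 * H / σ ≤ N / 4 := by
    rw [div_le_iff₀ hσ0, hσ, hH, ← hNq]
    have h1 : 8 * K * q ≤ m0 / 4 := by
      have h2 : 8 * K * q ≤ 8 * K * (m0 / (32 * K + 32)) := by gcongr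
      refine h2.trans ?_
      rw [mul_div_assoc', div_le_div_iff₀ (by positivity) (by norm_num)]
      nlinarith
    have h3 : 2 * (4 * K * (N * q ^ 2)) = (8 * K * q) * (N * q) := by ring
    have h4 : (N : ℝ) / 4 * (M * q) = (M / 4) * (N * q) := by ring
    rw [h3, h4]
    refine mul_le_mul_of_nonneg_right ?_ (by positivity)
    linarith
  have hTN2 : (T : ℝ) ≤ N := by linarith
  have hTN3 : T ≤ N := by exact_mod_cast hTN2
  have hosc : ∀ n ∈ S, σ / 2 ≤ ∑ k ∈ Finset.Ico (n - 0) (n - 0 + T), V L k := by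
    intro n hn
    rw [hS, Finset.mem_filter, Finset.mem_Ico] at hn
    rw [Nat.sub_zero]
    refine var_of_slope (H := H) ?_ ?_ hn.2
    · rw [div_lt_iff₀ hσ0] at hT1
      linarith
    · have b1 := hN2 (n + T) (by omega)
      have b2 := hN2 n (by omega)
      have hlg : ∀ k : ℕ, N ≤ k → k ≤ 3 * N → Real.log k ≤ 2 * l := by
        intro k hk1 hk2
        have hk0 : (0 : ℝ) < k := by exact_mod_cast (show 0 < k by omega)
        have h5 : (k : ℝ) ≤ N ^ 2 := by
          have : (k : ℝ) ≤ 3 * N := by exact_mod_cast hk2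
          nlinarith
        have h6 := Real.log_le_log hk0 h5
        rw [Real.log_pow, ← hl] at h6
        exact_mod_cast h6
      have g1 := hlg (n + T) (by omega) (by omega)
      have g2 := hlg n (by omega) (by omega)
      refine (abs_sub _ _).trans ?_
      rw [hH]
      have g3 := mul_le_mul_of_nonneg_left g1 hK.le
      have g4 := mul_le_mul_of_nonneg_left g2 hK.le
      linarith
  have hcount := count (L := L) (m := N) (N := N) (T := T) S (Finset.filter_subset _ _) 0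
    (by omega) (by omega) (by omega) hN hosc
  rw [← le_div_iff₀ (by positivity)] at hcount
  refine hcount.trans ?_
  -- the arithmetic
  have h7 : (T : ℝ) * C / (σ / 2) ≤ (2 * H / σ + 1) * C / (σ / 2) := by gcongr
  refine h7.trans ?_
  have hM2 : 0 < M ^ 2 := by positivity
  have h8 : (2 * H / σ + 1) * C / (σ / 2) = C * (4 * H / σ ^ 2 + 2 / σ) := by
    field_simp
    ring
  rw [h8]
  have h9 : 4 * H / σ ^ 2 = 16 * K * N / M ^ 2 := by
    rw [hH, hσ, mul_pow, ← hNq]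
    field_simp
    ring
  have h10 : 2 / σ ≤ 4 * N / M ^ 2 := by
    rw [div_le_div_iff₀ hσ0 hM2, hσ]
    -- `2 M² ≤ 4 N M q`
    have h11 : M * q ≤ 2 := by rw [← hσ]; exact hMq
    have h12 : M ≤ 2 * (N * q) := by
      have h13 : 1 ≤ N * q ^ 2 := by rw [hNq]; linarith
      have h14 : M * q ≤ 2 * (N * q) * q := by
        calc M * q ≤ 2 := h11
          _ ≤ 2 * (N * q ^ 2) := by linarith
          _ = _ := by ring
      exact le_of_mul_le_mul_right h14 hq0
    nlinarith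
  rw [h9]
  calc C * (16 * K * N / M ^ 2 + 2 / σ) ≤ C * (16 * K * N / M ^ 2 + 4 * N / M ^ 2) := by gcongr
    _ = C * (16 * K + 4) * N / M ^ 2 := by ring

lemma exists_slope {L : ℕ → ℝ} {a n : ℕ} {σ : ℝ} (han : a < n)
    (h : ((n : ℝ) - a) * σ ≤ L n - L a) : ∃ k, a ≤ k ∧ k < n ∧ σ ≤ L (k + 1) - L k := by
  by_contra hcon
  push Not at hcon
  -- the increments are all smaller than `σ`
  have h1 : ∀ T : ℕ, 1 ≤ T → a + T ≤ n → L (a + T) - L a < T * σ := by
    intro T hT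
    induction T, hT using Nat.le_induction with
    | base =>
      intro h2
      have := hcon a le_rfl (by omega)
      push_cast
      linarith
    | succ T hT ih =>
      intro h2
      have h3 := ih (by omega)
      have h4 := hcon (a + T) (by omega) (by omega)
      rw [show a + (T + 1) = a + T + 1 by ring]
      push_cast
      linarith
  have h2 := h1 (n - a) (by omega) (by omega)
  rw [show a + (n - a) = n by omega, Nat.cast_sub han.le] at h2
  linarith

/-- a value above the values at two near points gives second differences -/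
lemma peak {L : ℕ → ℝ} {a n b T : ℕ} {β η : ℝ} (hη : 0 < η) (hT : 0 < T) (ha : a ≤ n)
    (hb : n ≤ b) (ha2 : n ≤ a + T) (hb2 : b ≤ n + T) (la : L a ≤ β) (lb : L b ≤ β)
    (ln : β + η < L n) : 2 * η / T ≤ ∑ k ∈ Finset.Ico (n - T) (n - T + 2 * T), V L k := by
  have hT0 : (0 : ℝ) < T := by exact_mod_cast hT
  have ha3 : a < n := by
    rcases ha.lt_or_eq with h | h
    · exact h
    · rw [← h] at ln; linarith
  have hb3 : n < b := by
    rcases hb.lt_or_eq with h | h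
    · exact h
    · rw [h] at ln; linarith
  have r1 : (n : ℝ) ≤ a + T := by exact_mod_cast ha2
  have r2 : (b : ℝ) ≤ n + T := by exact_mod_cast hb2
  have hηT : 0 < η / T := by positivity
  have e : (T : ℝ) * (η / T) = η := by field_simp
  obtain ⟨k1, k11, k12, k13⟩ := exists_slope (L := L) (σ := η / T) ha3 (by
    have : ((n : ℝ) - a) * (η / T) ≤ T * (η / T) := mul_le_mul_of_nonneg_right (by linarith) hηT.le
    linarith)
  obtain ⟨k2, k21, k22, k23⟩ := exists_slope (L := fun k => - L k) (σ := η / T) hb3 (by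
    have : ((b : ℝ) - n) * (η / T) ≤ T * (η / T) := mul_le_mul_of_nonneg_right (by linarith) hηT.le
    linarith)
  have h1 := slope_var L k1 k2 (by omega)
  have h2 : ∑ k ∈ Finset.Ico k1 k2, V L k ≤
      ∑ k ∈ Finset.Ico (n - T) (n - T + 2 * T), V L k :=
    Finset.sum_le_sum_of_subset_of_nonneg (Finset.Ico_subset_Ico (by omega) (by omega))
      fun _ _ _ => V_nonneg _ _
  have h3 := neg_abs_le ((L (k2 + 1) - L k2) - (L (k1 + 1) - L k1))
  have h4 : 2 * η / T = η / T + η / T := by ring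
  rw [h4]
  linarith

lemma V_neg (L : ℕ → ℝ) (k : ℕ) : V (fun n => - L n) k = V L k := by
  unfold V
  rw [← abs_neg]
  congr 1
  ring

/-- **control on a sparse set gives control at almost all places** -/
theorem dense {L : ℕ → ℝ} {C : ℝ} (hC0 : 0 < C)
    (hC : ∀ᶠ m : ℕ in atTop, ∑ k ∈ Finset.Ico m (6 * m), V L k ≤ C) {S : Set ℕ} {δ : ℝ}
    (hδ : 0 < δ)
    (hS : ∀ᶠ n : ℕ in atTop, ∃ k ∈ S, n ≤ k ∧ (k : ℝ) ≤ n + δ * √(n : ℝ)) {α β η : ℝ}
    (hη : 0 < η) (hL : ∀ᶠ k : ℕ in atTop, k ∈ S → α ≤ L k ∧ L k ≤ β) :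
    ∀ᶠ N : ℕ in atTop, (((Finset.Ico N (2 * N)).filter
        fun n => ¬ (α - η ≤ L n ∧ L n ≤ β + η)).card : ℝ) ≤ 4 * C * δ ^ 2 * N / η := by
  classical
  obtain ⟨N1, hN1⟩ := eventually_atTop.1 hC
  obtain ⟨N2, hN2⟩ := eventually_atTop.1 hS
  obtain ⟨N3, hN3⟩ := eventually_atTop.1 hL
  have hs : Tendsto (fun N : ℕ => √(N : ℝ)) atTop atTop :=
    Real.tendsto_sqrt_atTop.comp tendsto_natCast_atTop_atTop
  filter_upwards [hs.eventually_ge_atTop (2 / δ), hs.eventually_ge_atTop (16 * δ),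
    eventually_ge_atTop (4 * N1 + 4 * N2 + 4 * N3 + 100)] with N g1 g2 hN
  have hN0 : (0 : ℝ) < N := by exact_mod_cast (show 0 < N by omega)
  have hsN : √(N : ℝ) * √(N : ℝ) = N := Real.mul_self_sqrt hN0.le
  have hs0 : 0 < √(N : ℝ) := Real.sqrt_pos.2 hN0
  obtain ⟨T, hT⟩ : ∃ T : ℕ, T = ⌊δ * (3 / 2 * √(N : ℝ))⌋₊ + 1 := ⟨_, rfl⟩
  have hT1 : δ * (3 / 2 * √(N : ℝ)) < T := by rw [hT]; push_cast; exact Nat.lt_floor_add_one _
  have hT2 : (T : ℝ) ≤ δ * (3 / 2 * √(N : ℝ)) + 1 := by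
    rw [hT]
    push_cast
    have := Nat.floor_le (show 0 ≤ δ * (3 / 2 * √(N : ℝ)) by positivity)
    linarith
  have hT3 : (T : ℝ) ≤ 2 * δ * √(N : ℝ) := by
    rw [div_le_iff₀ hδ] at g1
    linarith
  have hT4 : (T : ℝ) ≤ N / 8 := by
    calc (T : ℝ) ≤ 2 * δ * √(N : ℝ) := hT3
      _ = (16 * δ) * √(N : ℝ) / 8 := by ring
      _ ≤ √(N : ℝ) * √(N : ℝ) / 8 := by gcongr
      _ = N / 8 := by rw [hsN]
  have hT5 : 8 * T ≤ N := by
    have : (8 * T : ℝ) ≤ N := by linarith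
    exact_mod_cast this
  have hTpos : 0 < T := by omega
  have hT0 : (0 : ℝ) < T := by exact_mod_cast hTpos
  -- points of `S` near `n`
  have near : ∀ x : ℕ, N ≤ 2 * x → x ≤ 2 * N → ∃ k ∈ S, x ≤ k ∧ k ≤ x + T ∧ N3 ≤ k := by
    intro x hx1 hx2
    obtain ⟨k, hk, hk1, hk2⟩ := hN2 x (by omega)
    refine ⟨k, hk, hk1, ?_, by omega⟩
    have h3 : √(x : ℝ) ≤ 3 / 2 * √(N : ℝ) := by
      rw [Real.sqrt_le_left (by positivity), mul_pow, sq (√(N : ℝ)), hsN]
      have : (x : ℝ) ≤ 2 * N := by exact_mod_cast hx2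
      linarith
    have h4 := mul_le_mul_of_nonneg_left h3 hδ.le
    have h5 : (k : ℝ) < x + T := by linarith
    have h6 : k < x + T := by exact_mod_cast h5
    omega
  have hosc : ∀ n ∈ (Finset.Ico N (2 * N)).filter fun n => ¬ (α - η ≤ L n ∧ L n ≤ β + η),
      2 * η / T ≤ ∑ k ∈ Finset.Ico (n - T) (n - T + 2 * T), V L k := by
    intro n hn
    rw [Finset.mem_filter, Finset.mem_Ico] at hn
    obtain ⟨⟨hn1, hn2⟩, hn3⟩ := hn
    obtain ⟨a, ha, ha1, ha2, ha3⟩ := near (n - T) (by omega) (by omega)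
    obtain ⟨b, hb, hb1, hb2, hb3⟩ := near n (by omega) (by omega)
    obtain ⟨la1, la2⟩ := hN3 a ha3 ha
    obtain ⟨lb1, lb2⟩ := hN3 b hb3 hb
    rw [not_and_or, not_le, not_le] at hn3
    rcases hn3 with h | h
    · have h1 := peak (L := fun k => - L k) (a := a) (n := n) (b := b) (T := T) (β := -α) (η := η)
        hη hTpos (by omega) hb1 (by omega) hb2 (by linarith) (by linarith) (by linarith)
      simp only [V_neg] at h1
      exact h1
    · exact peak hη hTpos (by omega) hb1 (by omega) hb2 la2 lb2 h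
  have hcount := count (L := L) (C := C) (m := N / 2) (N := N) (T := 2 * T) _
    (Finset.filter_subset _ _) T (by omega) (by omega) (by omega) (hN1 (N / 2) (by omega)) hosc
  rw [← le_div_iff₀ (by positivity)] at hcount
  refine hcount.trans ?_
  push_cast
  have e1 : 2 * (T : ℝ) * C / (2 * η / T) = C * (T : ℝ) ^ 2 / η := by
    field_simp
  rw [e1]
  apply div_le_div_of_nonneg_right _ hη.le
  have h7 : (T : ℝ) ^ 2 ≤ 4 * δ ^ 2 * N := by
    calc (T : ℝ) ^ 2 ≤ (2 * δ * √(N : ℝ)) ^ 2 := pow_le_pow_left₀ hT0.le hT3 2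
      _ = 4 * δ ^ 2 * (√(N : ℝ) * √(N : ℝ)) := by ring
      _ = _ := by rw [hsN]
  calc C * (T : ℝ) ^ 2 ≤ C * (4 * δ ^ 2 * N) := by gcongr
    _ = _ := by ring

/-- near convexity of a multiple of the logarithm -/
lemma nc_log (θ : ℝ) : Nc (fun k => θ * Real.log k) |θ| := by
  refine ⟨abs_nonneg _, ?_, ?_⟩
  · filter_upwards [eventually_ge_atTop 1] with k hk
    have hk0 : (0 : ℝ) < k := by exact_mod_cast hk
    have c1 : 0 ≤ 2 * Real.log ((k + 1 : ℕ) : ℝ) - Real.log k - Real.log ((k + 2 : ℕ) : ℝ) := by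
      have h1 : Real.log ((k : ℝ) * ((k + 2 : ℕ) : ℝ)) ≤ Real.log (((k + 1 : ℕ) : ℝ) ^ 2) := by
        apply Real.log_le_log (by positivity)
        push_cast
        nlinarith
      rw [Real.log_mul hk0.ne' (by positivity), Real.log_pow] at h1
      push_cast at h1 ⊢
      linarith
    have c2 : 2 * Real.log ((k + 1 : ℕ) : ℝ) - Real.log k - Real.log ((k + 2 : ℕ) : ℝ) ≤ 1 / k := by
      have h1 : Real.log (((k + 1 : ℕ) : ℝ) ^ 2) ≤
          Real.log ((k : ℝ) * ((k + 2 : ℕ) : ℝ) * (1 + 1 / k)) := by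
        apply Real.log_le_log (by positivity)
        have : (k : ℝ) * ((k + 2 : ℕ) : ℝ) * (1 + 1 / k) = ((k : ℝ) + 2) * (k + 1) := by
          push_cast
          field_simp
        rw [this]
        push_cast
        nlinarith
      have h3 := Real.log_le_sub_one_of_pos (show (0 : ℝ) < 1 + 1 / k by positivity)
      rw [Real.log_mul (by positivity) (by positivity), Real.log_mul hk0.ne' (by positivity),
        Real.log_pow] at h1
      push_cast at h1 ⊢
      linarith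
    have h5 : θ * (2 * Real.log ((k + 1 : ℕ) : ℝ) - Real.log k - Real.log ((k + 2 : ℕ) : ℝ)) ≤
        |θ| / k := by
      calc θ * (2 * Real.log ((k + 1 : ℕ) : ℝ) - Real.log k - Real.log ((k + 2 : ℕ) : ℝ)) ≤
          |θ| * (2 * Real.log ((k + 1 : ℕ) : ℝ) - Real.log k - Real.log ((k + 2 : ℕ) : ℝ)) :=
            mul_le_mul_of_nonneg_right (le_abs_self θ) c1
        _ ≤ |θ| * (1 / k) := mul_le_mul_of_nonneg_left c2 (abs_nonneg θ)
        _ = |θ| / k := by ring
    linarith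
  · have h : Tendsto (fun k : ℕ => Real.log ((k + 1 : ℕ) : ℝ) - Real.log k) atTop (𝓝 0) := by
      have h1 : Tendsto (fun k : ℕ => (1 : ℝ) / k) atTop (𝓝 0) :=
        tendsto_const_div_atTop_nhds_zero_nat 1
      refine squeeze_zero' ?_ ?_ h1
      · filter_upwards [eventually_ge_atTop 1] with k hk
        have hk0 : (0 : ℝ) < k := by exact_mod_cast hk
        have := Real.log_le_log hk0 (show (k : ℝ) ≤ ((k + 1 : ℕ) : ℝ) by push_cast; linarith)
        linarith
      · filter_upwards [eventually_ge_atTop 1] with k hk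
        have hk0 : (0 : ℝ) < k := by exact_mod_cast hk
        rw [← Real.log_div (by positivity) hk0.ne']
        refine (Real.log_le_sub_one_of_pos (by positivity)).trans (le_of_eq ?_)
        push_cast
        field_simp
        ring
    have h2 := h.const_mul θ
    rw [mul_zero] at h2
    refine h2.congr fun k => ?_
    ring

lemma Nc.add {f g : ℕ → ℝ} {D D' : ℝ} (hf : Nc f D) (hg : Nc g D') :
    Nc (fun k => f k + g k) (D + D') := by
  refine ⟨add_nonneg hf.D0 hg.D0, ?_, ?_⟩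
  · filter_upwards [hf.conv, hg.conv] with k h1 h2
    rw [add_div]
    linarith
  · have h := hf.inc.add hg.inc
    rw [add_zero] at h
    refine h.congr fun k => ?_
    ring

/-- a quotient of two such sequences, on the logarithmic side -/
def Qt (X : ℕ → ℝ) : Prop :=
  ∃ (f g : ℕ → ℝ) (D D' : ℝ), Nc f D ∧ Nc g D' ∧ ∀ᶠ k : ℕ in atTop,
    0 < X k ∧ Real.log (X k) = f k - g k

lemma V_congr {L L' : ℕ → ℝ} (h : ∀ᶠ k : ℕ in atTop, L k = L' k) {C : ℝ}
    (hC : ∀ᶠ m : ℕ in atTop, ∑ k ∈ Finset.Ico m (6 * m), V L k ≤ C) :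
    ∀ᶠ m : ℕ in atTop, ∑ k ∈ Finset.Ico m (6 * m), V L' k ≤ C := by
  obtain ⟨N, hN⟩ := eventually_atTop.1 h
  filter_upwards [hC, eventually_ge_atTop N] with m hm hmN
  refine le_trans (le_of_eq ?_) hm
  refine Finset.sum_congr rfl fun k hk => ?_
  rw [Finset.mem_Ico] at hk
  unfold V
  rw [hN k (by omega), hN (k + 1) (by omega), hN (k + 2) (by omega)]

lemma Qt.tvθ {X : ℕ → ℝ} (h : Qt X) (θ : ℝ) : ∃ C : ℝ, 0 < C ∧ ∀ᶠ m : ℕ in atTop,
    ∑ k ∈ Finset.Ico m (6 * m), V (fun k => Real.log (X k) - θ * Real.log k) k ≤ C := by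
  obtain ⟨f, g, D, D', hf, hg, he⟩ := h
  obtain ⟨C, hC0, hC⟩ := tv_sub hf (hg.add (nc_log θ))
  refine ⟨C, hC0, V_congr ?_ hC⟩
  filter_upwards [he] with k hk
  rw [hk.2]
  ring

lemma Qt.inc {X : ℕ → ℝ} (h : Qt X) :
    Tendsto (fun k => Real.log (X (k + 1)) - Real.log (X k)) atTop (𝓝 0) := by
  obtain ⟨f, g, D, D', hf, hg, he⟩ := h
  have h1 := hf.inc.sub hg.inc
  rw [sub_zero] at h1
  refine h1.congr' ?_
  filter_upwards [he, (tendsto_add_atTop_nat 1).eventually he] with k h2 h3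
  rw [h2.2, h3.2]
  ring

/-- **most ratios are close to one** -/
theorem Qt.rate {X : ℕ → ℝ} (h : Qt X) {K : ℝ} (hK : 0 < K)
    (hL : ∀ᶠ k : ℕ in atTop, |Real.log (X k)| ≤ K * Real.log k) {m0 : ℝ} (hm0 : 0 < m0) :
    ∃ B : ℝ, ∀ᶠ N : ℕ in atTop, ∀ M : ℝ, m0 ≤ M →
      (((Finset.Ico N (2 * N)).filter
        fun n => M * √(Real.log N / N) < |X (n + 1) / X n - 1|).card : ℝ) ≤ B * N / M ^ 2 := by
  obtain ⟨C, hC0, hC⟩ := h.tvθ 0
  simp only [zero_mul, sub_zero] at hC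
  have hinc := h.inc
  have hinc1 := hinc.abs
  rw [abs_zero] at hinc1
  have h1 := hinc1.eventually_lt_const (show (0 : ℝ) < 1 by norm_num)
  obtain ⟨B, hB⟩ := most_slopes hC0 hC (by
    filter_upwards [h1] with k hk
    linarith) hK hL (half_pos hm0)
  refine ⟨4 * B, ?_⟩
  obtain ⟨f, g, D, D', hf, hg, he⟩ := h
  obtain ⟨N1, hN1⟩ := eventually_atTop.1 he
  obtain ⟨N2, hN2⟩ := eventually_atTop.1 h1
  filter_upwards [hB, eventually_ge_atTop (N1 + N2)] with N hN hNb M hM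
  have h2 := hN (M / 2) (by linarith)
  have hM0 : 0 < M := by linarith
  have e : B * N / (M / 2) ^ 2 = 4 * B * N / M ^ 2 := by
    have : M ≠ 0 := hM0.ne'
    field_simp
    ring
  rw [e] at h2
  refine le_trans ?_ h2
  refine Nat.cast_le.2 (Finset.card_le_card ?_)
  intro n hn
  rw [Finset.mem_filter] at hn ⊢
  refine ⟨hn.1, ?_⟩
  have hn1 := Finset.mem_Ico.1 hn.1
  have p0 := (hN1 n (by omega)).1
  have p1 := (hN1 (n + 1) (by omega)).1
  have h3 := hN2 n (by omega)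
  have h4 : |X (n + 1) / X n - 1| ≤ 2 * |Real.log (X (n + 1)) - Real.log (X n)| := by
    have e2 : X (n + 1) / X n = Real.exp (Real.log (X (n + 1)) - Real.log (X n)) := by
      rw [Real.exp_sub, Real.exp_log p1, Real.exp_log p0]
    rw [e2]
    exact Pool.Agent.R956.K1.exp_sub_one_le h3.le
  have h5 := hn.2
  have e3 : M / 2 * √(Real.log N / N) = (M * √(Real.log N / N)) / 2 := by ring
  rw [e3]
  linarith

/-- **bounds on a sparse set** -/
theorem Qt.bounds {X : ℕ → ℝ} (h : Qt X) (θ : ℝ) : ∃ B : ℝ, ∀ (S : Set ℕ) (δ a b M : ℝ), 0 < δ →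
    (∀ᶠ n : ℕ in atTop, ∃ k ∈ S, n ≤ k ∧ (k : ℝ) ≤ n + δ * √(n : ℝ)) → 0 < a → 1 < M →
    (∀ᶠ k : ℕ in atTop, k ∈ S → a ≤ X k / (k : ℝ) ^ θ ∧ X k / (k : ℝ) ^ θ ≤ b) →
    ∀ᶠ N : ℕ in atTop, (((Finset.Ico N (2 * N)).filter
      fun n : ℕ => ¬ (a / M ≤ X n / (n : ℝ) ^ θ ∧ X n / (n : ℝ) ^ θ ≤ M * b)).card : ℝ) ≤
      B * δ ^ 2 * N / Real.log M := by
  obtain ⟨C, hC0, hC⟩ := h.tvθ θ
  refine ⟨4 * C, fun S δ a b M hδ hS ha hM hX => ?_⟩
  obtain ⟨f, g, D, D', hf, hg, he⟩ := h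
  have hlM : 0 < Real.log M := Real.log_pos hM
  have hM0 : 0 < M := by linarith
  have key : ∀ k : ℕ, 1 ≤ k → 0 < X k → Real.log (X k) - θ * Real.log k =
      Real.log (X k / (k : ℝ) ^ θ) := fun k hk hX0 =>
    (Pool.Agent.R956.K1.log_form (y := X) hk hX0 θ).symm
  have h1 := dense hC0 hC hδ hS (α := Real.log a) (β := Real.log b) hlM (by
    filter_upwards [hX, he, eventually_ge_atTop 1] with k h2 h3 h4 h5
    obtain ⟨h6, h7⟩ := h2 h5
    rw [key k h4 h3.1]
    have hk0 : (0 : ℝ) < k := by exact_mod_cast h4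
    have h8 : 0 < X k / (k : ℝ) ^ θ := div_pos h3.1 (Real.rpow_pos_of_pos hk0 _)
    exact ⟨Real.log_le_log ha h6, Real.log_le_log h8 h7⟩)
  obtain ⟨N1, hN1⟩ := eventually_atTop.1 he
  -- `b` is positive
  have hb : 0 < b := by
    obtain ⟨N2, hN2⟩ := eventually_atTop.1 hX
    obtain ⟨n, hn1, hn2⟩ := (hS.and (eventually_ge_atTop N2)).exists
    obtain ⟨k, hk, hk1, -⟩ := hn1
    obtain ⟨g1, g2⟩ := hN2 k (by omega) hk
    linarith
  filter_upwards [h1, eventually_ge_atTop (N1 + 1)] with N hN hNb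
  refine le_trans ?_ hN
  refine Nat.cast_le.2 (Finset.card_le_card ?_)
  intro n hn
  rw [Finset.mem_filter] at hn ⊢
  refine ⟨hn.1, fun hcon => hn.2 ?_⟩
  have hn1 := Finset.mem_Ico.1 hn.1
  have p0 := (hN1 n (by omega)).1
  rw [key n (by omega) p0] at hcon
  have hk0 : (0 : ℝ) < n := by exact_mod_cast (show 0 < n by omega)
  have h8 : 0 < X n / (n : ℝ) ^ θ := div_pos p0 (Real.rpow_pos_of_pos hk0 _)
  obtain ⟨c1, c2⟩ := hcon
  rw [← Real.log_div ha.ne' hM0.ne'] at c1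
  rw [← Real.log_mul hb.ne' hM0.ne'] at c2
  refine ⟨(Real.log_le_log_iff (by positivity) h8).1 c1, ?_⟩
  have := (Real.log_le_log_iff h8 (by positivity)).1 c2
  linarith

/-- **an asymptotic form somewhere in all short intervals** -/
theorem Qt.form {X : ℕ → ℝ} (h : Qt X) {θ c : ℝ} (hc : 0 < c)
    (hX : ∀ ε δ : ℝ, 0 < ε → 0 < δ → ∀ᶠ n : ℕ in atTop, ∃ k : ℕ, |X k / (k : ℝ) ^ θ - c| ≤ ε ∧
      n ≤ k ∧ (k : ℝ) ≤ n + δ * √(n : ℝ)) (ε : ℝ) (hε : 0 < ε) :
    Tendsto (fun N : ℕ => (((Finset.Ico N (2 * N)).filter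
      fun n : ℕ => ε < |X n / (n : ℝ) ^ θ - c|).card : ℝ) / N) atTop (𝓝 0) := by
  obtain ⟨B, hB⟩ := h.bounds θ
  -- constants
  obtain ⟨M, hM⟩ : ∃ M : ℝ, M = 1 + min (ε / (4 * c)) (1 / 2) := ⟨_, rfl⟩
  have hm0 : 0 < min (ε / (4 * c)) (1 / 2) := lt_min (by positivity) (by norm_num)
  have hm1 : min (ε / (4 * c)) (1 / 2) ≤ ε / (4 * c) := min_le_left _ _
  have hm2 : min (ε / (4 * c)) (1 / 2) ≤ 1 / 2 := min_le_right _ _
  obtain ⟨t, ht⟩ : ∃ t : ℝ, t = min (ε / (4 * c)) (1 / 2) := ⟨_, rfl⟩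
  rw [← ht] at hM hm0 hm1 hm2
  have htc : t * c ≤ ε / 4 := by
    rw [le_div_iff₀ (by positivity)] at hm1
    linarith
  have hM1 : 1 < M := by linarith
  have hlM : 0 < Real.log M := Real.log_pos hM1
  obtain ⟨S, hSdef⟩ : ∃ S : Set ℕ, S = {k : ℕ | |X k / (k : ℝ) ^ θ - c| ≤ c * t} := ⟨_, rfl⟩
  have hS : ∀ δ : ℝ, 0 < δ → ∀ᶠ n : ℕ in atTop, ∃ k ∈ S, n ≤ k ∧
      (k : ℝ) ≤ n + δ * √(n : ℝ) := by
    intro δ hδ
    filter_upwards [hX (c * t) δ (by positivity) hδ] with n hn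
    obtain ⟨k, h1, h2, h3⟩ := hn
    exact ⟨k, by rw [hSdef]; exact h1, h2, h3⟩
  have hev : ∀ᶠ k : ℕ in atTop, k ∈ S → c * (1 - t) ≤ X k / (k : ℝ) ^ θ ∧
      X k / (k : ℝ) ^ θ ≤ c * (1 + t) := by
    refine Eventually.of_forall fun k hk => ?_
    rw [hSdef, Set.mem_setOf_eq, abs_le] at hk
    constructor <;> linarith [hk.1, hk.2]
  rw [Metric.tendsto_nhds]
  intro ρ hρ
  obtain ⟨δ, hδ⟩ : ∃ δ : ℝ, δ = √(ρ * Real.log M / (2 * (|B| + 1))) := ⟨_, rfl⟩
  have hδ0 : 0 < δ := by rw [hδ]; exact Real.sqrt_pos.2 (by positivity)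
  have hδ2 : δ ^ 2 = ρ * Real.log M / (2 * (|B| + 1)) := by
    rw [hδ, Real.sq_sqrt (by positivity)]
  have h1 := hB S δ (c * (1 - t)) (c * (1 + t)) M hδ0 (hS δ hδ0)
    (mul_pos hc (by linarith)) hM1 hev
  filter_upwards [h1, eventually_ge_atTop 1] with N hN hN1
  have hN0 : (0 : ℝ) < N := by exact_mod_cast hN1
  rw [dist_zero_right, Real.norm_eq_abs, abs_of_nonneg (by positivity), div_lt_iff₀ hN0]
  have hsub : (((Finset.Ico N (2 * N)).filter
      fun n : ℕ => ε < |X n / (n : ℝ) ^ θ - c|).card : ℝ) ≤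
      B * δ ^ 2 * N / Real.log M := by
    refine le_trans ?_ hN
    refine Nat.cast_le.2 (Finset.card_le_card ?_)
    intro n hn
    rw [Finset.mem_filter] at hn ⊢
    refine ⟨hn.1, fun hcon => ?_⟩
    obtain ⟨c1, c2⟩ := hcon
    have h5 : |X n / (n : ℝ) ^ θ - c| ≤ ε := by
      rw [abs_le]
      constructor
      · -- lower bound
        rw [div_le_iff₀ (by linarith)] at c1
        have hM2 : M ≤ 3 / 2 := by linarith
        -- x M ≥ c (1 - t), M = 1 + t
        have h6 : c * (1 - t) ≤ X n / (n : ℝ) ^ θ * (1 + t) := by rw [← hM]; exact c1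
        by_contra hlt
        push Not at hlt
        have h7 : X n / (n : ℝ) ^ θ * (1 + t) < (c - ε) * (1 + t) :=
          mul_lt_mul_of_pos_right (by linarith) (by linarith)
        nlinarith
      · rw [hM] at c2
        nlinarith
    linarith [hn.2]
  refine hsub.trans_lt ?_
  have h8 : B * δ ^ 2 * N / Real.log M ≤ |B| * δ ^ 2 * N / Real.log M := by
    apply div_le_div_of_nonneg_right _ hlM.le
    have : 0 ≤ δ ^ 2 * N := by positivity
    nlinarith [le_abs_self B]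
  refine h8.trans_lt ?_
  rw [hδ2]
  have h9 : |B| * (ρ * Real.log M / (2 * (|B| + 1))) * N / Real.log M =
      (|B| / (|B| + 1)) * (ρ * N / 2) := by
    field_simp
  rw [h9]
  have h10 : |B| / (|B| + 1) ≤ 1 := by
    rw [div_le_one (by positivity)]
    linarith
  have h11 : 0 < ρ * N := by positivity
  calc |B| / (|B| + 1) * (ρ * N / 2) ≤ 1 * (ρ * N / 2) := by gcongr
    _ < ρ * N := by linarith

/-- Kesten's inequality gives near convexity -/
lemma nc_of_kc {y : ℕ → ℝ} {D : ℝ} (K : Pool.Agent.R956.K1.Kc y D)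
    (hr : Tendsto (fun k => y (k + 1) / y k) atTop (𝓝 1)) :
    Nc (fun k => Real.log (y k)) D := by
  refine ⟨K.D0, K.conv, ?_⟩
  have h := (Real.continuousAt_log one_ne_zero).tendsto.comp hr
  rw [Real.log_one] at h
  refine h.congr' ?_
  filter_upwards [K.pos, (tendsto_add_atTop_nat 1).eventually K.pos] with k h1 h2
  exact Real.log_div (ne_of_gt h2) h1.ne'

end Pool.Agent.R475.AL
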