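import Pool.Agent.R945.SJ.Core
import Pool.Agent.R945.SJ.Area
import Pool.Agent.R956.A2

/-!
# Moments and law of the area of polygons along sparse sets of perimeters
-/

set_option autoImplicit false
set_option linter.unusedVariables false

namespace Pool.Agent.R475.AM

open Finset Pool.Agent.H976R2 Pool.Agent.H924P Pool.Agent.H739K Filter Topology
open Pool.Agent.R956.K1 Pool.Agent.R945.SJ
open scoped Classical

/-- weighted polygon counts, weights of polynomial growth -/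
theorem kcP {L q : ℝ} {p : ℕ} (hq : 0 ≤ q) (hL : 0 ≤ L) {φ : List Dir → ℝ}
    (hφ : ∀ m, 3 ≤ m → NiceP L q p m φ) (hφ0 : ∀ w, 0 ≤ φ w) :
    ∃ D, Kc (fun N => mm φ (2 * N - 1) / H981.mu ^ (2 * N)) D := by
  obtain ⟨D, hD, hr⟩ := PR.ratio (p := p) bnd hq L hL
  obtain ⟨C, hC⟩ := MOM.pmain q hq p L hL
  have hmu : 2.43 ≤ H981.mu := bnd.1
  have hmu0 : (0 : ℝ) < H981.mu := by linarith
  have hpos : ∀ n : ℕ, 3 ≤ n → n % 2 = 1 → 0 < mm φ n := fun n h1 h2 =>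
    (card_pos' h1 h2).trans_le (PR.card_le_mm (hφ n h1) le_rfl (by omega))
  have ev : ∀ᶠ n : ℕ in atTop, C * rt n < 1 / 2 := by
    have h := rt_tendsto.const_mul C
    rw [mul_zero] at h
    exact h.eventually_lt_const (by norm_num)
  obtain ⟨n0, hn0⟩ := eventually_atTop.1 ev
  have hstep : ∀ n : ℕ, 3 ≤ n → n0 ≤ n → n % 2 = 1 → mm φ n ≤ mm φ (n + 2) := by
    intro n h3 h0 hodd
    have h1 := hC n φ h3 hodd (fun m hm _ _ => hφ m hm)
    have h2 := hn0 n h0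
    have h4 := (abs_le.1 (h1.trans h2.le)).1
    have hp := hpos n h3 hodd
    have h5 : 1 / 2 ≤ mm φ (n + 2) / (H981.mu ^ 2 * mm φ n) := by linarith
    rw [le_div_iff₀ (by positivity)] at h5
    have h6 : (2 : ℝ) ≤ H981.mu ^ 2 := by nlinarith
    nlinarith
  refine ⟨D, ⟨?_, ?_, hD, ?_⟩⟩
  · intro N
    exact div_nonneg (Finset.sum_nonneg fun w _ => hφ0 w) (by positivity)
  · filter_upwards [eventually_ge_atTop 2] with N hN
    exact div_pos (hpos _ (by omega) (by omega)) (by positivity)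
  · filter_upwards [eventually_ge_atTop (n0 + 2)] with N hN
    obtain ⟨n, hn⟩ : ∃ n, n = 2 * N - 1 := ⟨_, rfl⟩
    have e1 : 2 * (N + 1) - 1 = n + 2 := by omega
    have e2 : 2 * (N + 2) - 1 = n + 4 := by omega
    rw [e1, e2, ← hn]
    have h3 : 3 ≤ n := by omega
    have hodd : n % 2 = 1 := by omega
    have h := hr n φ h3 hodd (hφ n h3)
    have s1 := hstep n h3 (by omega) hodd
    have s2 := hstep (n + 2) (by omega) (by omega) (by omega)
    have hp := hpos n h3 hodd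
    have hN0 : (0 : ℝ) < N := by exact_mod_cast (show 0 < N by omega)
    have hNn : (N : ℝ) ≤ n := by exact_mod_cast (show N ≤ n by omega)
    have g1 : D / n * mm φ n ^ 2 ≤ D / N * (mm φ n * mm φ (n + 4)) := by
      have a1 : D / n ≤ D / N := div_le_div_of_nonneg_left hD hN0 hNn
      have a2 : mm φ n ^ 2 ≤ mm φ n * mm φ (n + 4) := by
        rw [pow_two]
        exact mul_le_mul_of_nonneg_left (s1.trans s2) hp.le
      exact mul_le_mul a1 a2 (by positivity) (by positivity)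
    have g2 : mm φ (n + 2) ^ 2 ≤ mm φ n * mm φ (n + 4) * (1 + D / N) := by
      linarith
    have e3 : (mm φ (n + 2) / H981.mu ^ (2 * (N + 1))) ^ 2 =
        mm φ (n + 2) ^ 2 / (H981.mu ^ (2 * N) * H981.mu ^ (2 * (N + 2))) := by
      rw [div_pow, ← pow_mul, ← pow_add]; congr 2; ring
    have e4 : mm φ n / H981.mu ^ (2 * N) * (mm φ (n + 4) / H981.mu ^ (2 * (N + 2))) * (1 + D / N) =
        mm φ n * mm φ (n + 4) * (1 + D / N) / (H981.mu ^ (2 * N) * H981.mu ^ (2 * (N + 2))) := by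
      field_simp
    rw [e3, e4]
    exact div_le_div_of_nonneg_right g2 (by positivity)

theorem kc_moment {k : ℕ} (hk : 1 ≤ k) : ∃ D, ∃ y : ℕ → ℝ, Kc y D ∧
    ∀ᶠ N : ℕ in atTop, y N = u N * (MOM.MK k N + (2 * N - 1) ^ k) := by
  obtain ⟨D, K⟩ := kcP (q := 4 ^ k + 1) (p := 2 * k) (by positivity)
    (L := 3 * k * 2 ^ k * 2 ^ (k - 1)) (by positivity) (φ := MOM.ph k)
    (fun m hm => MOM.nice k hk m hm) (fun w => by unfold MOM.ph; positivity)
  refine ⟨D, _, K, ?_⟩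
  filter_upwards [eventually_ge_atTop 2] with N hN
  rw [← MOM.mean_eq k N hN, u_eq hN]
  have := card_KP_pos hN
  field_simp

lemma MA_pos' {n : ℕ} (hn : 2 ≤ n) : 0 < MA n := by
  have h := f2a n hn
  have : (2 : ℝ) ≤ n := by exact_mod_cast hn
  linarith

/-- the moments -/
theorem moment_form {S : Set ℕ} (hS : ∀ δ : ℝ, 0 < δ → Gp δ S) {k : ℕ} (hk : 1 ≤ k)
    {β θ B c m : ℝ} (hB : 0 < B) (hc : 0 < c) (hθ : 1 ≤ θ)
    (h0 : Tendsto (fun n : ℕ => u n / (n : ℝ) ^ β) atTop (𝓝 B))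
    (h1 : Tendsto (fun n : ℕ => MA n / (n : ℝ) ^ θ) atTop (𝓝 c))
    (hm : Tendsto (fun n => MOM.NK k n) (atTop ⊓ 𝓟 S) (𝓝 m)) (hm1 : 1 ≤ m) :
    Tendsto (fun n => MOM.NK k n) atTop (𝓝 m) := by
  obtain ⟨e, he, hlim⟩ := shift_lim hθ
  obtain ⟨D0, K0⟩ := kc_u
  obtain ⟨D1, y, K1, hV⟩ := kc_moment hk
  have key : ∀ᶠ n : ℕ in atTop, (MOM.MK k n + (2 * (n : ℝ) - 1) ^ k) / (n : ℝ) ^ (θ * k) =
      MOM.NK k n * (MA n / (n : ℝ) ^ θ) ^ k + ((2 * (n : ℝ) - 1) / (n : ℝ) ^ θ) ^ k := by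
    filter_upwards [eventually_ge_atTop 2] with n hn
    have hn0 : (0 : ℝ) < n := by exact_mod_cast (show 0 < n by omega)
    have hA := MA_pos' hn
    have hp : 0 < (n : ℝ) ^ θ := Real.rpow_pos_of_pos hn0 _
    rw [Real.rpow_mul_natCast hn0.le, MOM.NK_eq k n hn, div_pow, div_pow]
    field_simp
  have g1 : Tendsto (fun n : ℕ => (MOM.MK k n + (2 * (n : ℝ) - 1) ^ k) / (n : ℝ) ^ (θ * k))
      (atTop ⊓ 𝓟 S) (𝓝 (m * c ^ k + e ^ k)) := by
    refine Tendsto.congr' ((EventuallyEq.symm key).filter_mono inf_le_left) ?_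
    exact (hm.mul ((h1.mono_left inf_le_left).pow k)).add ((hlim.mono_left inf_le_left).pow k)
  obtain ⟨f0, f1, f2, f3⟩ := form K0 K1 hV hS hB (show 0 < m * c ^ k + e ^ k by positivity)
    (h0.mono_left inf_le_left) g1
  have h2 := ((f1.sub (hlim.pow k)).div (h1.pow k) (by positivity))
  have e1 : (m * c ^ k + e ^ k - e ^ k) / c ^ k = m := by
    field_simp
    ring
  rw [e1] at h2
  refine h2.congr' ?_
  filter_upwards [key, eventually_ge_atTop 2] with n h3 hn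
  simp only [Pi.div_apply, Pi.sub_apply, Pi.pow_apply]
  have hn0 : (0 : ℝ) < n := by exact_mod_cast (show 0 < n by omega)
  have hA := MA_pos' hn
  have hp : 0 < (n : ℝ) ^ θ := Real.rpow_pos_of_pos hn0 _
  rw [h3, add_sub_cancel_right]
  exact mul_div_cancel_right₀ _ (by positivity)

lemma neBot {S : Set ℕ} (hS : Gp 1 S) : (atTop ⊓ 𝓟 S).NeBot := by
  rw [← frequently_mem_iff_neBot, frequently_atTop]
  intro a
  obtain ⟨N, hN⟩ := eventually_atTop.1 hS
  obtain ⟨k, hk, h1, h2⟩ := hN (max N a) (le_max_left _ _)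
  exact ⟨k, (le_max_right _ _).trans h1, hk⟩

open Pool.Agent.W387.Q.AL in
/-- **the law** -/
theorem law_form {T : Set ℕ} {S : ℕ → Set ℕ} (hT : ∀ δ : ℝ, 0 < δ → Gp δ T)
    (hS : ∀ (k : ℕ) (δ : ℝ), 0 < δ → Gp δ (S k))
    {β θ B c : ℝ} (hB : 0 < B) (hc : 0 < c) (hθ : 1 ≤ θ)
    (h0 : Tendsto (fun n : ℕ => u n / (n : ℝ) ^ β) (atTop ⊓ 𝓟 T) (𝓝 B))
    (h1 : Tendsto (fun n : ℕ => MA n / (n : ℝ) ^ θ) (atTop ⊓ 𝓟 T) (𝓝 c)) {m : ℕ → ℝ}
    (hm : ∀ k, Tendsto (fun n => MOM.NK k n) (atTop ⊓ 𝓟 (S k)) (𝓝 (m k)))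
    {ν : MeasureTheory.ProbabilityMeasure ℝ}
    (hν : ∀ ρ : MeasureTheory.ProbabilityMeasure ℝ,
      (∀ k, MeasureTheory.Integrable (fun x => x ^ k) (ρ : MeasureTheory.Measure ℝ) ∧
        ∫ x, x ^ k ∂(ρ : MeasureTheory.Measure ℝ) = m k) → ρ = ν) :
    Tendsto (fun n : ℕ => u n / (n : ℝ) ^ β) atTop (𝓝 B) ∧
    Tendsto (fun n : ℕ => MA n / (n : ℝ) ^ θ) atTop (𝓝 c) ∧
    (∀ k, Tendsto (fun n => MOM.NK k n) atTop (𝓝 (m k))) ∧ Tendsto plaw atTop (𝓝 ν) := by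
  obtain ⟨D0, K0⟩ := kc_u
  obtain ⟨D1, y, K1, hV⟩ := kc_area
  obtain ⟨a0, a1, -, -⟩ := area_form K0 K1 (A := MA) f2a hV hT hB hc hθ h0 h1
  have hall : ∀ k, Tendsto (fun n => MOM.NK k n) atTop (𝓝 (m k)) := by
    intro k
    have hne := neBot (hS k 1 one_pos)
    have hm1 : 1 ≤ m k := by
      refine ge_of_tendsto (hm k) (Eventually.filter_mono inf_le_left ?_)
      filter_upwards [eventually_ge_atTop 2] with n hn
      exact Pool.Agent.R956.A2.one_le_NK k hn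
    rcases Nat.eq_zero_or_pos k with rfl | hk
    · have h2 : ∀ᶠ n : ℕ in atTop, MOM.NK 0 n = 1 := by
        filter_upwards [eventually_ge_atTop 2] with n hn
        rw [← Pool.Agent.R956.A2.L_pow 0 hn]
        simp
      have h3 : m 0 = 1 := tendsto_nhds_unique (hm 0)
        (tendsto_const_nhds.congr' ((EventuallyEq.symm h2).filter_mono inf_le_left))
      rw [h3]
      exact tendsto_const_nhds.congr' (EventuallyEq.symm h2)
    · exact moment_form (hS k) hk hB hc hθ a0 a1 (hm k) hm1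
  refine ⟨a0, a1, hall, ?_⟩
  refine Pool.Agent.R956.A1.moments Pool.Agent.R956.A2.sq
    (fun k n => Pool.Agent.R956.A2.integrable_law _ n) (m := m) (fun k => ?_) hν
  refine (hall k).congr' ?_
  filter_upwards [eventually_ge_atTop 2] with n hn
  exact (Pool.Agent.R956.A2.L_pow k hn).symm

end Pool.Agent.R475.AM
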