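import Pool.Agent.R956.K2
import Pool.Agent.H739K.All1

/-!
# Self-avoiding polygons on the square lattice: Kesten's inequality and sparse perimeters
-/

set_option autoImplicit false

namespace Pool.Agent.R475.SP

open Filter Topology Pool.Agent.H976R2 Pool.Agent.H924P Pool.Agent.H739K
open Pool.Agent.R956.K1

/-- normalised numbers of polygons -/
noncomputable def y (k : ℕ) : ℝ := H981.PP k / H981.mu ^ (2 * k)

lemma y_nonneg (k : ℕ) : 0 ≤ y k := by
  unfold y H981.PP
  have := H981.mu_pos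
  positivity

lemma y_pos {k : ℕ} (hk : 2 ≤ k) : 0 < y k := by
  have h1 := Pool.Agent.H739K.PP_pos hk
  have h2 := H981.mu_pos
  unfold y
  positivity

/-- the counts increase -/
lemma inc : ∀ᶠ N : ℕ in atTop, H981.PP N ≤ H981.PP (N + 1) := by
  obtain ⟨C, hC⟩ := f1
  have h0 : Tendsto (fun m : ℕ => rN m) atTop (𝓝 0) := by
    have := pow_mul_rN (β := 0) (by norm_num)
    simpa using this
  have h1 : Tendsto (fun m : ℕ => C * rN m) atTop (𝓝 0) := by
    simpa using h0.const_mul C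
  have hmu := mu_ge
  filter_upwards [h1.eventually_lt_const (show (0 : ℝ) < 1 by norm_num), eventually_ge_atTop 2]
    with N hN hN2
  have h2 := hC N hN2
  have h3 := (abs_le.1 (h2.trans hN.le)).1
  have hp := Pool.Agent.H739K.PP_pos hN2
  have h4 : 1 ≤ H981.PP (N + 1) / H981.PP N := by nlinarith
  rwa [one_le_div hp] at h4

theorem kc : ∃ D, Kc y D := by
  obtain ⟨D, hD, h⟩ := RATIO_proof bnd 0 le_rfl
  refine ⟨D, y_nonneg, ?_, hD, ?_⟩
  · filter_upwards [eventually_ge_atTop 2] with k hk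
    exact y_pos hk
  have e2 : ∀ n, mm (fun _ => 1) n = ((KP n).card : ℝ) := by
    intro n
    unfold mm
    simp
  have hmu := H981.mu_pos
  filter_upwards [inc, (tendsto_add_atTop_nat 1).eventually inc, eventually_ge_atTop 2]
    with N i0 i1 hN
  have hr := h (2 * N - 1) (fun _ => 1) (by omega) (by omega) (nice_one _)
  rw [e2, e2, e2, show 2 * N - 1 + 2 = 2 * (N + 1) - 1 by omega,
    show 2 * N - 1 + 4 = 2 * (N + 2) - 1 by omega, card_KP_eq CONV_proof hN,
    card_KP_eq CONV_proof (by omega : 2 ≤ N + 1), card_KP_eq CONV_proof (by omega : 2 ≤ N + 2)] at hr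
  have p0 := Pool.Agent.H739K.PP_pos hN
  have p1 := Pool.Agent.H739K.PP_pos (show 2 ≤ N + 1 by omega)
  have p2 := Pool.Agent.H739K.PP_pos (show 2 ≤ N + 2 by omega)
  have i1' : H981.PP (N + 1) ≤ H981.PP (N + 2) := i1
  have hN0 : (2 : ℝ) ≤ N := by exact_mod_cast hN
  have hN1 : (0 : ℝ) < N := by linarith
  have hc : ((2 * N - 1 : ℕ) : ℝ) = 2 * N - 1 := by
    rw [Nat.cast_sub (by omega)]
    push_cast
    ring
  rw [hc] at hr
  have hDN : D / (2 * (N : ℝ) - 1) ≤ D / N := div_le_div_of_nonneg_left hD hN1 (by linarith)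
  set a := H981.PP N with ha
  set b := H981.PP (N + 1) with hb
  set c := H981.PP (N + 2) with hcc
  push_cast at hr
  have hDN0 : 0 ≤ D / (N : ℝ) := by positivity
  -- the inequality for the counts of rooted polygons
  have h1 : (4 * ((N : ℝ) + 1) * b) ^ 2 ≤
      (4 * (N : ℝ) * a) * (4 * ((N : ℝ) + 2) * c) * (1 + D / N) := by
    have g1 : D / (2 * (N : ℝ) - 1) * (4 * (N : ℝ) * a) ^ 2 ≤
        D / N * ((4 * (N : ℝ) * a) * (4 * ((N : ℝ) + 2) * c)) := by
      refine mul_le_mul hDN ?_ (by positivity) hDN0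
      rw [pow_two]
      refine mul_le_mul_of_nonneg_left ?_ (by positivity)
      have g2 : a ≤ c := i0.trans i1'
      exact mul_le_mul (by linarith) g2 p0.le (by positivity)
    calc _ ≤ _ := hr
      _ ≤ (4 * (N : ℝ) * a) * (4 * ((N : ℝ) + 2) * c) +
          D / N * ((4 * (N : ℝ) * a) * (4 * ((N : ℝ) + 2) * c)) := by linarith
      _ = _ := by ring
  have h2 : b ^ 2 ≤ a * c * (1 + D / N) := by
    have g0 : 0 ≤ a * c * (1 + D / N) := by positivity
    have g1 : (16 * ((N : ℝ) + 1) ^ 2) * b ^ 2 ≤ (16 * ((N : ℝ) + 1) ^ 2) * (a * c * (1 + D / N)) := by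
      calc (16 * ((N : ℝ) + 1) ^ 2) * b ^ 2 = (4 * ((N : ℝ) + 1) * b) ^ 2 := by ring
        _ ≤ _ := h1
        _ = (16 * ((N : ℝ) * (N + 2))) * (a * c * (1 + D / N)) := by ring
        _ ≤ _ := by
          refine mul_le_mul_of_nonneg_right ?_ g0
          nlinarith
    exact le_of_mul_le_mul_left g1 (by positivity)
  unfold y
  rw [← ha, ← hb, ← hcc]
  have q0 : (0 : ℝ) < H981.mu ^ (2 * N) := by positivity
  have q1 : H981.mu ^ (2 * (N + 1)) = H981.mu ^ (2 * N) * H981.mu ^ 2 := by rw [← pow_add]; ring_nf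
  have q2 : H981.mu ^ (2 * (N + 2)) = H981.mu ^ (2 * N) * H981.mu ^ 4 := by rw [← pow_add]; ring_nf
  rw [q1, q2, div_pow, div_mul_div_comm, div_mul_eq_mul_div]
  have q3 : (H981.mu ^ (2 * N) * H981.mu ^ 2) ^ 2 =
      H981.mu ^ (2 * N) * (H981.mu ^ (2 * N) * H981.mu ^ 4) := by ring
  rw [q3]
  exact div_le_div_of_nonneg_right h2 (by positivity)

lemma shape (θ : ℝ) {k : ℕ} (hk : 1 ≤ k) :
    y k / (k : ℝ) ^ (-θ) = H981.PP k * (k : ℝ) ^ θ / H981.mu ^ (2 * k) := by
  have hk0 : (0 : ℝ) < k := by exact_mod_cast hk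
  rw [Real.rpow_neg hk0.le]
  unfold y
  field_simp

lemma ratio {k : ℕ} (hk : 2 ≤ k) :
    H981.PP (k + 1) / H981.PP k - H981.mu ^ 2 = H981.mu ^ 2 * (y (k + 1) / y k - 1) := by
  have h1 := (Pool.Agent.H739K.PP_pos hk).ne'
  have h2 := H981.mu_pos.ne'
  unfold y
  rw [show 2 * (k + 1) = 2 * k + 2 by ring, pow_add]
  field_simp

theorem form {S : Set ℕ}
    (hS : ∀ δ : ℝ, 0 < δ → ∀ᶠ n : ℕ in atTop, ∃ k ∈ S, n ≤ k ∧ (k : ℝ) ≤ n + δ * √(n : ℝ))
    {θ A : ℝ} (hA : 0 < A)
    (h : Tendsto (fun k : ℕ => H981.PP k * (k : ℝ) ^ θ / H981.mu ^ (2 * k)) (atTop ⊓ 𝓟 S) (𝓝 A)) :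
    Tendsto (fun k : ℕ => H981.PP k * (k : ℝ) ^ θ / H981.mu ^ (2 * k)) atTop (𝓝 A) ∧
    Tendsto (fun k : ℕ => (H981.PP (k + 1) / H981.PP k - H981.mu ^ 2) * √(k : ℝ)) atTop (𝓝 0) := by
  obtain ⟨D, K⟩ := kc
  have h1 : Tendsto (fun k : ℕ => y k / (k : ℝ) ^ (-θ)) (atTop ⊓ 𝓟 S) (𝓝 A) := by
    refine h.congr' ?_
    have : ∀ᶠ k : ℕ in atTop, 1 ≤ k := eventually_ge_atTop 1
    filter_upwards [this.filter_mono inf_le_left] with k hk
    rw [shape θ hk]
  have h2 := K.form hS hA h1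
  refine ⟨?_, ?_⟩
  · refine h2.congr' ?_
    filter_upwards [eventually_ge_atTop 1] with k hk
    rw [shape θ hk]
  · have h3 := (K.ratio_form hA h2).const_mul (H981.mu ^ 2)
    rw [mul_zero] at h3
    refine h3.congr' ?_
    filter_upwards [eventually_ge_atTop 2] with k hk
    rw [ratio hk]
    ring

theorem bounds {S : Set ℕ} {δ : ℝ} (hδ : 0 < δ)
    (hS : ∀ᶠ n : ℕ in atTop, ∃ k ∈ S, n ≤ k ∧ (k : ℝ) ≤ n + δ * √(n : ℝ))
    {θ A B : ℝ} (hA : 0 < A)
    (h : ∀ᶠ k : ℕ in atTop, k ∈ S → A ≤ H981.PP k * (k : ℝ) ^ θ / H981.mu ^ (2 * k) ∧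
      H981.PP k * (k : ℝ) ^ θ / H981.mu ^ (2 * k) ≤ B) :
    ∃ A' B' : ℝ, 0 < A' ∧ 0 < B' ∧ ∀ᶠ k : ℕ in atTop,
      A' ≤ H981.PP k * (k : ℝ) ^ θ / H981.mu ^ (2 * k) ∧
      H981.PP k * (k : ℝ) ^ θ / H981.mu ^ (2 * k) ≤ B' := by
  obtain ⟨D, K⟩ := kc
  obtain ⟨A', B', hA', hB', h2⟩ := K.bounds hδ hS (a := -θ) (A := A) (B := B) hA (by
    filter_upwards [h, eventually_ge_atTop 1] with k hk hk1
    rw [shape θ hk1]
    exact hk)
  refine ⟨A', B', hA', hB', ?_⟩
  filter_upwards [h2, eventually_ge_atTop 1] with k hk hk1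
  rw [shape θ hk1] at hk
  exact hk

theorem expo {S : Set ℕ}
    (hS : ∀ δ : ℝ, 0 < δ → ∀ᶠ n : ℕ in atTop, ∃ k ∈ S, n ≤ k ∧
      (k : ℝ) ≤ n + δ * √(n * Real.log n)) {a : ℝ}
    (h : Tendsto (fun k : ℕ => Real.log (H981.PP k / H981.mu ^ (2 * k)) / Real.log k)
      (atTop ⊓ 𝓟 S) (𝓝 a)) :
    Tendsto (fun k : ℕ => Real.log (H981.PP k / H981.mu ^ (2 * k)) / Real.log k) atTop (𝓝 a) ∧
    Tendsto (fun k : ℕ => (H981.PP (k + 1) / H981.PP k - H981.mu ^ 2) *
      √((k : ℝ) / Real.log k)) atTop (𝓝 0) := by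
  obtain ⟨D, K⟩ := kc
  have h2 : Tendsto (fun k : ℕ => Real.log (y k) / Real.log k) atTop (𝓝 a) := K.expo hS h
  refine ⟨h2, ?_⟩
  have h3 := (K.ratio_expo h2).const_mul (H981.mu ^ 2)
  rw [mul_zero] at h3
  refine h3.congr' ?_
  filter_upwards [eventually_ge_atTop 2] with k hk
  rw [ratio hk]
  ring

/-- the average of `u` over the numbers between `n` and `n + δ √n` -/
noncomputable def avg (u : ℕ → ℝ) (δ : ℝ) (n : ℕ) : ℝ :=
  (∑ j ∈ Finset.range (⌊δ * √(n : ℝ)⌋₊ + 1), u (n + j)) / ((⌊δ * √(n : ℝ)⌋₊ : ℝ) + 1)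

lemma avg_le {u : ℕ → ℝ} {δ : ℝ} {n : ℕ} {b : ℝ}
    (h : ∀ j, j ≤ ⌊δ * √(n : ℝ)⌋₊ → u (n + j) ≤ b) : avg u δ n ≤ b := by
  unfold avg
  rw [div_le_iff₀ (by positivity)]
  have h1 := Finset.sum_le_card_nsmul (Finset.range (⌊δ * √(n : ℝ)⌋₊ + 1)) (fun j => u (n + j)) b
    (fun j hj => h j (by rw [Finset.mem_range] at hj; omega))
  rw [Finset.card_range, nsmul_eq_mul] at h1
  push_cast at h1
  linarith

lemma le_avg {u : ℕ → ℝ} {δ : ℝ} {n : ℕ} {b : ℝ}
    (h : ∀ j, j ≤ ⌊δ * √(n : ℝ)⌋₊ → b ≤ u (n + j)) : b ≤ avg u δ n := by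
  unfold avg
  rw [le_div_iff₀ (by positivity)]
  have h1 := Finset.card_nsmul_le_sum (Finset.range (⌊δ * √(n : ℝ)⌋₊ + 1)) (fun j => u (n + j)) b
    (fun j hj => h j (by rw [Finset.mem_range] at hj; omega))
  rw [Finset.card_range, nsmul_eq_mul] at h1
  push_cast at h1
  linarith

lemma avg_tend {u : ℕ → ℝ} {A : ℝ} (δ : ℝ) (h : Tendsto u atTop (𝓝 A)) :
    Tendsto (avg u δ) atTop (𝓝 A) := by
  rw [Metric.tendsto_atTop] at h ⊢
  intro ε hε
  obtain ⟨N, hN⟩ := h (ε / 2) (by positivity)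
  refine ⟨N, fun n hn => ?_⟩
  have h1 : avg u δ n ≤ A + ε / 2 := avg_le fun j _ => by
    have := hN (n + j) (by omega)
    rw [Real.dist_eq, abs_lt] at this
    linarith [this.2]
  have h2 : A - ε / 2 ≤ avg u δ n := le_avg fun j _ => by
    have := hN (n + j) (by omega)
    rw [Real.dist_eq, abs_lt] at this
    linarith [this.1]
  rw [Real.dist_eq, abs_lt]
  constructor <;> linarith

/-- if the averages are near `A` then so is some value -/
lemma meets {u : ℕ → ℝ} (hpos : ∀ᶠ k in atTop, 0 < u k)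
    (hr : Tendsto (fun k => u (k + 1) / u k) atTop (𝓝 1)) {A ε δ : ℝ} (hA : 0 < A) (hε : 0 < ε)
    (hδ : 0 < δ) (h : Tendsto (avg u δ) atTop (𝓝 A)) :
    ∀ᶠ n : ℕ in atTop, ∃ k ∈ {k | |u k - A| ≤ ε}, n ≤ k ∧ (k : ℝ) ≤ n + δ * √(n : ℝ) := by
  obtain ⟨N1, hN1⟩ := eventually_atTop.1 hpos
  obtain ⟨N2, hN2⟩ := Metric.tendsto_atTop.1 hr (ε / (A + ε)) (by positivity)
  obtain ⟨N3, hN3⟩ := Metric.tendsto_atTop.1 h ε hε
  filter_upwards [eventually_ge_atTop (N1 + N2 + N3)] with n hn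
  by_contra hcon
  push Not at hcon
  have hT : ∀ j, j ≤ ⌊δ * √(n : ℝ)⌋₊ → ε < |u (n + j) - A| := by
    intro j hj
    by_contra hj2
    push Not at hj2
    have h1 := hcon (n + j) hj2 (by omega)
    have h2 : (j : ℝ) ≤ δ * √(n : ℝ) :=
      (Nat.cast_le.2 hj).trans (Nat.floor_le (by positivity))
    push_cast at h1
    linarith
  have hrat : ∀ k, n ≤ k → u k * (A / (A + ε)) ≤ u (k + 1) ∧
      u (k + 1) ≤ u k * ((A + 2 * ε) / (A + ε)) := by
    intro k hk
    have p0 := hN1 k (by omega)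
    have h2 := hN2 k (by omega)
    rw [Real.dist_eq, abs_lt] at h2
    obtain ⟨h3, h4⟩ := h2
    have e1 : A / (A + ε) = 1 - ε / (A + ε) := by field_simp; ring
    have e2 : (A + 2 * ε) / (A + ε) = 1 + ε / (A + ε) := by field_simp; ring
    have h5 : u (k + 1) = u k * (u (k + 1) / u k) := by field_simp
    constructor
    · rw [h5, e1]
      exact mul_le_mul_of_nonneg_left (by linarith) p0.le
    · rw [h5, e2]
      exact mul_le_mul_of_nonneg_left (by linarith) p0.le
  have h3 := hN3 n (by omega)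
  rw [Real.dist_eq, abs_lt] at h3
  rcases lt_abs.1 (hT 0 (by omega)) with h0 | h0
  · -- all values are large
    have hall : ∀ j, j ≤ ⌊δ * √(n : ℝ)⌋₊ → A + ε < u (n + j) := by
      intro j
      induction j with
      | zero => intro _; linarith
      | succ j ih =>
        intro hj
        have h4 := ih (by omega)
        have h5 := (hrat (n + j) (by omega)).1
        have h6 : A < u (n + j) * (A / (A + ε)) := by
          rw [mul_div_assoc', lt_div_iff₀ (by positivity)]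
          nlinarith
        rcases lt_abs.1 (hT (j + 1) hj) with h7 | h7
        · linarith
        · rw [show n + (j + 1) = n + j + 1 by ring] at h7
          linarith
    have h4 := le_avg (fun j hj => (hall j hj).le)
    linarith [h3.2]
  · have hall : ∀ j, j ≤ ⌊δ * √(n : ℝ)⌋₊ → u (n + j) < A - ε := by
      intro j
      induction j with
      | zero => intro _; linarith
      | succ j ih =>
        intro hj
        have h4 := ih (by omega)
        have p0 := hN1 (n + j) (by omega)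
        have h5 := (hrat (n + j) (by omega)).2
        have h6 : u (n + j) * ((A + 2 * ε) / (A + ε)) < A + ε := by
          rw [mul_div_assoc', div_lt_iff₀ (by positivity)]
          nlinarith
        rcases lt_abs.1 (hT (j + 1) hj) with h7 | h7
        · rw [show n + (j + 1) = n + j + 1 by ring] at h7
          linarith
        · linarith
    have h4 := avg_le (fun j hj => (hall j hj).le)
    linarith [h3.1]

/-- the ratios tend to one -/
lemma y_ratio : Tendsto (fun k => y (k + 1) / y k) atTop (𝓝 1) := by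
  obtain ⟨C, hC⟩ := f1
  have h0 : Tendsto (fun m : ℕ => rN m) atTop (𝓝 0) := by
    have := pow_mul_rN (β := 0) (by norm_num)
    simpa using this
  have h1 : Tendsto (fun m : ℕ => C * rN m) atTop (𝓝 0) := by
    simpa using h0.const_mul C
  have hmu := H981.mu_pos
  have h2 : Tendsto (fun k : ℕ => H981.PP (k + 1) / H981.PP k - H981.mu ^ 2) atTop (𝓝 0) := by
    refine squeeze_zero_norm' ?_ h1
    filter_upwards [eventually_ge_atTop 2] with k hk
    exact hC k hk
  have h3 := (h2.div_const (H981.mu ^ 2)).add_const 1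
  rw [zero_div, zero_add] at h3
  refine h3.congr' ?_
  filter_upwards [eventually_ge_atTop 2] with k hk
  rw [ratio hk]
  field_simp
  ring

/-- the renormalised counts -/
noncomputable def u (θ : ℝ) (k : ℕ) : ℝ := H981.PP k * (k : ℝ) ^ θ / H981.mu ^ (2 * k)

lemma u_eq (θ : ℝ) {k : ℕ} (hk : 1 ≤ k) : y k / (k : ℝ) ^ (-θ) = u θ k := shape θ hk

lemma u_pos (θ : ℝ) : ∀ᶠ k in atTop, 0 < u θ k := by
  filter_upwards [eventually_ge_atTop 2] with k hk
  rw [← u_eq θ (show 1 ≤ k by omega)]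
  have hk0 : (0 : ℝ) < k := by exact_mod_cast (show 0 < k by omega)
  exact div_pos (y_pos hk) (Real.rpow_pos_of_pos hk0 _)

lemma u_ratio (θ : ℝ) : Tendsto (fun k => u θ (k + 1) / u θ k) atTop (𝓝 1) := by
  have h1 : Tendsto (fun k : ℕ => (((k + 1 : ℕ) : ℝ) / k) ^ θ) atTop (𝓝 1) := by
    have h2 : Tendsto (fun k : ℕ => ((k + 1 : ℕ) : ℝ) / k) atTop (𝓝 1) := by
      have h3 : Tendsto (fun n : ℕ => (1 : ℝ) + 1 / n) atTop (𝓝 (1 + 0)) :=
        (tendsto_const_div_atTop_nhds_zero_nat (1 : ℝ)).const_add 1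
      rw [add_zero] at h3
      refine h3.congr' ?_
      filter_upwards [eventually_gt_atTop 0] with n hn
      have : (n : ℝ) ≠ 0 := by exact_mod_cast (show n ≠ 0 by omega)
      push_cast
      field_simp
    have h4 := h2.rpow_const (p := θ) (Or.inl one_ne_zero)
    rwa [Real.one_rpow] at h4
  have h5 := y_ratio.mul h1
  rw [one_mul] at h5
  refine h5.congr' ?_
  filter_upwards [eventually_ge_atTop 2] with k hk
  have hk0 : (0 : ℝ) < k := by exact_mod_cast (show 0 < k by omega)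
  have hk1 : (0 : ℝ) < ((k + 1 : ℕ) : ℝ) := by positivity
  rw [← u_eq θ (show 1 ≤ k by omega), ← u_eq θ (show 1 ≤ k + 1 by omega),
    Real.div_rpow hk1.le hk0.le, Real.rpow_neg hk0.le, Real.rpow_neg hk1.le]
  have a1 := Real.rpow_pos_of_pos hk0 θ
  have a2 := Real.rpow_pos_of_pos hk1 θ
  have a3 := y_pos hk
  field_simp

/-- if the averages are between `a` and `b` then some value is between `a / 2` and `2 b` -/
lemma meets2 {u : ℕ → ℝ} (hpos : ∀ᶠ k in atTop, 0 < u k)
    (hr : Tendsto (fun k => u (k + 1) / u k) atTop (𝓝 1)) {a b δ : ℝ} (ha : 0 < a)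
    (hδ : 0 < δ) (h : ∀ᶠ n : ℕ in atTop, a ≤ avg u δ n ∧ avg u δ n ≤ b) :
    ∀ᶠ n : ℕ in atTop, ∃ k ∈ {k | a / 2 ≤ u k ∧ u k ≤ 2 * b}, n ≤ k ∧
      (k : ℝ) ≤ n + δ * √(n : ℝ) := by
  obtain ⟨N1, hN1⟩ := eventually_atTop.1 hpos
  obtain ⟨N2, hN2⟩ := Metric.tendsto_atTop.1 hr (1 / 2) (by positivity)
  obtain ⟨N3, hN3⟩ := eventually_atTop.1 h
  filter_upwards [eventually_ge_atTop (N1 + N2 + N3)] with n hn
  by_contra hcon
  push Not at hcon
  obtain ⟨g1, g2⟩ := hN3 n (by omega)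
  have hab : a ≤ b := g1.trans g2
  have hT : ∀ j, j ≤ ⌊δ * √(n : ℝ)⌋₊ → u (n + j) < a / 2 ∨ 2 * b < u (n + j) := by
    intro j hj
    by_contra hj2
    push Not at hj2
    have h1 := hcon (n + j) hj2 (by omega)
    have h2 : (j : ℝ) ≤ δ * √(n : ℝ) :=
      (Nat.cast_le.2 hj).trans (Nat.floor_le (by positivity))
    push_cast at h1
    linarith
  have hrat : ∀ k, n ≤ k → u k * (1 / 2) ≤ u (k + 1) ∧ u (k + 1) ≤ u k * (3 / 2) := by
    intro k hk
    have p0 := hN1 k (by omega)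
    have h2 := hN2 k (by omega)
    rw [Real.dist_eq, abs_lt] at h2
    obtain ⟨h3, h4⟩ := h2
    have h5 : u (k + 1) = u k * (u (k + 1) / u k) := by field_simp
    constructor
    · rw [h5]
      exact mul_le_mul_of_nonneg_left (by linarith) p0.le
    · rw [h5]
      exact mul_le_mul_of_nonneg_left (by linarith) p0.le
  rcases hT 0 (by omega) with h0 | h0
  · have hall : ∀ j, j ≤ ⌊δ * √(n : ℝ)⌋₊ → u (n + j) < a / 2 := by
      intro j
      induction j with
      | zero => intro _; exact h0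
      | succ j ih =>
        intro hj
        have h4 := ih (by omega)
        have h5 := (hrat (n + j) (by omega)).2
        rcases hT (j + 1) hj with h7 | h7
        · exact h7
        · rw [show n + (j + 1) = n + j + 1 by ring] at h7
          linarith
    have h4 := avg_le (fun j hj => (hall j hj).le)
    linarith
  · have hall : ∀ j, j ≤ ⌊δ * √(n : ℝ)⌋₊ → 2 * b < u (n + j) := by
      intro j
      induction j with
      | zero => intro _; exact h0
      | succ j ih =>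
        intro hj
        have h4 := ih (by omega)
        have h5 := (hrat (n + j) (by omega)).1
        rcases hT (j + 1) hj with h7 | h7
        · rw [show n + (j + 1) = n + j + 1 by ring] at h7
          linarith
        · exact h7
    have h4 := le_avg (fun j hj => (hall j hj).le)
    linarith

/-- **bounds for local averages** -/
theorem avg_bounds {δ : ℝ} (hδ : 0 < δ) {θ A B : ℝ} (hA : 0 < A)
    (h : ∀ᶠ n : ℕ in atTop, A ≤ avg (u θ) δ n ∧ avg (u θ) δ n ≤ B) :
    ∃ A' B' : ℝ, 0 < A' ∧ 0 < B' ∧ ∀ᶠ k : ℕ in atTop, A' ≤ u θ k ∧ u θ k ≤ B' := by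
  have h1 := meets2 (u_pos θ) (u_ratio θ) hA hδ h
  exact bounds hδ h1 (half_pos hA) (B := 2 * B) (Eventually.of_forall fun k hk => hk)

/-- **local averages** -/
theorem local_avg {θ A : ℝ} (hA : 0 < A)
    (h : ∀ δ : ℝ, 0 < δ → Tendsto (avg (u θ) δ) atTop (𝓝 A)) :
    Tendsto (u θ) atTop (𝓝 A) := by
  obtain ⟨D, K⟩ := kc
  have hD := K.D0
  have hpos := u_pos θ
  have hr := u_ratio θ
  have key : Tendsto (fun k : ℕ => y k / (k : ℝ) ^ (-θ)) atTop (𝓝 A) := by
    refine K.form_of_log hA fun ε hε => ?_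
    have hδ : 0 < √(ε / (2 * (384 * D + 1))) := Real.sqrt_pos.2 (by positivity)
    -- closeness on the logarithmic side
    have hcont := (Real.continuousAt_log hA.ne')
    rw [Metric.continuousAt_iff] at hcont
    obtain ⟨ε', hε', hlog⟩ := hcont (ε / 18) (by positivity)
    have hm := meets hpos hr hA (half_pos hε') hδ (h _ hδ)
    have h7 := K.samp sc_one (τ := ε / 18) (by positivity) hδ (-θ) (Real.log A)
      (by simpa only [mul_one] using hm) (by
      filter_upwards [hpos, K.pos, eventually_ge_atTop 1] with k g1 g2 g3 g4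
      have g4' : |u θ k - A| ≤ ε' / 2 := g4
      have g5 : dist (u θ k) A < ε' := by
        rw [Real.dist_eq]
        linarith
      have g6 := hlog g5
      rw [Real.dist_eq, ← u_eq θ g3, log_form g3 g2] at g6
      rw [mul_one, show Real.log (y k) - (-θ * Real.log k + Real.log A) =
        Real.log (y k) - -θ * Real.log k - Real.log A by ring]
      exact g6.le)
    filter_upwards [h7] with n hn
    refine hn.trans ?_
    rw [Real.sq_sqrt (by positivity), mul_one]
    have h8 : 384 * D * (ε / (2 * (384 * D + 1))) ≤ ε / 2 := by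
      rw [mul_div_assoc', div_le_div_iff₀ (by positivity) (by norm_num)]
      nlinarith
    linarith
  refine key.congr' ?_
  filter_upwards [eventually_ge_atTop 1] with k hk
  exact u_eq θ hk

end Pool.Agent.R475.SP
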