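import Mathlib

/-!
Ultrafilters on the positive integers: product, multiplicative finite embeddability,
and counting of prime factors.
-/

open Filter

namespace Pool.Agent.R475.UF

/-- The product of two ultrafilters on `ℕ+`:
`A ∈ prod F G ↔ {n | {m | n * m ∈ A} ∈ G} ∈ F` (see `mem_prod`). -/
noncomputable def prod (F G : Ultrafilter ℕ+) : Ultrafilter ℕ+ :=
  F.bind fun n => G.map fun m => n * m

theorem mem_prod (F G : Ultrafilter ℕ+) (A : Set ℕ+) :
    A ∈ prod F G ↔ {n : ℕ+ | {m : ℕ+ | n * m ∈ A} ∈ G} ∈ F := Iff.rfl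

theorem ev_prod (F G : Ultrafilter ℕ+) (p : ℕ+ → Prop) :
    (∀ᶠ z in (prod F G : Filter ℕ+), p z) ↔
      ∀ᶠ x in (F : Filter ℕ+), ∀ᶠ y in (G : Filter ℕ+), p (x * y) := Iff.rfl

theorem ext' {F G : Ultrafilter ℕ+}
    (h : ∀ p : ℕ+ → Prop, (∀ᶠ z in (F : Filter ℕ+), p z) ↔ (∀ᶠ z in (G : Filter ℕ+), p z)) :
    F = G := by
  apply Ultrafilter.ext
  intro s
  exact h (fun z => z ∈ s)

theorem prod_assoc (F G K : Ultrafilter ℕ+) : prod (prod F G) K = prod F (prod G K) := by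
  apply ext'
  intro p
  simp only [ev_prod, mul_assoc]

/-- `A` is (multiplicatively) finitely embeddable in `B`. -/
def FeSet (A B : Set ℕ+) : Prop :=
  ∀ E : Finset ℕ+, (E : Set ℕ+) ⊆ A → ∃ k : ℕ+, ∀ x ∈ E, k * x ∈ B

/-- Multiplicative finite embeddability of ultrafilters. -/
def Fe (F G : Ultrafilter ℕ+) : Prop := ∀ B ∈ G, ∃ A ∈ F, FeSet A B

theorem Fe.refl (F : Ultrafilter ℕ+) : Fe F F :=
  fun B hB => ⟨B, hB, fun _ hE => ⟨1, fun x hx => by simpa using hE hx⟩⟩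

theorem FeSet.trans {A B C : Set ℕ+} (h1 : FeSet A B) (h2 : FeSet B C) : FeSet A C := by
  classical
  intro E hE
  obtain ⟨k, hk⟩ := h1 E hE
  obtain ⟨l, hl⟩ := h2 (E.image fun x => k * x) (by
    intro y hy
    simp only [Finset.coe_image, Set.mem_image, Finset.mem_coe] at hy
    obtain ⟨x, hx, rfl⟩ := hy
    exact hk x hx)
  refine ⟨l * k, fun x hx => ?_⟩
  rw [mul_assoc]
  exact hl _ (Finset.mem_image_of_mem _ hx)

theorem Fe.trans {F G K : Ultrafilter ℕ+} (h1 : Fe F G) (h2 : Fe G K) : Fe F K := by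
  intro C hC
  obtain ⟨B, hB, hBC⟩ := h2 C hC
  obtain ⟨A, hA, hAB⟩ := h1 B hB
  exact ⟨A, hA, hAB.trans hBC⟩

/-- If `{e | {w | e * w ∈ B} ∈ W}` is in `F`, it is finitely embeddable in `B`. -/
theorem feSet_of (W : Ultrafilter ℕ+) (B : Set ℕ+) :
    FeSet {e : ℕ+ | {w : ℕ+ | e * w ∈ B} ∈ W} B := by
  intro E hE
  have h : (⋂ e ∈ E, {w : ℕ+ | e * w ∈ B}) ∈ (W : Filter ℕ+) :=
    (Filter.biInter_finset_mem E).2 fun e he => hE he
  obtain ⟨k, hk⟩ := W.nonempty_of_mem h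
  refine ⟨k, fun x hx => ?_⟩
  have := Set.mem_iInter₂.1 hk x hx
  rw [mul_comm]
  exact this

theorem fe_prod (F W : Ultrafilter ℕ+) : Fe F (prod F W) :=
  fun B hB => ⟨_, hB, feSet_of W B⟩

/-- Number of prime factors (with multiplicity) of `x` lying in `S`. -/
noncomputable def cnt (S : Set ℕ) (x : ℕ+) : ℕ := by
  classical exact (x : ℕ).primeFactorsList.countP fun p => decide (p ∈ S)

theorem cnt_mul (S : Set ℕ) (x y : ℕ+) : cnt S (x * y) = cnt S x + cnt S y := by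
  classical
  unfold cnt
  rw [PNat.mul_coe, (Nat.perm_primeFactorsList_mul x.ne_zero y.ne_zero).countP_eq,
    List.countP_append]

theorem cnt_mono {S T : Set ℕ} (h : ∀ p, p.Prime → p ∈ S → p ∈ T) (x : ℕ+) :
    cnt S x ≤ cnt T x := by
  classical
  unfold cnt
  refine List.countP_mono_left fun p hp hpS => ?_
  simp only [decide_eq_true_eq] at hpS ⊢
  exact h p (Nat.prime_of_mem_primeFactorsList hp) hpS

theorem cnt_pos_iff (S : Set ℕ) (x : ℕ+) :
    0 < cnt S x ↔ ∃ p : ℕ, p.Prime ∧ p ∣ x ∧ p ∈ S := by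
  classical
  unfold cnt
  rw [List.countP_pos_iff]
  constructor
  · rintro ⟨p, hp, hpS⟩
    exact ⟨p, Nat.prime_of_mem_primeFactorsList hp, Nat.dvd_of_mem_primeFactorsList hp,
      by simpa using hpS⟩
  · rintro ⟨p, hp, hpx, hpS⟩
    exact ⟨p, (Nat.mem_primeFactorsList x.ne_zero).2 ⟨hp, hpx⟩, by simpa using hpS⟩

theorem cnt_prime (S : Set ℕ) (x : ℕ+) (hx : (x : ℕ).Prime) [Decidable ((x : ℕ) ∈ S)] :
    cnt S x = if (x : ℕ) ∈ S then 1 else 0 := by
  classical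
  unfold cnt
  rw [Nat.primeFactorsList_prime hx]
  by_cases h : (x : ℕ) ∈ S <;> simp [h]

theorem cnt_prime_mem {S : Set ℕ} {x : ℕ+} (hx : (x : ℕ).Prime) (h : (x : ℕ) ∈ S) :
    cnt S x = 1 := by
  classical
  rw [cnt_prime S x hx, if_pos h]

theorem cnt_prime_notMem {S : Set ℕ} {x : ℕ+} (hx : (x : ℕ).Prime) (h : (x : ℕ) ∉ S) :
    cnt S x = 0 := by
  classical
  rw [cnt_prime S x hx, if_neg h]

theorem cnt_univ (x : ℕ+) : cnt Set.univ x = (x : ℕ).primeFactorsList.length := by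
  unfold cnt
  simp [List.countP_eq_length]

theorem eq_one_of_cnt {x : ℕ+} (h : cnt Set.univ x = 0) : x = 1 := by
  by_contra hne
  have : (x : ℕ) ≠ 1 := fun h' => hne (PNat.coe_eq_one_iff.1 h')
  obtain ⟨p, hp, hpx⟩ := Nat.exists_prime_and_dvd this
  have := (cnt_pos_iff Set.univ x).2 ⟨p, hp, hpx, trivial⟩
  omega

end Pool.Agent.R475.UF
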