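import Mathlib
import Pool.Agent.R475.UF

/-!
An irreducible ultrafilter of level 2 above a prime ultrafilter.
-/

open Filter

namespace Pool.Agent.R475.UF

theorem setOf_prime_infinite : (Set.ofPred Nat.Prime).Infinite := Nat.infinite_setOfPred_prime

/-- An injective enumeration by pairs of the odd primes. -/
noncomputable def pr (i j : ℕ) : ℕ := Nat.nth Nat.Prime (Nat.pair i j + 1)

theorem pr_prime (i j : ℕ) : (pr i j).Prime := Nat.prime_nth_prime _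

theorem pr_inj {i j i' j' : ℕ} (h : pr i j = pr i' j') : i = i' ∧ j = j' := by
  have h1 := Nat.nth_injective setOf_prime_infinite h
  have h2 : Nat.pair i j = Nat.pair i' j' := by omega
  exact Nat.pair_eq_pair.1 h2

theorem pr_ne_two (i j : ℕ) : pr i j ≠ 2 := by
  intro h
  have h2 : Nat.nth Nat.Prime 0 = 2 := Nat.nth_prime_zero_eq_two
  have := Nat.nth_injective setOf_prime_infinite (h.trans h2.symm)
  omega

/-- The odd primes, as positive integers. -/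
noncomputable def P (i j : ℕ) : ℕ+ := ⟨pr i j, (pr_prime i j).pos⟩

theorem P_coe (i j : ℕ) : (P i j : ℕ) = pr i j := rfl

theorem P_inj {i j i' j' : ℕ} (h : P i j = P i' j') : i = i' ∧ j = j' :=
  pr_inj (congrArg PNat.val h)

theorem P_ne_one (i j : ℕ) : P i j ≠ 1 := by
  intro h
  have : pr i j = 1 := congrArg PNat.val h
  exact (pr_prime i j).one_lt.ne' this

/-- A nonprincipal ultrafilter on `ℕ`. -/
noncomputable abbrev N : Ultrafilter ℕ := hyperfilter ℕ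

theorem ev_N_of_finite {s : Set ℕ} (h : s.Finite) : ∀ᶠ j in (N : Filter ℕ), j ∉ s :=
  hyperfilter_le_cofinite h.compl_mem_cofinite

theorem ev_N_ge (n : ℕ) : ∀ᶠ j in (N : Filter ℕ), n ≤ j := by
  have := ev_N_of_finite (Set.finite_Iio n)
  filter_upwards [this] with j hj
  simpa using hj

theorem ev_N_pr_ne (i s : ℕ) : ∀ᶠ j in (N : Filter ℕ), pr i j ≠ s := by
  have : ({j | pr i j = s} : Set ℕ).Finite := by
    apply Set.Subsingleton.finite
    intro a ha b hb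
    exact (pr_inj (ha.trans (Eq.symm hb))).2
  exact ev_N_of_finite this

/-- A prime ultrafilter. -/
noncomputable def F0 : Ultrafilter ℕ+ := N.map (P 0)

/-- The ultrafilter of level 2. -/
noncomputable def L0 : Ultrafilter ℕ+ := N.bind fun i => prod F0 (N.map (P (i + 1)))

theorem ev_F0 (p : ℕ+ → Prop) :
    (∀ᶠ z in (F0 : Filter ℕ+), p z) ↔ ∀ᶠ m in (N : Filter ℕ), p (P 0 m) := Iff.rfl

theorem ev_L0 (p : ℕ+ → Prop) :
    (∀ᶠ z in (L0 : Filter ℕ+), p z) ↔ ∀ᶠ i in (N : Filter ℕ), ∀ᶠ m in (N : Filter ℕ),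
      ∀ᶠ k in (N : Filter ℕ), p (P 0 m * P (i + 1) k) := Iff.rfl

theorem principal_or (X : Ultrafilter ℕ+) :
    (∃ r, X = pure r) ∨ ∀ s : Set ℕ+, s.Finite → ∀ᶠ x in (X : Filter ℕ+), x ∉ s := by
  by_cases h : ∃ s : Set ℕ+, s.Finite ∧ s ∈ X
  · obtain ⟨s, hs, hsX⟩ := h
    obtain ⟨r, -, hr⟩ := Ultrafilter.eq_pure_of_finite_mem hs hsX
    exact Or.inl ⟨r, hr⟩
  · refine Or.inr fun s hs => ?_
    exact Ultrafilter.compl_mem_iff_notMem.2 fun hc => h ⟨s, hs, hc⟩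

theorem ev_pure (r : ℕ+) (p : ℕ+ → Prop) :
    (∀ᶠ z in ((pure r : Ultrafilter ℕ+) : Filter ℕ+), p z) ↔ p r := Iff.rfl

theorem fe_F0_L0 : Fe F0 L0 := by
  intro B hB
  have h1 : ∀ᶠ i in (N : Filter ℕ), ∀ᶠ m in (N : Filter ℕ),
      ∀ᶠ k in (N : Filter ℕ), P 0 m * P (i + 1) k ∈ B := hB
  obtain ⟨i, hi⟩ := h1.exists
  exact ⟨_, hi, feSet_of (N.map (P (i + 1))) B⟩

theorem dvd_L0 (r : ℕ+) (h : ∀ᶠ z in (L0 : Filter ℕ+), r ∣ z) : r = 1 := by
  by_contra hr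
  have hr' : (r : ℕ) ≠ 1 := fun h' => hr (PNat.coe_eq_one_iff.1 h')
  obtain ⟨s, hs, hsr⟩ := Nat.exists_prime_and_dvd hr'
  rw [ev_L0] at h
  obtain ⟨i, hi⟩ := h.exists
  obtain ⟨m, hm, hm2⟩ := (hi.and (ev_N_pr_ne 0 s)).exists
  obtain ⟨k, hk, hk2⟩ := (hm.and (ev_N_pr_ne (i + 1) s)).exists
  have h1 : s ∣ pr 0 m * pr (i + 1) k := hsr.trans (PNat.dvd_iff.1 hk)
  rcases (hs.dvd_mul).1 h1 with h2 | h2
  · exact hm2 ((Nat.prime_dvd_prime_iff_eq hs (pr_prime _ _)).1 h2).symm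
  · exact hk2 ((Nat.prime_dvd_prime_iff_eq hs (pr_prime _ _)).1 h2).symm

theorem two_primes {x y p q : ℕ+} (hp : (p : ℕ).Prime) (hq : (q : ℕ).Prime) (hx : x ≠ 1)
    (hy : y ≠ 1) (h : x * y = p * q) : (x = p ∧ y = q) ∨ (x = q ∧ y = p) := by
  have hx' : (x : ℕ) ≠ 1 := fun h' => hx (PNat.coe_eq_one_iff.1 h')
  have hy' : (y : ℕ) ≠ 1 := fun h' => hy (PNat.coe_eq_one_iff.1 h')
  have h' : (x : ℕ) * y = p * q := by exact_mod_cast congrArg PNat.val h
  have key : ∀ a b : ℕ, a ≠ 1 → b ≠ 1 → a * b = p * q → (p : ℕ) ∣ a → a = p ∧ b = q := by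
    intro a b ha hb hab hpa
    obtain ⟨c, rfl⟩ := hpa
    have h1 : c * b = q := by
      have : (p : ℕ) * (c * b) = p * q := by rw [← hab]; ring
      exact Nat.eq_of_mul_eq_mul_left p.pos this
    have h2 : c = 1 := by
      rcases (Nat.dvd_prime hq).1 (Dvd.intro _ h1) with h3 | h3
      · exact h3
      · exfalso
        apply hb
        have h4 : (q : ℕ) * b = q * 1 := by rw [← h3, h1, h3, mul_one]
        exact Nat.eq_of_mul_eq_mul_left q.pos h4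
    subst h2
    constructor
    · ring
    · simpa using h1
  have hd : (p : ℕ) ∣ x * y := h' ▸ dvd_mul_right _ _
  rcases hp.dvd_mul.1 hd with h1 | h1
  · left
    obtain ⟨h2, h3⟩ := key x y hx' hy' h' h1
    exact ⟨PNat.coe_injective h2, PNat.coe_injective h3⟩
  · right
    obtain ⟨h2, h3⟩ := key y x hy' hx' (by rw [mul_comm]; exact h') h1
    exact ⟨PNat.coe_injective h3, PNat.coe_injective h2⟩

theorem irred (X Y : Ultrafilter ℕ+) (h : L0 = prod X Y) : X = pure 1 ∨ Y = pure 1 := by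
  rcases principal_or X with ⟨r, rfl⟩ | hX
  · left
    have : r = 1 := by
      apply dvd_L0
      rw [h, ev_prod, ev_pure]
      exact Eventually.of_forall fun y => Dvd.intro _ rfl
    rw [this]
  rcases principal_or Y with ⟨r, rfl⟩ | hY
  · right
    have : r = 1 := by
      apply dvd_L0
      rw [h, ev_prod]
      refine Eventually.of_forall fun y => ?_
      rw [ev_pure]
      exact Dvd.intro_left _ rfl
    rw [this]
  exfalso
  have hb : ∀ᶠ z in (L0 : Filter ℕ+), ∃ i m k, i < m ∧ m < k ∧ z = P 0 m * P (i + 1) k := by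
    rw [ev_L0]
    refine Eventually.of_forall fun i => ?_
    filter_upwards [ev_N_ge (i + 1)] with m hm
    filter_upwards [ev_N_ge (m + 1)] with k hk
    exact ⟨i, m, k, hm, hk, rfl⟩
  rw [h, ev_prod] at hb
  have hX1 := hX {1} (Set.finite_singleton 1)
  have hY1 := hY {1} (Set.finite_singleton 1)
  obtain ⟨x0, hx0, hx1⟩ := (hb.and hX1).exists
  have hmain : ∀ x : ℕ+, x ≠ 1 →
      (∀ᶠ y in (Y : Filter ℕ+), ∃ i m k, i < m ∧ m < k ∧ x * y = P 0 m * P (i + 1) k) →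
      ∃ m, x = P 0 m ∧ ∀ᶠ y in (Y : Filter ℕ+), ∃ i k, i < m ∧ y = P (i + 1) k := by
    intro x hx hxy
    have hfin : ({y | ∃ i m k, m < k ∧ x = P (i + 1) k ∧ y = P 0 m} : Set ℕ+).Finite := by
      by_cases hc : ∃ i k, x = P (i + 1) k
      · obtain ⟨i, k, hik⟩ := hc
        refine ((Set.finite_Iio k).image (P 0)).subset ?_
        rintro y ⟨i', m', k', h1, h2, h3⟩
        obtain ⟨-, h4⟩ := P_inj (hik.symm.trans h2)
        exact ⟨m', by simpa [h4] using h1, h3.symm⟩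
      · refine Set.finite_empty.subset ?_
        rintro y ⟨i', m', k', h1, h2, h3⟩
        exact hc ⟨i', k', h2⟩
    have h2 : ∀ᶠ y in (Y : Filter ℕ+), ∃ i m k, i < m ∧ x = P 0 m ∧ y = P (i + 1) k := by
      filter_upwards [hxy, hY1, hY _ hfin] with y h3 h4 h5
      obtain ⟨i, m, k, h6, h7, h8⟩ := h3
      rcases two_primes (p := P 0 m) (q := P (i + 1) k) (pr_prime 0 m) (pr_prime (i + 1) k) hx h4 h8 with ⟨h9, h10⟩ | ⟨h9, h10⟩
      · exact ⟨i, m, k, h6, h9, h10⟩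
      · exact absurd ⟨i, m, k, h7, h9, h10⟩ h5
    obtain ⟨y1, i1, m1, k1, h3, h4, h5⟩ := h2.exists
    refine ⟨m1, h4, ?_⟩
    filter_upwards [h2] with y h6
    obtain ⟨i, m, k, h7, h8, h9⟩ := h6
    obtain ⟨-, h10⟩ := P_inj (h8.symm.trans h4)
    exact ⟨i, k, h10 ▸ h7, h9⟩
  obtain ⟨m0, -, hm0⟩ := hmain x0 hx1 hx0
  have hfinal : ∀ᶠ z in (L0 : Filter ℕ+), ∃ a i k, i < m0 ∧ z = P 0 a * P (i + 1) k := by
    rw [h, ev_prod]
    filter_upwards [hb, hX1] with x h1 h2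
    obtain ⟨m, hm, -⟩ := hmain x h2 h1
    filter_upwards [hm0] with y hy
    obtain ⟨i, k, h3, h4⟩ := hy
    exact ⟨m, i, k, h3, by rw [hm, h4]⟩
  rw [ev_L0] at hfinal
  obtain ⟨i', hi', hi2⟩ := (hfinal.and (ev_N_ge m0)).exists
  obtain ⟨m', hm'⟩ := hi'.exists
  obtain ⟨k', a, i, k, h1, h2⟩ := hm'.exists
  have h3 : (pr 0 m') * pr (i' + 1) k' = pr 0 a * pr (i + 1) k := congrArg PNat.val h2
  have h4 : pr (i' + 1) k' ∣ pr 0 a * pr (i + 1) k := h3 ▸ dvd_mul_left _ _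
  rcases (pr_prime _ _).dvd_mul.1 h4 with h5 | h5
  · have := pr_inj ((Nat.prime_dvd_prime_iff_eq (pr_prime _ _) (pr_prime _ _)).1 h5)
    omega
  · have := pr_inj ((Nat.prime_dvd_prime_iff_eq (pr_prime _ _) (pr_prime _ _)).1 h5)
    omega

theorem F0_ne_one : F0 ≠ pure 1 := by
  intro h
  have h1 : ∀ᶠ z in (F0 : Filter ℕ+), z = 1 := by rw [h, ev_pure]
  rw [ev_F0] at h1
  obtain ⟨m, hm⟩ := h1.exists
  exact P_ne_one _ _ hm

theorem L0_ne_one : L0 ≠ pure 1 := by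
  intro h
  have h1 : ∀ᶠ z in (L0 : Filter ℕ+), z ∣ 1 := by rw [h, ev_pure]
  rw [ev_L0] at h1
  obtain ⟨i, hi⟩ := h1.exists
  obtain ⟨m, hm⟩ := hi.exists
  obtain ⟨k, hk⟩ := hm.exists
  have h2 : P 0 m ∣ 1 := (Dvd.intro _ rfl).trans hk
  exact P_ne_one 0 m (PNat.dvd_one_iff _ |>.1 h2)

theorem prod_eq_one {X Y : Ultrafilter ℕ+} (h : prod X Y = pure 1) : X = pure 1 ∧ Y = pure 1 := by
  have h1 : ∀ᶠ z in (prod X Y : Filter ℕ+), z = 1 := by rw [h, ev_pure]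
  rw [ev_prod] at h1
  have h2 : ∀ᶠ x in (X : Filter ℕ+), x = 1 ∧ ∀ᶠ y in (Y : Filter ℕ+), y = 1 := by
    filter_upwards [h1] with x hx
    constructor
    · obtain ⟨y, hy⟩ := hx.exists
      exact PNat.dvd_one_iff _ |>.1 (Dvd.intro _ hy)
    · filter_upwards [hx] with y hy
      exact PNat.dvd_one_iff _ |>.1 (Dvd.intro_left _ hy)
  have key : ∀ Z : Ultrafilter ℕ+, (∀ᶠ z in (Z : Filter ℕ+), z = 1) → Z = pure 1 := by
    intro Z hZ
    obtain ⟨x, hx, hx2⟩ := Ultrafilter.eq_pure_of_finite_mem (Set.finite_singleton (1 : ℕ+)) hZ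
    rw [Set.mem_singleton_iff] at hx
    rw [hx2, hx]
  obtain ⟨x, -, hx⟩ := h2.exists
  exact ⟨key X (h2.mono fun _ h => h.1), key Y hx⟩

theorem one_prod (X : Ultrafilter ℕ+) : prod (pure 1) X = X := by
  apply ext'
  intro p
  rw [ev_prod, ev_pure]
  simp only [one_mul]

theorem prod_one (X : Ultrafilter ℕ+) : prod X (pure 1) = X := by
  apply ext'
  intro p
  rw [ev_prod]
  simp only [ev_pure, mul_one]

/-- Divisibility of ultrafilters. -/
def MDiv (F G : Ultrafilter ℕ+) : Prop := ∃ H₁ H₂ : Ultrafilter ℕ+, G = prod (prod H₁ F) H₂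

theorem mdiv_L0 {G : Ultrafilter ℕ+} (h : MDiv G L0) : G = pure 1 ∨ G = L0 := by
  obtain ⟨H₁, H₂, h⟩ := h
  rcases irred _ _ h with h1 | h1
  · left
    exact (prod_eq_one h1).2
  · subst h1
    rw [prod_one] at h
    rcases irred _ _ h with h2 | h2
    · subst h2
      rw [one_prod] at h
      exact Or.inr h.symm
    · exact Or.inl h2

theorem not_fe_L0_F0 : ¬ Fe L0 F0 := by
  intro h
  have hB : Set.range (P 0) ∈ F0 := by
    show ∀ᶠ m in (N : Filter ℕ), P 0 m ∈ Set.range (P 0)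
    exact Eventually.of_forall fun m => ⟨m, rfl⟩
  obtain ⟨A, hA, hAB⟩ := h _ hB
  have hA' : ∀ᶠ z in (L0 : Filter ℕ+), z ∈ A := hA
  rw [ev_L0] at hA'
  obtain ⟨i, hi⟩ := hA'.exists
  obtain ⟨m, hm⟩ := hi.exists
  obtain ⟨k, hk⟩ := hm.exists
  obtain ⟨l, hl⟩ := hAB {P 0 m * P (i + 1) k} (by simpa using hk)
  obtain ⟨n, hn⟩ := hl _ (Finset.mem_singleton_self _)
  have h1 : cnt Set.univ (P 0 n) = 1 := cnt_prime_mem (pr_prime _ _) trivial
  have h2 : cnt Set.univ (P 0 m) = 1 := cnt_prime_mem (pr_prime _ _) trivial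
  have h3 : cnt Set.univ (P (i + 1) k) = 1 := cnt_prime_mem (pr_prime _ _) trivial
  rw [hn, cnt_mul, cnt_mul, h2, h3] at h1
  omega

theorem L0_ne_F0 : L0 ≠ F0 := fun h => not_fe_L0_F0 (h ▸ Fe.refl _)

theorem not_mdiv_F0_L0 : ¬ MDiv F0 L0 := fun h => by
  rcases mdiv_L0 h with h1 | h1
  · exact F0_ne_one h1
  · exact L0_ne_F0 h1.symm

end Pool.Agent.R475.UF
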