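import Pool.Agent.TH546.PC.Point
import Pool.Agent.H739K.F3
import Pool.Agent.H739K.BOX

/-!
The number of polygons of perimeter `2n` and width at least `i` is at most `K μ^(2n) / (i √n)`.
-/

set_option autoImplicit false

namespace Pool.Agent.R475.WC

open Pool.Agent.W870.Pg Pool.Agent.H924P H981 Filter Topology

open scoped Classical in
/-- weight of the canonical polygons with height at least `i` -/
noncomputable def U (n i : ℕ) : ℝ := ∑ j ∈ Finset.Icc 2 n,
    (((CanF (2 * j - 1)).filter (fun g => i ≤ ht g)).card : ℝ) * mu⁻¹ ^ (2 * j)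

lemma U_bound : ∃ C : ℝ, 0 ≤ C ∧ ∀ n i : ℕ, 1 ≤ i → U n i ≤ C / i := by
  classical
  have hmu := mu_pos
  have hmu1 : 1 ≤ mu := one_le_mu
  obtain ⟨K0, hK0, htail⟩ := Pool.Agent.TH546.PC.tail
  obtain ⟨C1, hC1⟩ : ∃ C1 : ℝ, C1 = 38400 * mu ^ 15 := ⟨_, rfl⟩
  have hC10 : 0 ≤ C1 := by rw [hC1]; positivity
  refine ⟨16 * K0 + C1, by positivity, fun n i hi => ?_⟩
  have hi0 : (0 : ℝ) < i := by exact_mod_cast hi
  by_cases h8 : i < 8
  · have h1 : U n i ≤ ∑ j ∈ Finset.Icc 2 n, 2 * Fp j := by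
      unfold U
      apply Finset.sum_le_sum
      intro j hj
      rw [Finset.mem_Icc] at hj
      have h2 := nn_le_PP hj.1
      have h3 : (((CanF (2 * j - 1)).filter (fun g => i ≤ ht g)).card : ℝ) ≤ nn j := by
        unfold nn
        exact_mod_cast Finset.card_le_card (Finset.filter_subset _ _)
      unfold Fp
      rw [inv_pow]
      have h4 : 0 < mu ^ (2 * j) := pow_pos hmu _
      calc (((CanF (2 * j - 1)).filter (fun g => i ≤ ht g)).card : ℝ) * (mu ^ (2 * j))⁻¹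
          ≤ (2 * PP j) * (mu ^ (2 * j))⁻¹ := by
            apply mul_le_mul_of_nonneg_right (h3.trans h2) (by positivity)
        _ = _ := by ring
    have h2 := htail 2 n le_rfl
    have h3 : K0 / Real.sqrt ((2 : ℕ) : ℝ) ≤ K0 := by
      apply div_le_self hK0
      rw [Real.one_le_sqrt]
      norm_num
    rw [← Finset.mul_sum] at h1
    rw [le_div_iff₀ hi0]
    have h4 : (i : ℝ) ≤ 8 := by exact_mod_cast h8.le
    have h5 : U n i ≤ 2 * K0 := by linarith
    calc U n i * i ≤ 2 * K0 * i := by gcongr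
      _ ≤ 2 * K0 * 8 := by gcongr
      _ ≤ _ := by linarith
  · push Not at h8
    obtain ⟨h, hh⟩ : ∃ h, h = (i - 6) / 2 := ⟨_, rfl⟩
    have h1 : U n i ≤ Pool.Agent.TH546.PC.VV h (2 * n) := by
      unfold U Pool.Agent.TH546.PC.VV
      have e : ∀ j ∈ Finset.Icc 2 n,
          (((CanF (2 * j - 1)).filter (fun g => i ≤ ht g)).card : ℝ) * mu⁻¹ ^ (2 * j) ≤
          ((Pool.Agent.TH546.PC.VF h (2 * j - 1)).card : ℝ) * mu⁻¹ ^ (2 * j - 1) := by
        intro j hj
        rw [Finset.mem_Icc] at hj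
        have h2 : ((CanF (2 * j - 1)).filter (fun g => i ≤ ht g)).card ≤
            (Pool.Agent.TH546.PC.VF h (2 * j - 1)).card := by
          apply Finset.card_le_card
          intro g hg
          rw [Finset.mem_filter, mem_CanF] at hg
          rw [Pool.Agent.TH546.PC.mem_VF]
          exact ⟨hg.1, by omega⟩
        have h3 : mu⁻¹ ^ (2 * j) ≤ mu⁻¹ ^ (2 * j - 1) := by
          apply pow_le_pow_of_le_one (by positivity) (inv_le_one_of_one_le₀ hmu1) (by omega)
        have h4 : (((CanF (2 * j - 1)).filter (fun g => i ≤ ht g)).card : ℝ) ≤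
          ((Pool.Agent.TH546.PC.VF h (2 * j - 1)).card : ℝ) := by exact_mod_cast h2
        exact mul_le_mul h4 h3 (pow_nonneg (inv_nonneg.mpr hmu.le) _) (Nat.cast_nonneg _)
      refine (Finset.sum_le_sum e).trans ?_
      have e2 : ∑ j ∈ Finset.Icc 2 n, ((Pool.Agent.TH546.PC.VF h (2 * j - 1)).card : ℝ) *
          mu⁻¹ ^ (2 * j - 1) =
          ∑ m ∈ (Finset.Icc 2 n).image (fun j => 2 * j - 1),
            ((Pool.Agent.TH546.PC.VF h m).card : ℝ) * mu⁻¹ ^ m := by
        rw [Finset.sum_image]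
        intro a ha b hb hab
        rw [Finset.mem_coe, Finset.mem_Icc] at ha hb
        simp only at hab
        omega
      rw [e2]
      apply Finset.sum_le_sum_of_subset_of_nonneg
      · intro m hm
        rw [Finset.mem_image] at hm
        obtain ⟨j, hj, rfl⟩ := hm
        rw [Finset.mem_Icc] at hj
        rw [Finset.mem_range]
        omega
      · intro m _ _
        exact mul_nonneg (Nat.cast_nonneg _) (pow_nonneg (inv_nonneg.mpr hmu.le) _)
    have h2 := Pool.Agent.TH546.PC.VV_bound h (2 * n)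
    have h3 : i ≤ 16 * h := by omega
    have h4 : (i : ℝ) ≤ 16 * h := by exact_mod_cast h3
    have h5 := Pool.Agent.TH546.PC.VV_nonneg h (2 * n)
    rw [le_div_iff₀ hi0]
    calc U n i * i ≤ Pool.Agent.TH546.PC.VV h (2 * n) * (16 * h) := by
          exact mul_le_mul h1 h4 hi0.le h5
      _ = 16 * (h * Pool.Agent.TH546.PC.VV h (2 * n)) := by ring
      _ ≤ 16 * (2400 * mu ^ 15) := by linarith
      _ = C1 := by rw [hC1]; ring
      _ ≤ _ := by linarith

/-- the weight `min (width + height, i)²` on words -/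
noncomputable def ph (i : ℕ) (w : List Pool.Agent.H976R2.Dir) : ℝ :=
  ((min (Pool.Agent.H739K.bx w) i : ℕ) : ℝ) ^ 2

lemma nice (i : ℕ) (hi : 1 ≤ i) (m : ℕ) (hm : 3 ≤ m) : Pool.Agent.H739K.Nice 48 m (ph i) where
  one_le := by
    intro w h1 _ _ _
    have h2 : 1 ≤ min (Pool.Agent.H739K.bx w) i :=
      le_min (Pool.Agent.H739K.F3x.bx_pos w (by omega)) hi
    have h3 : (1 : ℝ) ≤ ((min (Pool.Agent.H739K.bx w) i : ℕ) : ℝ) := by exact_mod_cast h2
    unfold ph
    exact one_le_pow₀ h3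
  le := by
    intro w _ h2 _ _
    have h3 : min (Pool.Agent.H739K.bx w) i ≤ 4 * w.length :=
      (min_le_left _ _).trans (Pool.Agent.H739K.F3x.bx_le w)
    have h3' : ((min (Pool.Agent.H739K.bx w) i : ℕ) : ℝ) ≤ 4 * w.length := by exact_mod_cast h3
    have h4 : (w.length : ℝ) ≤ m + 4 := by exact_mod_cast h2
    have h5 : (3 : ℝ) ≤ m := by exact_mod_cast hm
    unfold ph
    have h6 : ((min (Pool.Agent.H739K.bx w) i : ℕ) : ℝ) ^ 2 ≤ (4 * ((m : ℝ) + 5)) ^ 2 := by
      apply pow_le_pow_left₀ (Nat.cast_nonneg _)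
      linarith
    refine h6.trans ?_
    have h7 : (0 : ℝ) < ((m : ℝ) + 5) ^ 2 := by positivity
    nlinarith
  lip := by
    intro w h1 _ hs hq
    obtain ⟨hb1, hb2⟩ := Pool.Agent.H739K.BOX_proof w (by omega) hs hq
    obtain ⟨b, hb⟩ : ∃ b, b = Pool.Agent.H739K.bx w := ⟨_, rfl⟩
    have hb0 : 1 ≤ b := by rw [hb]; exact Pool.Agent.H739K.F3x.bx_pos w (by omega)
    rw [← hb] at hb2
    have hle : ∀ p ∈ Pool.Agent.H976R2.adm w, b ≤
        Pool.Agent.H739K.bx (Pool.Agent.H976R2.ins w p.1 p.2) := by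
      intro p hp
      rw [hb]
      exact hb1 p hp
    unfold ph
    rw [← hb]
    rcases le_or_gt i b with hib | hib
    · rw [Finset.sum_eq_zero]
      · positivity
      · intro p hp
        rw [min_eq_right (hib.trans (hle p hp)), min_eq_right hib, sub_self, abs_zero]
    · rw [min_eq_left hib.le]
      have hbr : (1 : ℝ) ≤ b := by exact_mod_cast hb0
      have hterm : ∀ p ∈ Pool.Agent.H976R2.adm w,
          |((min (Pool.Agent.H739K.bx (Pool.Agent.H976R2.ins w p.1 p.2)) i : ℕ) : ℝ) ^ 2 -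
            (b : ℝ) ^ 2| ≤
          8 * b * ((Pool.Agent.H739K.bx (Pool.Agent.H976R2.ins w p.1 p.2) : ℝ) - b) := by
        intro p hp
        have h7 : ((Pool.Agent.H739K.bx (Pool.Agent.H976R2.ins w p.1 p.2) : ℝ) - b) ≤ 6 * b := by
          refine le_trans ?_ hb2
          apply Finset.single_le_sum (f := fun p : ℕ × Pool.Agent.H976R2.Dir =>
            ((Pool.Agent.H739K.bx (Pool.Agent.H976R2.ins w p.1 p.2) : ℝ) - b)) _ hp
          intro q hq'
          have : (b : ℝ) ≤ (Pool.Agent.H739K.bx (Pool.Agent.H976R2.ins w q.1 q.2) : ℝ) := by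
            exact_mod_cast hle q hq'
          show (0 : ℝ) ≤ _
          linarith
        obtain ⟨b', hb'⟩ : ∃ b', b' = Pool.Agent.H739K.bx (Pool.Agent.H976R2.ins w p.1 p.2) :=
          ⟨_, rfl⟩
        have hle' := hle p hp
        rw [← hb'] at h7 hle' ⊢
        obtain ⟨y, hy⟩ : ∃ y, y = min b' i := ⟨_, rfl⟩
        rw [← hy]
        have hy1 : b ≤ y := by rw [hy]; exact le_min hle' hib.le
        have hy2 : y ≤ b' := by rw [hy]; exact min_le_left _ _
        have hy1' : (b : ℝ) ≤ y := by exact_mod_cast hy1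
        have hy2' : (y : ℝ) ≤ b' := by exact_mod_cast hy2
        rw [abs_of_nonneg (by nlinarith)]
        nlinarith
      refine (Finset.sum_le_sum hterm).trans ?_
      rw [← Finset.mul_sum]
      calc 8 * (b : ℝ) * _ ≤ 8 * b * (6 * b) := by gcongr
        _ = _ := by ring

/-- normalised weight of the loops -/
noncomputable def G (i N : ℕ) : ℝ := Pool.Agent.H739K.mm (ph i) (2 * N - 1) / mu ^ (2 * N)

lemma KP_pos {N : ℕ} (hN : 2 ≤ N) : (0 : ℝ) < ((Pool.Agent.H739K.KP (2 * N - 1)).card : ℝ) :=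
  Pool.Agent.H739K.F0_card_pos Pool.Agent.H739K.bnd _ (by omega) (by omega)

lemma mm_pos {i : ℕ} (hi : 1 ≤ i) {N : ℕ} (hN : 2 ≤ N) :
    0 < Pool.Agent.H739K.mm (ph i) (2 * N - 1) :=
  Pool.Agent.H739K.F0_mm_pos (nice i hi (2 * N - 1) (by omega)) le_rfl (by omega) (KP_pos hN)

lemma G_pos {i : ℕ} (hi : 1 ≤ i) {N : ℕ} (hN : 2 ≤ N) : 0 < G i N :=
  div_pos (mm_pos hi hN) (pow_pos mu_pos _)

/-- almost log-convexity -/
lemma G_conv : ∃ D : ℝ, 1 ≤ D ∧ ∀ i : ℕ, 1 ≤ i → ∀ m : ℕ, 2 ≤ m →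
    G i (m + 1) ^ 2 ≤ G i m * G i (m + 2) + D / m * G i m ^ 2 := by
  obtain ⟨D, hD, h⟩ := Pool.Agent.H739K.RATIO_proof Pool.Agent.H739K.bnd 48 (by norm_num)
  refine ⟨max D 1, le_max_right _ _, fun i hi m hm => ?_⟩
  have hmu := mu_pos
  have hmu1 : 1 ≤ mu := one_le_mu
  have hcard : ∀ N : ℕ, Pool.Agent.H739K.mm (ph i) (2 * N - 1) = mu ^ (2 * N) * G i N := by
    intro N
    unfold G
    have h3 : mu ^ (2 * N) ≠ 0 := (pow_pos hmu _).ne'
    field_simp
  have h1 := h (2 * m - 1) (ph i) (by omega) (by omega) (nice i hi _ (by omega))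
  have e1 : 2 * m - 1 + 2 = 2 * (m + 1) - 1 := by omega
  have e2 : 2 * m - 1 + 4 = 2 * (m + 2) - 1 := by omega
  rw [e1, e2, hcard m, hcard (m + 1), hcard (m + 2)] at h1
  have hm0 : (0 : ℝ) < m := by
    have : 0 < m := by omega
    exact_mod_cast this
  have h2 : D / ((2 * m - 1 : ℕ) : ℝ) ≤ max D 1 / m := by
    have h3 : (m : ℝ) ≤ ((2 * m - 1 : ℕ) : ℝ) := by
      have : m ≤ 2 * m - 1 := by omega
      exact_mod_cast this
    exact div_le_div₀ (by positivity) (le_max_left _ _) hm0 h3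
  have hG := G_pos hi hm
  set P := mu ^ (2 * m) with hP
  have hP0 : 0 < P := pow_pos hmu _
  have e3 : mu ^ (2 * (m + 1)) = P * mu ^ 2 := by rw [hP, ← pow_add]; congr 1
  have e4 : mu ^ (2 * (m + 2)) = P * mu ^ 4 := by rw [hP, ← pow_add]; congr 1
  rw [e3, e4] at h1
  have hmu4 : 1 ≤ mu ^ 4 := one_le_pow₀ hmu1
  have hc : 0 ≤ max D 1 / (m : ℝ) := by positivity
  have h4 : P ^ 2 * mu ^ 4 * G i (m + 1) ^ 2 ≤
      P ^ 2 * mu ^ 4 * (G i m * G i (m + 2) + max D 1 / m * G i m ^ 2) := by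
    calc P ^ 2 * mu ^ 4 * G i (m + 1) ^ 2 = ((P * mu ^ 2) * G i (m + 1)) ^ 2 := by ring
      _ ≤ P * G i m * ((P * mu ^ 4) * G i (m + 2)) +
          D / ((2 * m - 1 : ℕ) : ℝ) * (P * G i m) ^ 2 := h1
      _ ≤ P * G i m * ((P * mu ^ 4) * G i (m + 2)) +
          max D 1 / m * (P * G i m) ^ 2 := by gcongr
      _ = P ^ 2 * mu ^ 4 * (G i m * G i (m + 2)) + P ^ 2 * 1 * (max D 1 / m * G i m ^ 2) := by
          ring
      _ ≤ P ^ 2 * mu ^ 4 * (G i m * G i (m + 2)) +
          P ^ 2 * mu ^ 4 * (max D 1 / m * G i m ^ 2) := by gcongr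
      _ = _ := by ring
  exact le_of_mul_le_mul_left h4 (by positivity)

/-- the ratios are eventually at least `1/2` -/
lemma G_ratio : ∃ N0 : ℕ, 2 ≤ N0 ∧ ∀ i : ℕ, 1 ≤ i → ∀ m : ℕ, N0 ≤ m →
    G i m ≤ 2 * G i (m + 1) := by
  obtain ⟨C, hC⟩ := Pool.Agent.H739K.main' 48 (by norm_num)
  have hmu := mu_pos
  have hev : ∀ᶠ n : ℕ in atTop, Pool.Agent.H739K.rt n < 1 / (2 * (|C| + 1)) :=
    Pool.Agent.H739K.F0_rt_tendsto.eventually (gt_mem_nhds (by positivity))
  obtain ⟨n0, hn0⟩ := eventually_atTop.mp hev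
  refine ⟨max 2 n0, le_max_left _ _, fun i hi m hm => ?_⟩
  have hm2 : 2 ≤ m := (le_max_left _ _).trans hm
  have hmn : n0 ≤ m := (le_max_right _ _).trans hm
  have h1 := hn0 (2 * m - 1) (by omega)
  have h2 := hC (2 * m - 1) (ph i) (by omega) (by omega) (fun k hk _ _ => nice i hi k hk)
  have hr0 := Pool.Agent.H739K.F0_rt_nonneg (2 * m - 1)
  have h3 : C * Pool.Agent.H739K.rt (2 * m - 1) ≤ 1 / 2 := by
    calc C * Pool.Agent.H739K.rt (2 * m - 1) ≤ |C| * (1 / (2 * (|C| + 1))) := by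
          gcongr
          exact le_abs_self C
      _ ≤ 1 / 2 := by
        rw [mul_one_div, div_le_div_iff₀ (by positivity) (by norm_num)]
        linarith
  have h4 := (abs_le.mp (h2.trans h3)).1
  have hA := mm_pos hi hm2
  have hB := mm_pos hi (N := m + 1) (by omega)
  have e1 : 2 * m - 1 + 2 = 2 * (m + 1) - 1 := by omega
  rw [e1] at h4
  have h5 : mu ^ 2 * Pool.Agent.H739K.mm (ph i) (2 * m - 1) ≤
      2 * Pool.Agent.H739K.mm (ph i) (2 * (m + 1) - 1) := by
    have h6 : 1 / 2 ≤ Pool.Agent.H739K.mm (ph i) (2 * (m + 1) - 1) /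
        (mu ^ 2 * Pool.Agent.H739K.mm (ph i) (2 * m - 1)) := by linarith
    rw [div_le_div_iff₀ (by norm_num) (by positivity)] at h6
    linarith
  unfold G
  have e3 : mu ^ (2 * (m + 1)) = mu ^ (2 * m) * mu ^ 2 := by rw [← pow_add]; congr 1
  rw [e3, ← mul_div_assoc, div_le_div_iff₀ (by positivity) (by positivity)]
  have hP : 0 < mu ^ (2 * m) := pow_pos hmu _
  nlinarith

/-- the weight as a sum over loops -/
lemma mm_eq {N : ℕ} (hN : 2 ≤ N) (i : ℕ) :
    Pool.Agent.H739K.mm (ph i) (2 * N - 1) =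
      ∑ f ∈ LF (2 * N), ((min (width (2 * N) f + height (2 * N) f) i : ℕ) : ℝ) ^ 2 := by
  have : NeZero (2 * N) := ⟨by omega⟩
  have h1 := (Pool.Agent.H739K.CONV_proof N hN).1
    (fun f => ((min (width (2 * N) f + height (2 * N) f) i : ℕ) : ℝ) ^ 2)
  have e : {f : ZMod (2 * N) → ℤ × ℤ | Pool.Agent.H924P.IsLoop (2 * N) f} =
      ((LF (2 * N) : Finset (ZMod (2 * N) → V)) : Set (ZMod (2 * N) → ℤ × ℤ)) := by
    ext f
    rw [Finset.mem_coe, mem_LF]
    exact Iff.rfl
  rw [e, finsum_mem_coe_finset] at h1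
  rw [h1]
  unfold Pool.Agent.H739K.mm
  apply Finset.sum_congr rfl
  intro w hw
  unfold ph
  rw [Pool.Agent.H739K.F3x.bx_eq hN hw]

/-- squares as sums over levels -/
lemma sq_levels (t i : ℕ) : (min t i) ^ 2 ≤ ∑ l ∈ Finset.Icc 1 i, if l ≤ t then 2 * l else 0 := by
  rw [← Finset.sum_filter]
  have e : (Finset.Icc 1 i).filter (fun l => l ≤ t) = Finset.Icc 1 (min t i) := by
    ext l
    rw [Finset.mem_filter, Finset.mem_Icc, Finset.mem_Icc]
    omega
  rw [e]
  generalize min t i = k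
  rw [← Finset.mul_sum]
  induction k with
  | zero => simp
  | succ k ih =>
    rw [Finset.sum_Icc_succ_top (by omega)]
    nlinarith

open scoped Classical in
/-- upper bound by canonical polygons -/
lemma mm_le {N : ℕ} (hN : 2 ≤ N) (i : ℕ) :
    Pool.Agent.H739K.mm (ph i) (2 * N - 1) ≤ 16 * N * ∑ l ∈ Finset.Icc 1 i,
      (2 * l : ℝ) * (((CanF (2 * N - 1)).filter (fun g => l ≤ ht g)).card : ℝ) := by
  have : NeZero (2 * N) := ⟨by omega⟩
  rw [mm_eq hN i]
  have h1 := sum_loops_le (m := 2 * N) (by omega) (fun f => (min (width (2 * N) f) i) ^ 2)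
    (fun g => (min (ht g) i) ^ 2) (by
      intro f g _ _ h
      exact Nat.pow_le_pow_left (min_le_min_right _ h) 2)
  have h2 : (∑ f ∈ LF (2 * N), (min (height (2 * N) f) i) ^ 2) =
      ∑ f ∈ LF (2 * N), (min (width (2 * N) f) i) ^ 2 :=
    sum_swp (m := 2 * N) (fun f => (min (width (2 * N) f) i) ^ 2)
  have h3 : ∑ f ∈ LF (2 * N), (min (width (2 * N) f + height (2 * N) f) i) ^ 2 ≤
      ∑ f ∈ LF (2 * N), (2 * (min (width (2 * N) f) i) ^ 2 + 2 * (min (height (2 * N) f) i) ^ 2) := by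
    apply Finset.sum_le_sum
    intro f _
    have h4 : min (width (2 * N) f + height (2 * N) f) i ≤
        min (width (2 * N) f) i + min (height (2 * N) f) i := by omega
    calc (min (width (2 * N) f + height (2 * N) f) i) ^ 2
        ≤ (min (width (2 * N) f) i + min (height (2 * N) f) i) ^ 2 := Nat.pow_le_pow_left h4 2
      _ ≤ _ := by
        generalize min (width (2 * N) f) i = a
        generalize min (height (2 * N) f) i = b
        zify
        nlinarith [sq_nonneg ((a : ℤ) - b)]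
  have h4 : ∑ g ∈ CanF (2 * N - 1), (min (ht g) i) ^ 2 ≤ ∑ l ∈ Finset.Icc 1 i,
      2 * l * ((CanF (2 * N - 1)).filter (fun g => l ≤ ht g)).card := by
    calc ∑ g ∈ CanF (2 * N - 1), (min (ht g) i) ^ 2
        ≤ ∑ g ∈ CanF (2 * N - 1), ∑ l ∈ Finset.Icc 1 i, (if l ≤ ht g then 2 * l else 0) :=
          Finset.sum_le_sum (fun g _ => sq_levels _ _)
      _ = ∑ l ∈ Finset.Icc 1 i, ∑ g ∈ CanF (2 * N - 1), (if l ≤ ht g then 2 * l else 0) :=
          Finset.sum_comm
      _ = _ := by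
        apply Finset.sum_congr rfl
        intro l _
        rw [← Finset.sum_filter, Finset.sum_const, smul_eq_mul, mul_comm]
  rw [Finset.sum_add_distrib, ← Finset.mul_sum, ← Finset.mul_sum, h2] at h3
  have h5 : ∑ f ∈ LF (2 * N), (min (width (2 * N) f + height (2 * N) f) i) ^ 2 ≤
      16 * N * ∑ l ∈ Finset.Icc 1 i,
        2 * l * ((CanF (2 * N - 1)).filter (fun g => l ≤ ht g)).card := by
    calc _ ≤ 4 * ∑ f ∈ LF (2 * N), (min (width (2 * N) f) i) ^ 2 := by omega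
      _ ≤ 4 * (2 * (2 * N) * ∑ g ∈ CanF (2 * N - 1), (min (ht g) i) ^ 2) :=
        Nat.mul_le_mul_left _ h1
      _ ≤ 4 * (2 * (2 * N) * ∑ l ∈ Finset.Icc 1 i,
        2 * l * ((CanF (2 * N - 1)).filter (fun g => l ≤ ht g)).card) := by gcongr
      _ = _ := by ring
  have h6 : ((∑ f ∈ LF (2 * N), (min (width (2 * N) f + height (2 * N) f) i) ^ 2 : ℕ) : ℝ) ≤
      ((16 * N * ∑ l ∈ Finset.Icc 1 i,
        2 * l * ((CanF (2 * N - 1)).filter (fun g => l ≤ ht g)).card : ℕ) : ℝ) := by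
    exact_mod_cast h5
  push_cast at h6
  exact_mod_cast h6

/-- the sum of the weights -/
lemma sum_G : ∃ C : ℝ, 0 ≤ C ∧ ∀ i : ℕ, 1 ≤ i → ∀ M : ℕ,
    ∑ j ∈ Finset.Icc 2 M, G i j ≤ C * M * i := by
  classical
  obtain ⟨C, hC, hU⟩ := U_bound
  have hmu := mu_pos
  refine ⟨32 * C, by positivity, fun i hi M => ?_⟩
  have h1 : ∀ j ∈ Finset.Icc 2 M, G i j ≤ 16 * M * ∑ l ∈ Finset.Icc 1 i,
      (2 * l : ℝ) * ((((CanF (2 * j - 1)).filter (fun g => l ≤ ht g)).card : ℝ) *
        mu⁻¹ ^ (2 * j)) := by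
    intro j hj
    rw [Finset.mem_Icc] at hj
    have h2 := mm_le hj.1 i
    unfold G
    rw [div_eq_mul_inv, ← inv_pow]
    have h3 : 0 ≤ mu⁻¹ ^ (2 * j) := by positivity
    have hjM : (j : ℝ) ≤ M := by exact_mod_cast hj.2
    calc Pool.Agent.H739K.mm (ph i) (2 * j - 1) * mu⁻¹ ^ (2 * j)
        ≤ (16 * j * ∑ l ∈ Finset.Icc 1 i, (2 * l : ℝ) *
          (((CanF (2 * j - 1)).filter (fun g => l ≤ ht g)).card : ℝ)) * mu⁻¹ ^ (2 * j) :=
          mul_le_mul_of_nonneg_right h2 h3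
      _ ≤ (16 * M * ∑ l ∈ Finset.Icc 1 i, (2 * l : ℝ) *
          (((CanF (2 * j - 1)).filter (fun g => l ≤ ht g)).card : ℝ)) * mu⁻¹ ^ (2 * j) := by
          gcongr
      _ = _ := by
          rw [mul_assoc, Finset.sum_mul]
          congr 1
          apply Finset.sum_congr rfl
          intro l _
          ring
  refine (Finset.sum_le_sum h1).trans ?_
  rw [← Finset.mul_sum, Finset.sum_comm]
  have h2 : ∀ l ∈ Finset.Icc 1 i, ∑ j ∈ Finset.Icc 2 M,
      (2 * l : ℝ) * ((((CanF (2 * j - 1)).filter (fun g => l ≤ ht g)).card : ℝ) *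
        mu⁻¹ ^ (2 * j)) ≤ 2 * C := by
    intro l hl
    rw [Finset.mem_Icc] at hl
    rw [← Finset.mul_sum]
    have h3 := hU M l hl.1
    have hl0 : (0 : ℝ) < l := by exact_mod_cast hl.1
    unfold U at h3
    rw [le_div_iff₀ hl0] at h3
    calc _ = 2 * ((∑ j ∈ Finset.Icc 2 M,
        (((CanF (2 * j - 1)).filter (fun g => l ≤ ht g)).card : ℝ) * mu⁻¹ ^ (2 * j)) * l) := by
          ring
      _ ≤ 2 * C := by
          apply mul_le_mul_of_nonneg_left _ (by norm_num)
          convert h3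
  have h3 := Finset.sum_le_sum h2
  rw [Finset.sum_const, Nat.card_Icc, nsmul_eq_mul, Nat.add_sub_cancel] at h3
  calc _ ≤ 16 * (M : ℝ) * (i * (2 * C)) := by gcongr
    _ = _ := by ring

/-- **pointwise bound** -/
theorem G_point : ∃ K : ℝ, 0 ≤ K ∧ ∀ i : ℕ, 1 ≤ i → ∀ n : ℕ, 2 ≤ n →
    G i n ≤ K * Real.sqrt n * i := by
  obtain ⟨C, hC, hsumG⟩ := sum_G
  obtain ⟨D0, hD0, hconv⟩ := G_conv
  obtain ⟨N0, hN0, hratio⟩ := G_ratio
  obtain ⟨D, hD⟩ : ∃ D : ℝ, D = 4 * D0 := ⟨_, rfl⟩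
  have hD1 : 1 ≤ D := by rw [hD]; linarith
  obtain ⟨M0, hM0⟩ : ∃ M0 : ℕ, M0 = max (2 * N0 + 4) ⌈64 * D⌉₊ := ⟨_, rfl⟩
  refine ⟨C * M0 + 32 * C * D, by positivity, fun i hi n hn => ?_⟩
  have hi0 : (0 : ℝ) < i := by exact_mod_cast hi
  have hn0 : (0 : ℝ) < n := by
    have : 0 < n := by omega
    exact_mod_cast this
  have hsn : 0 < Real.sqrt n := Real.sqrt_pos.mpr hn0
  have hsn1 : 1 ≤ Real.sqrt n := by
    rw [Real.one_le_sqrt]
    have : 1 ≤ n := by omega
    exact_mod_cast this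
  have hpos : ∀ j ∈ Finset.Icc 2 (2 * n), 0 ≤ G i j := fun j hj =>
    (G_pos hi (Finset.mem_Icc.mp hj).1).le
  by_cases hc : n < M0
  · have h1 : G i n ≤ ∑ j ∈ Finset.Icc 2 M0, G i j :=
      Finset.single_le_sum (f := G i) (fun j hj => (G_pos hi (Finset.mem_Icc.mp hj).1).le)
        (Finset.mem_Icc.mpr ⟨hn, hc.le⟩)
    have h2 := hsumG i hi M0
    calc G i n ≤ C * M0 * i := h1.trans h2
      _ = (C * M0) * 1 * i := by ring
      _ ≤ (C * M0 + 32 * C * D) * Real.sqrt n * i := by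
          gcongr
          have : 0 ≤ 32 * C * D := by positivity
          linarith
  push Not at hc
  have hnN0 : 2 * N0 + 4 ≤ n := (le_max_left _ _).trans (hM0 ▸ hc)
  have hn64 : 64 * D ≤ n := by
    have h1 : ⌈64 * D⌉₊ ≤ n := (le_max_right _ _).trans (hM0 ▸ hc)
    exact (Nat.le_ceil _).trans (by exact_mod_cast h1)
  obtain ⟨κ, hκ⟩ : ∃ κ : ℕ, κ = ⌊Real.sqrt (n / (16 * D))⌋₊ := ⟨_, rfl⟩
  have hκ1 : (κ : ℝ) ≤ Real.sqrt (n / (16 * D)) := by rw [hκ]; exact Nat.floor_le (by positivity)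
  have hκ2 : Real.sqrt (n / (16 * D)) < κ + 1 := by rw [hκ]; exact Nat.lt_floor_add_one _
  have hsq2 : (2 : ℝ) ≤ Real.sqrt (n / (16 * D)) := by
    apply Real.le_sqrt_of_sq_le
    rw [le_div_iff₀ (by positivity)]
    linarith
  have hκ3 : Real.sqrt (n / (16 * D)) / 2 ≤ κ := by linarith
  have hκsq : (κ : ℝ) ^ 2 ≤ n / (16 * D) := by
    calc (κ : ℝ) ^ 2 ≤ Real.sqrt (n / (16 * D)) ^ 2 := by gcongr
      _ = n / (16 * D) := Real.sq_sqrt (by positivity)
  have hκn : 16 * D * (κ : ℝ) ^ 2 ≤ n := by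
    rw [le_div_iff₀ (by positivity)] at hκsq
    linarith
  have hκ2n : 16 * κ ≤ n := by
    have h1 : (κ : ℝ) ≤ κ ^ 2 := by
      have h2 : κ ≤ κ ^ 2 := Nat.le_self_pow (by norm_num) κ
      exact_mod_cast h2
    have h3 : (16 : ℝ) * κ ≤ n := by nlinarith
    exact_mod_cast h3
  have hpair : ∀ k, k ∈ Finset.Icc 1 κ → G i n ≤ G i (n + k) + G i (n - k) := by
    intro k hk
    rw [Finset.mem_Icc] at hk
    have hkκ : (k : ℝ) ≤ κ := by exact_mod_cast hk.2
    have hkn : 16 * D * (k : ℝ) ^ 2 ≤ n := by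
      refine le_trans ?_ hκn
      gcongr
    have h1 := Pool.Agent.TH546.PC.almost_convex (g := G i) (D := D) hD1 (N := n) (k := k)
      (fun m hm => G_pos hi (by omega)) (fun m hm => by
        refine (hconv i hi m (by omega)).trans ?_
        have h2 : D0 / (m : ℝ) ≤ D / n := by
          rw [hD]
          have hm0 : (0 : ℝ) < m := by
            have : 0 < m := by omega
            exact_mod_cast this
          rw [div_le_div_iff₀ hm0 hn0]
          have h3 : n ≤ 4 * m := by omega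
          have h4 : (n : ℝ) ≤ 4 * m := by exact_mod_cast h3
          nlinarith
        gcongr) (fun m hm => hratio i hi m (by omega)) (by omega)
      (by
        have : 0 ≤ D * (k : ℝ) ^ 2 := by positivity
        linarith) (by omega)
    have h2 : (1 : ℝ) / 2 ≤ 1 - 8 * D * (k : ℝ) ^ 2 / n := by
      have : 8 * D * (k : ℝ) ^ 2 / n ≤ 1 / 2 := by
        rw [div_le_div_iff₀ hn0 (by norm_num)]
        linarith
      linarith
    have hG := G_pos hi hn
    have hGa := G_pos hi (N := n + k) (by omega)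
    have hGb := G_pos hi (N := n - k) (by omega)
    have h3 : G i n ^ 2 / 2 ≤ G i (n + k) * G i (n - k) := by
      refine le_trans ?_ h1
      have : G i n ^ 2 / 2 = 1 / 2 * G i n ^ 2 := by ring
      rw [this]
      gcongr
    nlinarith [sq_nonneg (G i (n + k) - G i (n - k))]
  have hsum : κ * G i n ≤ ∑ k ∈ Finset.Icc 1 κ, (G i (n + k) + G i (n - k)) := by
    calc κ * G i n = ∑ k ∈ Finset.Icc 1 κ, G i n := by
          rw [Finset.sum_const, Nat.card_Icc, nsmul_eq_mul, Nat.add_sub_cancel]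
      _ ≤ _ := Finset.sum_le_sum hpair
  rw [Finset.sum_add_distrib] at hsum
  have ht := hsumG i hi (2 * n)
  have ha : ∑ k ∈ Finset.Icc 1 κ, G i (n + k) ≤ ∑ j ∈ Finset.Icc 2 (2 * n), G i j := by
    have e : ∑ k ∈ Finset.Icc 1 κ, G i (n + k) =
        ∑ j ∈ (Finset.Icc 1 κ).image (fun k => n + k), G i j := by
      rw [Finset.sum_image]
      intro a _ b _ hab
      simpa using hab
    rw [e]
    apply Finset.sum_le_sum_of_subset_of_nonneg
    · intro j hj
      rw [Finset.mem_image] at hj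
      obtain ⟨k, hk, rfl⟩ := hj
      rw [Finset.mem_Icc] at hk ⊢
      omega
    · intro j hj _
      exact hpos j hj
  have hb : ∑ k ∈ Finset.Icc 1 κ, G i (n - k) ≤ ∑ j ∈ Finset.Icc 2 (2 * n), G i j := by
    have e : ∑ k ∈ Finset.Icc 1 κ, G i (n - k) =
        ∑ j ∈ (Finset.Icc 1 κ).image (fun k => n - k), G i j := by
      rw [Finset.sum_image]
      intro a ha b hb hab
      rw [Finset.mem_coe, Finset.mem_Icc] at ha hb
      simp only at hab
      omega
    rw [e]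
    apply Finset.sum_le_sum_of_subset_of_nonneg
    · intro j hj
      rw [Finset.mem_image] at hj
      obtain ⟨k, hk, rfl⟩ := hj
      rw [Finset.mem_Icc] at hk ⊢
      omega
    · intro j hj _
      exact hpos j hj
  have hF := (G_pos hi hn).le
  have h1 : κ * G i n ≤ 4 * C * n * i := by
    push_cast at ht
    calc κ * G i n ≤ C * (2 * n) * i + C * (2 * n) * i := by linarith
      _ = _ := by ring
  have h2 : Real.sqrt n / (8 * Real.sqrt D) ≤ κ := by
    refine le_trans (le_of_eq ?_) hκ3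
    rw [Real.sqrt_div hn0.le, Real.sqrt_mul (by norm_num)]
    have : Real.sqrt 16 = 4 := by
      rw [show (16 : ℝ) = 4 ^ 2 by norm_num, Real.sqrt_sq (by norm_num)]
    rw [this]
    field_simp
    norm_num
  have hsD : Real.sqrt D ≤ D := by
    rw [Real.sqrt_le_left (by linarith)]
    nlinarith
  have hsD0 : 0 < Real.sqrt D := Real.sqrt_pos.mpr (by linarith)
  have h3 : Real.sqrt n / (8 * Real.sqrt D) * G i n ≤ 4 * C * n * i := by
    refine le_trans ?_ h1
    gcongr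
  have h4 : G i n ≤ 32 * C * Real.sqrt D * Real.sqrt n * i := by
    have h5 : Real.sqrt n * Real.sqrt n = n := Real.mul_self_sqrt hn0.le
    rw [div_mul_eq_mul_div, div_le_iff₀ (by positivity)] at h3
    have h6 : Real.sqrt n * G i n ≤
        Real.sqrt n * (32 * C * Real.sqrt D * Real.sqrt n * i) := by
      calc Real.sqrt n * G i n ≤ 4 * C * n * i * (8 * Real.sqrt D) := h3
        _ = 4 * C * (Real.sqrt n * Real.sqrt n) * i * (8 * Real.sqrt D) := by rw [h5]
        _ = _ := by ring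
    exact le_of_mul_le_mul_left h6 hsn
  calc G i n ≤ 32 * C * Real.sqrt D * Real.sqrt n * i := h4
    _ ≤ 32 * C * D * Real.sqrt n * i := by gcongr
    _ ≤ (C * M0 + 32 * C * D) * Real.sqrt n * i := by
        gcongr
        have : 0 ≤ C * (M0 : ℝ) := by positivity
        linarith

open scoped Classical in
/-- the number of rooted oriented loops with width at least `i` -/
noncomputable def LW (n i : ℕ) : ℕ := ((LF (2 * n)).filter (fun f => i ≤ width (2 * n) f)).card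

/-- **Polygons with a given width** -/
theorem wtail : ∃ K : ℝ, 0 ≤ K ∧ ∀ n : ℕ, 2 ≤ n → ∀ i : ℕ, 1 ≤ i →
    (LW n i : ℝ) / (4 * n) ≤ K / (i * Real.sqrt n) * mu ^ (2 * n) := by
  classical
  obtain ⟨K, hK, h⟩ := G_point
  have hmu := mu_pos
  refine ⟨K, hK, fun n hn i hi => ?_⟩
  have hi0 : (0 : ℝ) < i := by exact_mod_cast hi
  have hn0 : (0 : ℝ) < n := by
    have : 0 < n := by omega
    exact_mod_cast this
  have hsn : 0 < Real.sqrt n := Real.sqrt_pos.mpr hn0
  have h5 : Real.sqrt n * Real.sqrt n = n := Real.mul_self_sqrt hn0.le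
  have h1 := h i hi n hn
  have hP : 0 < mu ^ (2 * n) := pow_pos hmu _
  unfold G at h1
  rw [div_le_iff₀ hP, mm_eq hn] at h1
  have h2 : (LW n i : ℝ) * (i : ℝ) ^ 2 ≤
      ∑ f ∈ LF (2 * n), ((min (width (2 * n) f + height (2 * n) f) i : ℕ) : ℝ) ^ 2 := by
    unfold LW
    calc (((LF (2 * n)).filter (fun f => i ≤ width (2 * n) f)).card : ℝ) * (i : ℝ) ^ 2
        = ∑ f ∈ (LF (2 * n)).filter (fun f => i ≤ width (2 * n) f), (i : ℝ) ^ 2 := by
          rw [Finset.sum_const, nsmul_eq_mul]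
      _ ≤ ∑ f ∈ (LF (2 * n)).filter (fun f => i ≤ width (2 * n) f),
          ((min (width (2 * n) f + height (2 * n) f) i : ℕ) : ℝ) ^ 2 := by
          apply Finset.sum_le_sum
          intro f hf
          rw [Finset.mem_filter] at hf
          rw [min_eq_right (by omega)]
      _ ≤ _ := by
          apply Finset.sum_le_sum_of_subset_of_nonneg (Finset.filter_subset _ _)
          intro f _ _
          positivity
  have h3 : (LW n i : ℝ) * (i : ℝ) ^ 2 ≤ K * Real.sqrt n * i * mu ^ (2 * n) := h2.trans h1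
  have h4 : (LW n i : ℝ) * i ≤ K * Real.sqrt n * mu ^ (2 * n) := by
    have : i * ((LW n i : ℝ) * i) ≤ i * (K * Real.sqrt n * mu ^ (2 * n)) := by
      calc i * ((LW n i : ℝ) * i) = (LW n i : ℝ) * (i : ℝ) ^ 2 := by ring
        _ ≤ _ := h3
        _ = _ := by ring
    exact le_of_mul_le_mul_left this hi0
  rw [div_mul_eq_mul_div, div_le_div_iff₀ (by positivity) (by positivity)]
  calc (LW n i : ℝ) * (i * Real.sqrt n) = ((LW n i : ℝ) * i) * Real.sqrt n := by ring
    _ ≤ (K * Real.sqrt n * mu ^ (2 * n)) * Real.sqrt n := by gcongr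
    _ = K * mu ^ (2 * n) * (Real.sqrt n * Real.sqrt n) := by ring
    _ = K * mu ^ (2 * n) * n := by rw [h5]
    _ ≤ K * mu ^ (2 * n) * (4 * n) := by
        have : 0 ≤ K * mu ^ (2 * n) * n := by positivity
        linarith

/-- **The mean width times the number of polygons** -/
theorem mean_count : ∃ K : ℝ, 0 ≤ K ∧ ∀ n : ℕ, 2 ≤ n →
    PP n * MW n ≤ K * (Real.log n / Real.sqrt n) * mu ^ (2 * n) := by
  classical
  obtain ⟨K, hK, h⟩ := wtail
  have hmu := mu_pos
  refine ⟨5 * K, by positivity, fun n hn => ?_⟩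
  have : NeZero (2 * n) := ⟨by omega⟩
  have hn2 : (2 : ℝ) ≤ n := by exact_mod_cast hn
  have hn0 : (0 : ℝ) < n := by linarith
  have hsn : 0 < Real.sqrt n := Real.sqrt_pos.mpr hn0
  have hP : 0 < mu ^ (2 * n) := pow_pos hmu _
  have hPP := PP_pos hn
  have h1 : ∑ f ∈ LF (2 * n), (width (2 * n) f : ℝ) =
      ∑ i ∈ Finset.Icc 1 (4 * n), (LW n i : ℝ) := by
    have h2 : ∀ f ∈ LF (2 * n), (width (2 * n) f : ℝ) =
        ∑ i ∈ Finset.Icc 1 (4 * n), (if i ≤ width (2 * n) f then (1 : ℝ) else 0) := by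
      intro f hf
      rw [mem_LF] at hf
      have h3 : width (2 * n) f ≤ 2 * (2 * n) := all_width hf
      rw [← Finset.sum_filter]
      have e : (Finset.Icc 1 (4 * n)).filter (fun i => i ≤ width (2 * n) f) =
          Finset.Icc 1 (width (2 * n) f) := by
        ext i
        rw [Finset.mem_filter, Finset.mem_Icc, Finset.mem_Icc]
        omega
      rw [e, Finset.sum_const, Nat.card_Icc, nsmul_eq_mul, mul_one, Nat.add_sub_cancel]
    rw [Finset.sum_congr rfl h2, Finset.sum_comm]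
    apply Finset.sum_congr rfl
    intro i _
    unfold LW
    rw [← Finset.sum_filter, Finset.sum_const, nsmul_eq_mul, mul_one]
  have h2 : PP n * MW n = ∑ i ∈ Finset.Icc 1 (4 * n), (LW n i : ℝ) / (4 * n) := by
    unfold MW
    rw [loops_eq (by omega), h1, ← Finset.sum_div]
    field_simp
  have h3 : ∑ i ∈ Finset.Icc 1 (4 * n), (LW n i : ℝ) / (4 * n) ≤
      ∑ i ∈ Finset.Icc 1 (4 * n), K / Real.sqrt n * mu ^ (2 * n) * (i : ℝ)⁻¹ := by
    apply Finset.sum_le_sum
    intro i hi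
    rw [Finset.mem_Icc] at hi
    refine (h n hn i hi.1).trans (le_of_eq ?_)
    have hi0 : (0 : ℝ) < i := by exact_mod_cast hi.1
    field_simp
  rw [← Finset.mul_sum] at h3
  have h4 : ∑ i ∈ Finset.Icc 1 (4 * n), ((i : ℝ))⁻¹ ≤ 1 + Real.log (4 * n) := by
    have h6 := harmonic_le_one_add_log (4 * n)
    rw [harmonic_eq_sum_Icc] at h6
    push_cast at h6
    exact h6
  have h5 : 1 + Real.log (4 * (n : ℝ)) ≤ 5 * Real.log n := by
    rw [Real.log_mul (by norm_num) hn0.ne']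
    have e4 : Real.log 4 = 2 * Real.log 2 := by
      rw [show (4 : ℝ) = 2 ^ 2 by norm_num, Real.log_pow]; norm_num
    have h6 : Real.log 2 ≤ Real.log n := Real.log_le_log (by norm_num) hn2
    have h7 := Real.log_two_gt_d9
    rw [e4]
    linarith
  rw [h2]
  have hA : 0 ≤ K / Real.sqrt n * mu ^ (2 * n) := by positivity
  calc _ ≤ K / Real.sqrt n * mu ^ (2 * n) * ∑ i ∈ Finset.Icc 1 (4 * n), ((i : ℝ))⁻¹ := h3
    _ ≤ K / Real.sqrt n * mu ^ (2 * n) * (5 * Real.log n) :=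
        mul_le_mul_of_nonneg_left (h4.trans h5) hA
    _ = _ := by ring

end Pool.Agent.R475.WC
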